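import Pool.Agent.Q186.DT.Stm

/-!
# Project DT, job TNN: nonnegative solutions
-/

namespace Pool.Agent.Q186.DT

open Set Filter Topology MeasureTheory

/-- Job TNN -/
theorem t_TNN : P_TNN := by
  intro K L g k T F V hL hV hF h0 w t ht
  have hT : 0 ≤ T := ht.1.trans ht.2
  have hc : ∀ w, ContinuousOn (V w) (Icc 0 T) := fun w t ht => (hV w t ht).continuousWithinAt
  have hch : ContinuousOn (ch V w) (Icc 0 T) := by
    unfold ch
    exact continuousOn_finsetSum _ fun i _ => hc (i :: w)
  set q : ℝ → ℝ := IccExtend hT (Set.domRestrict (Icc 0 T) (ch V w)) with hq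
  have hqc : Continuous q := (continuousOn_iff_continuous_domRestrict.1 hch).Icc_extend'
  have hqe : ∀ s ∈ Icc 0 T, q s = ch V w s := fun s hs => by
    simp only [hq]
    rw [IccExtend_of_mem _ _ hs]
    rfl
  set r : ℝ → ℝ := fun s => L ^ w.length * (g * q s + k) with hr
  have hrc : Continuous r := by rw [hr]; fun_prop
  set R : ℝ → ℝ := fun t => ∫ s in (0 : ℝ)..t, r s with hR
  have hRd : ∀ t, HasDerivAt R (r t) t := fun t => (hrc.integral_hasStrictDerivAt 0 t).hasDerivAt
  have hd : ∀ t ∈ Icc 0 T, HasDerivWithinAt (fun t => V w t * Real.exp (R t))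
      ((L ^ w.length * pr V w t ^ 2 + F w t) * Real.exp (R t)) (Icc 0 T) t := by
    intro t ht
    have h1 := (hV w t ht).mul ((hRd t).exp.hasDerivWithinAt (s := Icc 0 T))
    have h2 : r t = L ^ w.length * (g * ch V w t + k) := by
      rw [hr]
      simp only [hqe t ht]
    rw [h2] at h1
    refine h1.congr_deriv ?_
    unfold vf
    ring
  have hmono : MonotoneOn (fun t => V w t * Real.exp (R t)) (Icc 0 T) := by
    apply monotoneOn_of_deriv_nonneg (convex_Icc 0 T)
    · exact fun t ht => (hd t ht).continuousWithinAt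
    · intro t ht
      rw [interior_Icc] at ht
      exact ((hd t (Ioo_subset_Icc_self ht)).hasDerivAt
        (Icc_mem_nhds ht.1 ht.2)).differentiableAt.differentiableWithinAt
    · intro t ht
      rw [interior_Icc] at ht
      rw [((hd t (Ioo_subset_Icc_self ht)).hasDerivAt (Icc_mem_nhds ht.1 ht.2)).deriv]
      have := hF w t (Ioo_subset_Icc_self ht)
      positivity
  have h1 := hmono ⟨le_rfl, hT⟩ ht ht.1
  simp only at h1
  have h2 : 0 ≤ V w 0 * Real.exp (R 0) := mul_nonneg (h0 _) (Real.exp_pos _).le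
  exact nonneg_of_mul_nonneg_left (h2.trans h1) (Real.exp_pos _)

end Pool.Agent.Q186.DT
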