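import Pool.Agent.Q186.DT.RegC2
import Pool.Agent.Q186.DT.NN
import Pool.Agent.Q58.DT.Teb
import Pool.Agent.Q98.DT.TCP
import Pool.Agent.Q257.DT.TSM
import Pool.Agent.Q257.DT.TWS
import Pool.Agent.Q208.DT.TE0
import Pool.Agent.Q208.DT.TUNI
import Pool.Agent.Q176.DT.TLH

/-!
# Project DT: assembly in the critical variables
-/

namespace Pool.Agent.Q186.DT

open Set Filter Topology MeasureTheory

noncomputable section

variable {K : ℕ} {L g k T M EF E0 : ℝ} {F V W : Nd K → ℝ → ℝ} {a : Nd K → ℝ} {h : ℕ → ℝ}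

/-- Translation in time. -/
def sh (s : ℝ) (V : Nd K → ℝ → ℝ) : Nd K → ℝ → ℝ := fun w t => V w (s + t)

lemma pr_sh (s : ℝ) (V : Nd K → ℝ → ℝ) (w : Nd K) (t : ℝ) : pr (sh s V) w t = pr V w (s + t) := by
  cases w <;> rfl

lemma vf_sh (s : ℝ) (w : Nd K) (t : ℝ) :
    vf L g k (sh s F) (sh s V) w t = vf L g k F V w (s + t) := by
  unfold vf
  rw [pr_sh]
  rfl

lemma Sol.sh (hV : Sol L g k T F V) {s : ℝ} (hs : 0 ≤ s) :
    Sol L g k (T - s) (DT.sh s F) (DT.sh s V) := by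
  intro w t ht
  have hst : s + t ∈ Icc 0 T := ⟨by linarith [ht.1], by linarith [ht.2]⟩
  have h1 := hV w (s + t) hst
  have h2 : HasDerivWithinAt (fun r : ℝ => s + r) 1 (Icc 0 (T - s)) t :=
    (hasDerivWithinAt_id t _).const_add s
  have h3 := h1.comp t h2 (fun r hr => ⟨by linarith [hr.1], by linarith [hr.2]⟩)
  rw [vf_sh]
  rw [mul_one] at h3
  exact h3

lemma Frc.sh (hF : Frc L g T EF F h) {s : ℝ} (hs : 0 ≤ s) :
    Frc L g (T - s) EF (DT.sh s F) h := by
  have hst : ∀ t ∈ Icc 0 (T - s), s + t ∈ Icc 0 T := fun t ht =>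
    ⟨by linarith [ht.1], by linarith [ht.2]⟩
  refine ⟨fun w => ?_, fun w t ht => hF.bd w _ (hst t ht), hF.nonneg, hF.lim,
    fun N t ht => hF.en N _ (hst t ht)⟩
  exact (hF.cont w).comp (by fun_prop) (fun t ht => hst t ht)

lemma int_fl_sh (s t : ℝ) (N : ℕ) :
    ∫ r in (0:ℝ)..t, fl g (sh s V) N r = ∫ r in s..(s + t), fl g V N r := by
  have h1 := intervalIntegral.integral_comp_add_left (a := 0) (b := t) (fun x => fl g V N x) s
  rw [add_zero] at h1
  exact h1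

lemma EI_sh {s t : ℝ} (hI : EI g V s (s + t)) : EI g (sh s V) 0 t := by
  intro ε hε
  filter_upwards [hI ε hε] with N hN
  rw [int_fl_sh]
  exact hN

lemma cont_of_sol (hV : Sol L g k T F V) (w : Nd K) : ContinuousOn (V w) (Icc 0 T) :=
  fun t ht => (hV w t ht).continuousWithinAt

lemma int_PD_sh {s : ℝ} (hg : 0 < g) (hV : ∀ w, ContinuousOn (V w) (Icc 0 T)) (hs : 0 ≤ s)
    (hsT : s ≤ T) {D : ℝ} (hD : ∀ N, (∫ r in (0:ℝ)..T, PD g V N r) ≤ D) (N : ℕ) :
    (∫ r in (0:ℝ)..(T - s), PD g (sh s V) N r) ≤ D := by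
  have h1 := intervalIntegral.integral_comp_add_left (a := 0) (b := T - s) (fun x => PD g V N x) s
  rw [add_zero, add_sub_cancel] at h1
  have h2 : (∫ r in (0:ℝ)..(T - s), PD g (sh s V) N r) = ∫ r in s..T, PD g V N r := h1
  rw [h2]
  have hc : ContinuousOn (fun r => PD g V N r) (Icc 0 T) :=
    Pool.Agent.Q58.DT.PD_cont (fun w _ => hV w)
  have h3 : (∫ r in (0:ℝ)..s, PD g V N r) + (∫ r in s..T, PD g V N r)
      = ∫ r in (0:ℝ)..T, PD g V N r :=
    intervalIntegral.integral_add_adjacent_intervals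
      ((hc.mono (Icc_subset_Icc le_rfl hsT)).intervalIntegrable_of_Icc hs)
      ((hc.mono (Icc_subset_Icc hs le_rfl)).intervalIntegrable_of_Icc hsT)
  have h4 : 0 ≤ ∫ r in (0:ℝ)..s, PD g V N r :=
    intervalIntegral.integral_nonneg hs fun r _ => Pool.Agent.Q58.DT.PD_nonneg hg.le V N r
  linarith [hD N]

lemma Par.one_le (hP : Par K L g) : 1 ≤ K := by
  rcases hP with ⟨h, _⟩ | ⟨h, _⟩ <;> omega

lemma Tl.mono {s s' T' : ℝ} (hV : Tl s T' V) (h : s ≤ s') : Tl s' T' V := by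
  intro ε hε
  obtain ⟨m, hm⟩ := hV ε hε
  exact ⟨m, fun w hw t ht => hm w hw t ⟨h.trans ht.1, ht.2⟩⟩

/-- Strong solutions for data tending to zero. -/
theorem strong (hTTR : P_TTR) (hP : Par K L g) (hL : 1 < L) (hg : 1 ≤ g) (hk : 0 < k) (hT : 0 < T)
    (hF : Frc L g T EF F h) (ha : Dt a)
    (hE0 : ∀ N, (sm N fun w => (g / L) ^ w.length * a w ^ 2) ≤ E0) :
    ∃ (V : Nd K → ℝ → ℝ) (M : ℝ) (m : ℕ) (E : ℝ), Sol L g k T F V ∧ (∀ w, V w 0 = a w) ∧
      RC g k T M m V ∧ (∀ N, ∀ t ∈ Icc 0 T, PE L g V N t ≤ E) ∧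
      (∀ N, (∫ t in (0:ℝ)..T, PD g V N t) ≤ E) ∧ Tl 0 T V := by
  obtain ⟨M, m, hreg⟩ := t_TREG Pool.Agent.Q58.DT.teb K L g k T EF E0 F h a hP hL hg hk hT hF ha hE0
  choose U hU using fun N : ℕ => hTTR K L g k T N F a hL.le hg hk hT hF.cont
  obtain ⟨V, φ, hV, hV0, hφ, hlim⟩ := Pool.Agent.Q98.DT.t_TCP K L g k T F a (fun _ => M) U hL.le hg hk
    hT hF.cont hU (fun N w hw t ht => (hreg N (U N) (hU N) w hw t ht).1)
  have hev : ∀ w : Nd K, ∀ᶠ j in atTop, w.length ≤ φ j := by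
    intro w
    filter_upwards [eventually_ge_atTop w.length] with j hj
    exact hj.trans (hφ.id_le j)
  have hRC : RC g k T M m V := by
    refine ⟨fun w t ht => ?_, fun w hw t ht => ?_, fun w hw t ht => ?_⟩
    · refine le_of_tendsto (hlim w t ht).abs ?_
      filter_upwards [hev w] with j hj
      exact (hreg (φ j) (U (φ j)) (hU _) w hj t ht).1
    · refine ge_of_tendsto (hlim w t ht) ?_
      filter_upwards [hev w] with j hj
      exact ((hreg (φ j) (U (φ j)) (hU _) w hj t ht).2 hw).1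
    · refine le_of_tendsto (hlim w t ht) ?_
      filter_upwards [hev w] with j hj
      exact ((hreg (φ j) (U (φ j)) (hU _) w hj t ht).2 hw).2
  have hE0' : ∀ N, PE L g V N 0 ≤ E0 := by
    intro N
    unfold PE
    simp only [hV0]
    exact hE0 N
  obtain ⟨E, hE1, hE2⟩ := Pool.Agent.Q58.DT.tfe K L g k T EF E0 m F V h hP.one_le hL.le hg hk hT hF hV
    hRC.lo hE0'
  have hTl := (Pool.Agent.Q257.DT.t_TSM K L g k T EF M m F V h hP.one_le hL hg hk hT hF hV hRC).1
    (by simpa only [hV0] using ha)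
  exact ⟨V, M, m, E, hV, hV0, hRC, hE1, hE2, hTl⟩

/-- A Leray-Hopf solution is strong from a time on at which it tends to zero along the
generations. -/
theorem from_time (hTTR : P_TTR) (hP : Par K L g) (hL : 1 < L) (hg : 1 ≤ g) (hk : 0 < k)
    (hF : Frc L g T EF F h) (hW : LH L g k T F W) {s : ℝ} (hs : 0 ≤ s) (hsT : s < T)
    (hEI : ∀ t ∈ Icc s T, EI g W s t) (hDt : Dt (fun w => W w s)) :
    ∃ (M : ℝ) (m : ℕ), RC g k (T - s) M m (sh s W) ∧ Tl 0 (T - s) (sh s W) := by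
  obtain ⟨E, hE⟩ := hW.en
  obtain ⟨D, hD⟩ := hW.dis
  have hsI : s ∈ Icc 0 T := ⟨hs, hsT.le⟩
  have hg0 : 0 < g := by linarith
  obtain ⟨V, M, m, E', hV, hV0, hRC, hE1, hE2, hTl⟩ := strong hTTR hP hL hg hk
    (T := T - s) (by linarith) (hF.sh hs) hDt (E0 := E) (fun N => hE N s hsI)
  have heq := Pool.Agent.Q257.DT.t_TWS K L g k (T - s) EF M (max E' (max E D)) (sh s F) V (sh s W) h
    hP.one_le hL hg hk (by linarith) (hF.sh hs) hV (hW.sol.sh hs)
    (fun w => by rw [hV0]; simp [sh]) hRC.bd hTl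
    (fun N t ht => (hE1 N t ht).trans (le_max_left _ _))
    (fun N => (hE2 N).trans (le_max_left _ _))
    (fun N t ht => ((hE N (s + t) ⟨by linarith [ht.1], by linarith [ht.2]⟩).trans
      (le_max_left _ _)).trans (le_max_right _ _))
    (fun N => ((int_PD_sh hg0 (cont_of_sol hW.sol) hs hsT.le hD N).trans
      (le_max_right _ _)).trans (le_max_right _ _))
    (fun t ht => EI_sh (hEI (s + t) ⟨by linarith [ht.1], by linarith [ht.2]⟩))
  refine ⟨M, m, ⟨fun w t ht => ?_, fun w hw t ht => ?_, fun w hw t ht => ?_⟩, fun ε hε => ?_⟩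
  · rw [← heq w t ht]; exact hRC.bd w t ht
  · rw [← heq w t ht]; exact hRC.lo w hw t ht
  · rw [← heq w t ht]; exact hRC.hi w hw t ht
  · obtain ⟨m', hm'⟩ := hTl ε hε
    exact ⟨m', fun w hw t ht => by rw [← heq w t ht]; exact hm' w hw t ht⟩

/-- Arbitrarily small good times. -/
theorem good_time (hTTR : P_TTR) (hP : Par K L g) (hL : 1 < L) (hg : 1 ≤ g) (hk : 0 < k)
    (hF : Frc L g T EF F h) (hW : LH L g k T F W) {τ : ℝ} (hτ : 0 < τ)
    (hτT : τ ≤ T) : ∃ (s M : ℝ) (m : ℕ), 0 < s ∧ s < τ ∧ RC g k (T - s) M m (sh s W) ∧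
      Tl 0 (T - s) (sh s W) := by
  obtain ⟨D, hD⟩ := hW.dis
  obtain ⟨s, hs0, hsτ, hQ, hDt⟩ := Pool.Agent.Q58.DT.ttime K g T D τ W
    (fun s => ∀ t ∈ Icc s T, EI g W s t) hg hτ hτT (cont_of_sol hW.sol) hD hW.ae
  obtain ⟨M, m, h1, h2⟩ := from_time hTTR hP hL hg hk hF hW hs0.le (by linarith) hQ hDt
  exact ⟨s, M, m, hs0, hsτ, h1, h2⟩

/-- Regularity for positive times. -/
theorem LH.reg (hTTR : P_TTR) (hP : Par K L g) (hL : 1 < L) (hg : 1 ≤ g) (hk : 0 < k)
    (hF : Frc L g T EF F h) (hW : LH L g k T F W) {t0 : ℝ} (ht0 : 0 < t0)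
    (ht0T : t0 ≤ T) : Tl t0 T W ∧ ∃ M, ∀ w, ∀ t ∈ Icc t0 T, |W w t| ≤ M := by
  obtain ⟨s, M, m, hs0, hst, h1, h2⟩ := good_time hTTR hP hL hg hk hF hW ht0 ht0T
  constructor
  · intro ε hε
    obtain ⟨m', hm'⟩ := h2 ε hε
    refine ⟨m', fun w hw t ht => ?_⟩
    have := hm' w hw (t - s) ⟨by linarith [ht.1], by linarith [ht.2]⟩
    simpa [sh] using this
  · refine ⟨M, fun w t ht => ?_⟩
    have := h1.bd w (t - s) ⟨by linarith [ht.1], by linarith [ht.2]⟩
    simpa [sh] using this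

/-- Energy equality. -/
theorem LH.ee (hTTR : P_TTR) (hP : Par K L g) (hL : 1 < L) (hg : 1 ≤ g) (hk : 0 < k) (hT : 0 < T)
    (hF : Frc L g T EF F h) (hW : LH L g k T F W) {s t : ℝ} (hs : 0 ≤ s) (hst : s ≤ t)
    (htT : t ≤ T) : EE g W s t := by
  obtain ⟨E, hE⟩ := hW.en
  obtain ⟨D, hD⟩ := hW.dis
  have hg0 : 0 < g := by linarith
  have hpos : ∀ s t : ℝ, 0 < s → s ≤ t → t ≤ T → EE g W s t := by
    intro s t hs hst htT
    obtain ⟨_, M, hM⟩ := hW.reg hTTR hP hL hg hk hF hs (hst.trans htT)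
    exact Pool.Agent.Q58.DT.tfx K g M D T W s t hg0 hs.le hst htT (cont_of_sol hW.sol)
      (fun w r hr => hM w r ⟨hr.1, hr.2.trans htT⟩) hD
  rcases hs.eq_or_lt with rfl | hs
  · exact Pool.Agent.Q208.DT.t_TE0 Pool.Agent.Q58.DT.ten K L g k T EF E F W h hL.le hg hk hT hF
      hW.sol hE hpos hW.zero t ⟨hst, htT⟩
  · exact hpos s t hs hst htT

/-- Smoothing. -/
theorem LH.smooth (hTTR : P_TTR) (hP : Par K L g) (hL : 1 < L) (hg : 1 ≤ g) (hk : 0 < k)
    (hF : Frc L g T EF F h) (hW : LH L g k T F W)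
    (hh : ∀ q : ℝ, 0 < q → q < 1 → ∃ C : ℝ, ∀ n, h n ≤ C * q ^ n) {q t0 : ℝ} (hq : 0 < q)
    (hq1 : q < 1) (ht0 : 0 < t0) (ht0T : t0 ≤ T) :
    ∃ C : ℝ, ∀ w, ∀ t ∈ Icc t0 T, |W w t| ≤ C * q ^ w.length := by
  obtain ⟨s, M, m, hs0, hst, h1, _⟩ := good_time hTTR hP hL hg hk hF hW ht0 ht0T
  obtain ⟨C, hC⟩ := ((Pool.Agent.Q257.DT.t_TSM K L g k (T - s) EF M m (sh s F) (sh s W) h hP.one_le hL
    hg hk (by linarith) (hF.sh hs0.le) (hW.sol.sh hs0.le) h1).2 hh).1 q (t0 - s) hq hq1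
    (by linarith) (by linarith)
  refine ⟨C, fun w t ht => ?_⟩
  have := hC w (t - s) ⟨by linarith [ht.1], by linarith [ht.2]⟩
  simpa [sh] using this

/-- Uniqueness for data tending to zero. -/
theorem LH.unique (hTTR : P_TTR) (hP : Par K L g) (hL : 1 < L) (hg : 1 ≤ g) (hk : 0 < k)
    (hT : 0 < T) (hF : Frc L g T EF F h) (hV : LH L g k T F V) (hW : LH L g k T F W)
    (heq : ∀ w, V w 0 = W w 0) (hDt : Dt (fun w => W w 0)) :
    ∀ w, ∀ t ∈ Icc 0 T, V w t = W w t := by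
  obtain ⟨E, hE⟩ := hW.en
  obtain ⟨D, hD⟩ := hW.dis
  obtain ⟨E1, hE1⟩ := hV.en
  obtain ⟨D1, hD1⟩ := hV.dis
  have h0I : (0:ℝ) ∈ Icc 0 T := ⟨le_rfl, hT.le⟩
  obtain ⟨Z, M, m, E', hZ, hZ0, hRC, hZ1, hZ2, hTl⟩ := strong hTTR hP hL hg hk hT hF hDt (E0 := E)
    (fun N => hE N 0 h0I)
  have h1 := Pool.Agent.Q257.DT.t_TWS K L g k T EF M (max E' (max E D)) F Z W h
    hP.one_le hL hg hk hT hF hZ hW.sol hZ0 hRC.bd hTl
    (fun N t ht => (hZ1 N t ht).trans (le_max_left _ _))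
    (fun N => (hZ2 N).trans (le_max_left _ _))
    (fun N t ht => ((hE N t ht).trans (le_max_left _ _)).trans (le_max_right _ _))
    (fun N => ((hD N).trans (le_max_right _ _)).trans (le_max_right _ _)) hW.zero
  have h2 := Pool.Agent.Q257.DT.t_TWS K L g k T EF M (max E' (max E1 D1)) F Z V h
    hP.one_le hL hg hk hT hF hZ hV.sol (fun w => by rw [hZ0, heq]) hRC.bd hTl
    (fun N t ht => (hZ1 N t ht).trans (le_max_left _ _))
    (fun N => (hZ2 N).trans (le_max_left _ _))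
    (fun N t ht => ((hE1 N t ht).trans (le_max_left _ _)).trans (le_max_right _ _))
    (fun N => ((hD1 N).trans (le_max_right _ _)).trans (le_max_right _ _)) hV.zero
  intro w t ht
  rw [← h1 w t ht, ← h2 w t ht]

/-- Smoothness up to time zero. -/
theorem LH.smooth0 (hTTR : P_TTR) (hP : Par K L g) (hL : 1 < L) (hg : 1 ≤ g) (hk : 0 < k)
    (hT : 0 < T) (hF : Frc L g T EF F h) (hW : LH L g k T F W)
    (hh : ∀ q : ℝ, 0 < q → q < 1 → ∃ C : ℝ, ∀ n, h n ≤ C * q ^ n)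
    (hdat : ∀ q : ℝ, 0 < q → q < 1 → ∃ C : ℝ, ∀ w, |W w 0| ≤ C * q ^ w.length) {q : ℝ}
    (hq : 0 < q) (hq1 : q < 1) :
    ∃ C : ℝ, ∀ w, ∀ t ∈ Icc 0 T, |W w t| ≤ C * q ^ w.length := by
  have hDt : Dt (fun w => W w 0) := by
    intro ε hε
    obtain ⟨C, hC⟩ := hdat (1/2) (by norm_num) (by norm_num)
    have h1 : Tendsto (fun n : ℕ => C * (1/2:ℝ)^n) atTop (𝓝 (C * 0)) :=
      (tendsto_pow_atTop_nhds_zero_of_lt_one (by norm_num) (by norm_num)).const_mul C
    rw [mul_zero] at h1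
    obtain ⟨m, hm⟩ := eventually_atTop.1 (h1.eventually (gt_mem_nhds hε))
    exact ⟨m, fun w hw => (hC w).trans (hm _ hw).le⟩
  obtain ⟨M, m, h1, _⟩ := from_time hTTR hP hL hg hk hF hW le_rfl hT
    (fun t ht => hW.zero t ht) hDt
  have h2 := h1.bd
  have hRC : RC g k T M m W := by
    have e : sh 0 W = W := by funext w t; simp [sh]
    have e2 : T - 0 = T := sub_zero T
    rw [e, e2] at h1
    exact h1
  exact ((Pool.Agent.Q257.DT.t_TSM K L g k T EF M m F W h hP.one_le hL hg hk hT hF hW.sol hRC).2 hh).2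
    hdat q hq hq1

/-- Nonnegative solutions are Leray-Hopf solutions. -/
theorem nonneg_LH (hK : 1 ≤ K) (hL : 1 < L) (hg : 1 ≤ g) (hk : 0 < k)
    (hT : 0 < T) (hF : Frc L g T EF F h) (hV : Sol L g k T F V)
    (hV0 : ∀ w, ∀ t ∈ Icc 0 T, 0 ≤ V w t) (hE0 : ∀ N, PE L g V N 0 ≤ E0) : LH L g k T F V := by
  have hσ := sg_pos hK hg hk
  obtain ⟨E, hE1, hE2⟩ := Pool.Agent.Q58.DT.tfe K L g k T EF E0 0 F V h hK hL.le hg hk hT hF hV
    (fun w _ t ht => by linarith [hV0 w t ht]) hE0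
  have hEI : ∀ s t : ℝ, 0 ≤ s → s ≤ t → t ≤ T → EI g V s t := by
    intro s t hs hst htT ε hε
    refine Eventually.of_forall fun N => ?_
    have : 0 ≤ ∫ r in s..t, fl g V N r := by
      apply intervalIntegral.integral_nonneg hst
      intro r hr
      have hrI : r ∈ Icc 0 T := ⟨hs.trans hr.1, hr.2.trans htT⟩
      unfold fl
      have hg0 : 0 < g := by linarith
      apply mul_nonneg (by positivity)
      apply Finset.sum_nonneg
      intro w _
      apply mul_nonneg (sq_nonneg _)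
      exact Finset.sum_nonneg fun i _ => hV0 (i :: w) r hrI
    linarith
  exact ⟨hV, ⟨E, hE1⟩, ⟨E, hE2⟩, fun t ht => hEI 0 t le_rfl ht.1 ht.2,
    Eventually.of_forall fun s hs t ht => hEI s t hs.1 ht.1 ht.2⟩

/-- Uniqueness of nonnegative solutions for all data of finite energy. -/
theorem nonneg_unique (hTTR : P_TTR) (hP : Par K L g) (hL : 1 < L) (hg : 1 ≤ g) (hk : 0 < k)
    (hT : 0 < T) (hF : Frc L g T EF F h) (hV : Sol L g k T F V) (hW : Sol L g k T F W)
    (hV0 : ∀ w, ∀ t ∈ Icc 0 T, 0 ≤ V w t) (hW0 : ∀ w, ∀ t ∈ Icc 0 T, 0 ≤ W w t)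
    (hE0 : ∀ N, PE L g V N 0 ≤ E0) (heq : ∀ w, V w 0 = W w 0) :
    ∀ w, ∀ t ∈ Icc 0 T, V w t = W w t := by
  have hK := hP.one_le
  have hg0 : 0 < g := by linarith
  have hL0 : 0 < L := by linarith
  have hVL := nonneg_LH hK hL hg hk hT hF hV hV0 hE0
  have hWL := nonneg_LH hK hL hg hk hT hF hW hW0 (E0 := E0) (fun N => by
    have : PE L g W N 0 = PE L g V N 0 := by unfold PE; simp only [heq]
    rw [this]; exact hE0 N)
  obtain ⟨E1, hE1⟩ := hVL.en
  obtain ⟨E2, hE2⟩ := hWL.en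
  obtain ⟨D1, hD1⟩ := hVL.dis
  obtain ⟨D2, hD2⟩ := hWL.dis
  intro w t ht
  rcases ht.1.eq_or_lt with rfl | htpos
  · exact heq w
  have hE1n : 0 ≤ E1 := by
    refine le_trans ?_ (hE1 0 t ht)
    exact Pool.Agent.Q58.DT.PE_nonneg hL0.le hg0.le V 0 t
  have hE2n : 0 ≤ E2 := by
    refine le_trans ?_ (hE2 0 t ht)
    exact Pool.Agent.Q58.DT.PE_nonneg hL0.le hg0.le W 0 t
  set ρ : ℝ := g / (2 * L) with hρ
  have hρ0 : 0 < ρ := by positivity
  have hkey : ∀ ε : ℝ, 0 < ε → ρ ^ w.length * (V w t - W w t) ^ 2 ≤ ε := by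
    intro ε hε
    obtain ⟨N1, hN1⟩ := exists_pow_lt_of_lt_one (show 0 < ε / (2 * (2 * E1 + 2 * E2 + 1)) by positivity)
      (show (1:ℝ) / 2 < 1 by norm_num)
    have h0I : (0:ℝ) ∈ Icc 0 T := ⟨le_rfl, hT.le⟩
    -- continuity of the head at time zero
    have hhead : Tendsto (fun s => sm N1 fun w => ρ ^ w.length * (V w s - W w s) ^ 2)
        (𝓝[Icc 0 T] 0) (𝓝 0) := by
      have : Tendsto (fun s => sm N1 fun w => ρ ^ w.length * (V w s - W w s) ^ 2)
          (𝓝[Icc 0 T] 0) (𝓝 (sm N1 fun w => ρ ^ w.length * (V w 0 - W w 0) ^ 2)) := by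
        unfold sm
        apply tendsto_finsetSum
        intro n _
        apply tendsto_finsetSum
        intro u _
        have c1 : Tendsto (V u) (𝓝[Icc 0 T] 0) (𝓝 (V u 0)) := cont_of_sol hV u 0 h0I
        have c2 : Tendsto (W u) (𝓝[Icc 0 T] 0) (𝓝 (W u 0)) := cont_of_sol hW u 0 h0I
        exact ((c1.sub c2).pow 2).const_mul _
      simpa [heq, sm] using this
    have hev := hhead.eventually (gt_mem_nhds (show (0:ℝ) < ε / 2 by positivity))
    have hsub : 𝓝[>] (0:ℝ) ≤ 𝓝[Icc 0 T] 0 := by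
      rw [nhdsWithin_le_iff]
      have h2 : Iio T ∈ 𝓝[>] (0:ℝ) := nhdsWithin_le_nhds (Iio_mem_nhds hT)
      filter_upwards [h2, self_mem_nhdsWithin] with r hr1 hr2
      exact ⟨le_of_lt hr2, le_of_lt hr1⟩
    have hev2 : ∀ᶠ s in 𝓝[>] (0:ℝ), (sm N1 fun w => ρ ^ w.length * (V w s - W w s) ^ 2) < ε / 2 :=
      hsub hev
    have hev3 : ∀ᶠ s in 𝓝[>] (0:ℝ), s < t := nhdsWithin_le_nhds (gt_mem_nhds htpos)
    obtain ⟨s, hs1, hs2, hs3⟩ := (hev2.and (hev3.and self_mem_nhdsWithin)).exists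
    have hs0 : (0:ℝ) < s := hs3
    have hs1' : (sm N1 fun w => ρ ^ w.length * (V w s - W w s) ^ 2) < ε / 2 := hs1
    have hsT : s < T := lt_of_lt_of_le hs2 ht.2
    have hsI : s ∈ Icc 0 T := ⟨hs0.le, hsT.le⟩
    have hB : ∀ N, (sm N fun w => ρ ^ w.length * (V w s - W w s) ^ 2) ≤ ε := by
      intro N
      have hterm : ∀ u : Nd K, ρ ^ u.length * (V u s - W u s) ^ 2 ≤
          (if u.length ≤ N1 then ρ ^ u.length * (V u s - W u s) ^ 2 else 0)
          + (1/2) ^ N1 * (2 * ((g / L) ^ u.length * V u s ^ 2)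
            + 2 * ((g / L) ^ u.length * W u s ^ 2)) := by
        intro u
        have e : ρ ^ u.length = (1/2) ^ u.length * (g / L) ^ u.length := by
          rw [← mul_pow, hρ]; congr 1; field_simp
        have h3 : 0 ≤ (g / L) ^ u.length := by positivity
        split_ifs with hu
        · have : 0 ≤ (1/2:ℝ) ^ N1 * (2 * ((g / L) ^ u.length * V u s ^ 2)
            + 2 * ((g / L) ^ u.length * W u s ^ 2)) := by positivity
          linarith
        · have h1 : ((1:ℝ)/2) ^ u.length ≤ (1/2) ^ N1 :=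
            pow_le_pow_of_le_one (by norm_num) (by norm_num) (by omega)
          have h2 : (V u s - W u s) ^ 2 ≤ 2 * V u s ^ 2 + 2 * W u s ^ 2 := by
            nlinarith [sq_nonneg (V u s + W u s)]
          rw [e, zero_add]
          calc (1/2) ^ u.length * (g / L) ^ u.length * (V u s - W u s) ^ 2
              ≤ (1/2) ^ N1 * (g / L) ^ u.length * (2 * V u s ^ 2 + 2 * W u s ^ 2) := by
                gcongr
            _ = _ := by ring
      have h1 := Pool.Agent.Q58.DT.sm_le_sm (N := N) (fun u _ => hterm u)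
      rw [Pool.Agent.Q58.DT.sm_add, Pool.Agent.Q58.DT.sm_mul, Pool.Agent.Q58.DT.sm_add,
        Pool.Agent.Q58.DT.sm_mul, Pool.Agent.Q58.DT.sm_mul] at h1
      have h2 : (sm N fun u : Nd K => if u.length ≤ N1 then ρ ^ u.length * (V u s - W u s) ^ 2
          else 0) ≤ sm N1 fun w => ρ ^ w.length * (V w s - W w s) ^ 2 := by
        rcases le_total N N1 with hN | hN
        · refine le_trans (Pool.Agent.Q58.DT.sm_le_sm
            (f' := fun w => ρ ^ w.length * (V w s - W w s) ^ 2) (fun u hu => ?_))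
            (Pool.Agent.Q58.DT.sm_mono hN (fun u => by positivity))
          split_ifs
          · exact le_rfl
          · positivity
        · have e1 : (sm N fun u : Nd K => if u.length ≤ N1 then
              ρ ^ u.length * (V u s - W u s) ^ 2 else 0) =
              sm N1 fun u : Nd K => if u.length ≤ N1 then
              ρ ^ u.length * (V u s - W u s) ^ 2 else 0 := by
            unfold sm
            symm
            apply Finset.sum_subset
            · intro n hn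
              simp only [Finset.mem_range] at hn ⊢
              omega
            · intro n _ hn2
              apply Finset.sum_eq_zero
              intro u hu
              rw [(mem_lev _ _).1 hu]
              simp only [Finset.mem_range] at hn2
              rw [if_neg (by omega)]
          rw [e1]
          refine Pool.Agent.Q58.DT.sm_le_sm (fun u hu => ?_)
          rw [if_pos hu]
      have h3 : sm N (fun u => (g / L) ^ u.length * V u s ^ 2) ≤ E1 := hE1 N s hsI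
      have h4 : sm N (fun u => (g / L) ^ u.length * W u s ^ 2) ≤ E2 := hE2 N s hsI
      have h5 : (1/2:ℝ) ^ N1 * (2 * sm N (fun u => (g / L) ^ u.length * V u s ^ 2)
          + 2 * sm N (fun u => (g / L) ^ u.length * W u s ^ 2)) ≤ ε / 2 := by
        calc (1/2:ℝ) ^ N1 * (2 * sm N (fun u => (g / L) ^ u.length * V u s ^ 2)
          + 2 * sm N (fun u => (g / L) ^ u.length * W u s ^ 2))
            ≤ (1/2:ℝ) ^ N1 * (2 * E1 + 2 * E2 + 1) := by
              apply mul_le_mul_of_nonneg_left _ (by positivity)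
              linarith
          _ ≤ ε / (2 * (2 * E1 + 2 * E2 + 1)) * (2 * E1 + 2 * E2 + 1) := by
              apply mul_le_mul_of_nonneg_right hN1.le (by positivity)
          _ = ε / 2 := by field_simp
      linarith
    -- stability from time s
    obtain ⟨_, M, hM⟩ := hVL.reg hTTR hP hL hg hk hF hs0 hsT.le
    have hst : ∀ r ∈ Icc 0 (T - s), s + r ∈ Icc 0 T := fun r hr =>
      ⟨by linarith [hr.1], by linarith [hr.2]⟩
    have h1 := Pool.Agent.Q208.DT.t_TUNI Pool.Agent.Q58.DT.ten K L g k (T - s) M (max D1 D2) ε (sh s F)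
      (sh s V) (sh s W) hL.le hg hk (by linarith) (hF.sh hs0.le).cont (hV.sh hs0.le)
      (hW.sh hs0.le) (fun w r hr => hV0 w _ (hst r hr)) (fun w r hr => hW0 w _ (hst r hr))
      (fun w r hr => (le_abs_self _).trans
        (hM w (s + r) ⟨by linarith [hr.1], by linarith [hr.2]⟩))
      (fun N => (int_PD_sh hg0 (cont_of_sol hV) hs0.le hsT.le hD1 N).trans (le_max_left _ _))
      (fun N => (int_PD_sh hg0 (cont_of_sol hW) hs0.le hsT.le hD2 N).trans (le_max_right _ _))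
      (by simpa [sh] using hB) w.length (t - s) ⟨by linarith, by linarith [ht.2]⟩
    have e : s + (t - s) = t := by ring
    simp only [sh, e] at h1
    refine le_trans ?_ h1
    exact term_le_sm (f := fun u => (g / (2 * L)) ^ u.length * (V u t - W u t) ^ 2)
      (fun u => by positivity) le_rfl
  have h3 : ρ ^ w.length * (V w t - W w t) ^ 2 ≤ 0 :=
    le_of_forall_pos_le_add (fun ε hε => by have := hkey ε hε; linarith)
  have h4 : 0 < ρ ^ w.length := by positivity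
  have h5 : (V w t - W w t) ^ 2 ≤ 0 := by
    by_contra hh
    push Not at hh
    have := mul_pos h4 hh
    linarith
  have h6 : V w t - W w t = 0 := by
    have := sq_nonneg (V w t - W w t)
    exact pow_eq_zero_iff (n := 2) (by norm_num) |>.1 (le_antisymm h5 this)
  linarith

end

end Pool.Agent.Q186.DT
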