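import Pool.Agent.Q186.DT.BarM

/-!
# Project DT: the barriers of the shell model in the original scale, signed version
-/

namespace Pool.Agent.Q186.DT

open Pool.Agent.Q186.DY

noncomputable section

theorem LBn {γ k μ ρ Y Z W X : ℝ} (hγ : 1 ≤ γ) (hk : 0 < k) (hμ : 0 < μ)
    (hkμ : k ≤ 2 * μ) (hY0 : 0 ≤ Y) (hY1 : Y ≤ μ) (hZ : 0 ≤ Z) (hW0 : 0 ≤ W) (hW1 : W ≤ μ)
    (hW : W ≤ 19/40*μ + 21/40*Z + 3/50*k + 53/1000*(γ-1)*μ)
    (heq : μ*(γ*Z + 97/100*k) = 109/100*Y^2 - 9/100*μ^2)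
    (hX0 : 0 ≤ X) (hρ0 : μ ≤ ρ) (hρ1 : ρ ≤ μ + k/100) (hX1 : X ≤ ρ)
    (hX2 : 109/100*X^2 ≤ ρ*(γ*Y + 97/100*k) + 9/100*ρ^2) :
    109/50*Y*(X^2 - Y*(γ*Z+k)) + 9/1000*(k*μ^2) ≤ 4*(γ*(μ*(Y^2 - Z*(γ*W+k)))) ∧
      1/500*(k*μ^2) ≤ γ*(μ*(Y^2 - Z*(γ*W+k))) := by
  obtain ⟨y, hy⟩ : ∃ y, y = Y/μ := ⟨_, rfl⟩
  obtain ⟨z, hz⟩ : ∃ z, z = Z/μ := ⟨_, rfl⟩
  obtain ⟨w, hw⟩ : ∃ w, w = W/μ := ⟨_, rfl⟩
  obtain ⟨x, hx⟩ : ∃ x, x = X/μ := ⟨_, rfl⟩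
  obtain ⟨κ, hκ⟩ : ∃ κ, κ = k/μ := ⟨_, rfl⟩
  obtain ⟨r, hr⟩ : ∃ r, r = ρ/μ := ⟨_, rfl⟩
  have hY : Y = μ*y := by rw [hy]; field_simp
  have hZ' : Z = μ*z := by rw [hz]; field_simp
  have hW' : W = μ*w := by rw [hw]; field_simp
  have hX' : X = μ*x := by rw [hx]; field_simp
  have hk' : k = μ*κ := by rw [hκ]; field_simp
  have hr' : ρ = μ*r := by rw [hr]; field_simp
  have hy0 : 0 ≤ y := by rw [hy]; positivity
  have hz0 : 0 ≤ z := by rw [hz]; positivity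
  have hw0 : 0 ≤ w := by rw [hw]; positivity
  have hx0 : 0 ≤ x := by rw [hx]; positivity
  have hκ0 : 0 < κ := by rw [hκ]; positivity
  have hy1 : y ≤ 1 := by rw [hy]; exact (div_le_one hμ).2 hY1
  have hw1 : w ≤ 1 := by rw [hw]; exact (div_le_one hμ).2 hW1
  have hκ2 : κ ≤ 2 := by rw [hκ]; exact (div_le_iff₀ hμ).2 hkμ
  have hr0 : 1 ≤ r := by rw [hr]; exact (one_le_div hμ).2 hρ0
  have hr1 : r ≤ 1 + κ/100 := by
    rw [hr, div_le_iff₀ hμ]; rw [hk'] at hρ1; linarith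
  have hxr : x ≤ r := by rw [hx, hr]; exact div_le_div_of_nonneg_right hX1 hμ.le
  rw [hY, hZ', hW', hX', hk']
  have hw2 : w ≤ 19/40 + 21/40*z + 3/50*κ + 53/1000*(γ-1) := by
    rw [hW', hZ', hk'] at hW
    have : μ*w ≤ μ*(19/40 + 21/40*z + 3/50*κ + 53/1000*(γ-1)) := by linarith
    exact le_of_mul_le_mul_left this hμ
  have heq2 : γ*z + 97/100*κ = 109/100*y^2 - 9/100 := by
    rw [hY, hZ', hk'] at heq
    have : μ^2*(γ*z + 97/100*κ) = μ^2*(109/100*y^2 - 9/100) := by linarith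
    exact mul_left_cancel₀ (by positivity) this
  have hr2 : r^2 ≤ 1 + 3/100*κ := by nlinarith
  have hx2 : x^2 ≤ r^2 := pow_le_pow_left₀ hx0 hxr 2
  have hxb : 109/100*x^2 ≤ r*(γ*y + 97/100*κ) + 9/100*r^2 := by
    rw [hX', hr', hY, hk'] at hX2
    have : μ^2*(109/100*x^2) ≤ μ^2*(r*(γ*y + 97/100*κ) + 9/100*r^2) := by linarith
    exact le_of_mul_le_mul_left this (by positivity)
  have key := LBm (x2 := x^2) hγ hκ0 hy0 hy1 hz0 hw0 hw1 hw2 heq2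
    (by linarith) (by
      intro hle
      have h0 : 0 ≤ γ*y + 97/100*κ := by positivity
      have h1 : r*(γ*y + 97/100*κ) ≤ r^2*(γ*y + 97/100*κ) := by
        apply mul_le_mul_of_nonneg_right _ h0
        nlinarith
      have h2 : (r^2-1)*(γ*y + 97/100*κ) ≤ (3/100*κ)*1 := by
        apply mul_le_mul (by linarith) hle h0 (by positivity)
      nlinarith)
  have h3 : 0 ≤ μ^3 := by positivity
  have h4 := mul_le_mul_of_nonneg_left key.1 h3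
  have h5 := mul_le_mul_of_nonneg_left key.2 h3
  constructor
  · calc 109/50*(μ*y)*((μ*x)^2 - μ*y*(γ*(μ*z)+μ*κ)) + 9/1000*(μ*κ*μ^2)
      = μ^3*(109/50*y*(x^2 - y*(γ*z+κ)) + 9/1000*κ) := by ring
    _ ≤ μ^3*(4*(γ*(y^2 - z*(γ*w+κ)))) := h4
    _ = _ := by ring
  · calc 1/500*(μ*κ*μ^2) = μ^3*(κ/500) := by ring
    _ ≤ μ^3*(γ*(y^2 - z*(γ*w+κ))) := h5
    _ = _ := by ring

/-- The lower barrier, signed version. -/
theorem LBs {γ k μ ρ σ Y Z W X L H1 H2 : ℝ} (hL : 4 ≤ L) (hγ : 1 ≤ γ) (hk : 0 < k) (hμ : 0 < μ)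
    (hkμ : k ≤ 2 * μ) (hY0 : 0 ≤ Y) (hY1 : Y ≤ μ) (hZ : -σ ≤ Z) (hσ : γ*σ ≤ k/3000)
    (hW0 : -σ ≤ W) (hW1 : W ≤ μ)
    (hW : W ≤ 19/40*μ + 21/40*Z + 3/50*k + 53/1000*(γ-1)*μ)
    (heq : μ*(γ*Z + 97/100*k) = 109/100*Y^2 - 9/100*μ^2)
    (hρ0 : μ ≤ ρ) (hρ1 : ρ ≤ μ + k/200) (hX1 : |X| ≤ ρ)
    (hX2 : 109/100*X^2 ≤ ρ*(γ*Y + 97/100*k) + 9/100*ρ^2)
    (hH1 : γ*H1 ≤ k^2/6000) (hH2 : H2 ≤ k^2/6000) :
    109/50*Y*(X^2 - Y*(γ*Z+k) + H2) < L*(γ*(μ*(Y^2 - Z*(γ*W+k) - H1))) := by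
  have hkm : 0 < k*μ^2 := by positivity
  have hγ0 : 0 < γ := by linarith
  have hA1 : γ*(μ*H1) ≤ 1/3000*(k*μ^2) := by
    have h1 : μ*(γ*H1) ≤ μ*(k^2/6000) := mul_le_mul_of_nonneg_left hH1 hμ.le
    have h2 : k*(μ*k) ≤ 2*μ*(μ*k) := mul_le_mul_of_nonneg_right hkμ (by positivity)
    nlinarith
  have hA2 : 109/50*(Y*H2) ≤ 1/1000*(k*μ^2) := by
    have h1 : Y*H2 ≤ μ*(k^2/6000) := by
      calc Y*H2 ≤ Y*(k^2/6000) := mul_le_mul_of_nonneg_left hH2 hY0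
        _ ≤ _ := mul_le_mul_of_nonneg_right hY1 (by positivity)
    have h2 : k*(μ*k) ≤ 2*μ*(μ*k) := mul_le_mul_of_nonneg_right hkμ (by positivity)
    nlinarith
  -- it suffices to have the margins for a smaller bracket
  suffices Hs : ∃ B : ℝ, B ≤ γ*(μ*(Y^2 - Z*(γ*W+k))) ∧
      109/50*Y*(X^2 - Y*(γ*Z+k)) + 8/1000*(k*μ^2) ≤ 4*B ∧ 1/1000*(k*μ^2) ≤ B by
    obtain ⟨B, hB1, hB2, hB3⟩ := Hs
    have h1 : 0 ≤ B - γ*(μ*H1) := by linarith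
    have h2 : 4*(B - γ*(μ*H1)) ≤ L*(B - γ*(μ*H1)) := mul_le_mul_of_nonneg_right hL h1
    have h3 : L*(B - γ*(μ*H1)) ≤ L*(γ*(μ*(Y^2 - Z*(γ*W+k))) - γ*(μ*H1)) :=
      mul_le_mul_of_nonneg_left (by linarith) (by linarith)
    have e : L*(γ*(μ*(Y^2 - Z*(γ*W+k))) - γ*(μ*H1)) = L*(γ*(μ*(Y^2 - Z*(γ*W+k) - H1))) := by
      ring
    rw [e] at h3
    have e2 : 109/50*Y*(X^2 - Y*(γ*Z+k) + H2) = 109/50*Y*(X^2 - Y*(γ*Z+k)) + 109/50*(Y*H2) := by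
      ring
    rw [e2]
    linarith
  have hXX : |X|^2 = X^2 := sq_abs X
  rcases le_or_gt 0 Z with hZ0 | hZ0
  · have hσW : γ*W + k ≤ γ*(max W 0) + k := by
      have := mul_le_mul_of_nonneg_left (le_max_left W 0) hγ0.le
      linarith
    have key := LBn (X := |X|) (W := max W 0) (ρ := ρ) hγ hk hμ hkμ hY0 hY1 hZ0 (le_max_right _ _)
      (max_le hW1 hμ.le) (max_le hW (by
        have : 0 ≤ 53/1000*(γ-1)*μ := by
          apply mul_nonneg (by linarith) hμ.le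
        linarith)) heq (abs_nonneg X) hρ0 (by linarith) hX1 (by rw [hXX]; exact hX2)
    rw [hXX] at key
    refine ⟨_, ?_, le_trans ?_ key.1, le_trans ?_ key.2⟩
    · apply mul_le_mul_of_nonneg_left _ hγ0.le
      apply mul_le_mul_of_nonneg_left _ hμ.le
      have := mul_le_mul_of_nonneg_left hσW hZ0
      linarith
    · linarith
    · linarith
  · -- Z negative
    obtain ⟨k', hk'⟩ : ∃ k' : ℝ, k' = k + 100/97*(γ*Z) := ⟨_, rfl⟩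
    have hγZ : -(k/3000) ≤ γ*Z := by
      have := mul_le_mul_of_nonneg_left hZ hγ0.le
      linarith
    have hγZ0 : γ*Z < 0 := mul_neg_of_pos_of_neg hγ0 hZ0
    have hk1 : 999/1000*k ≤ k' := by rw [hk']; linarith
    have hk2 : k' ≤ k + γ*Z := by rw [hk']; linarith
    have hρpos : 0 < ρ := by linarith
    have key := LBn (γ := γ) (k := k') (μ := μ) (ρ := ρ + k/250) (Y := Y) (Z := 0) (W := 0)
      (X := |X|) hγ (by linarith) hμ (by linarith) hY0 hY1 le_rfl le_rfl hμ.le (by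
        have : 0 ≤ 53/1000*(γ-1)*μ := by
          apply mul_nonneg (by linarith) hμ.le
        linarith) (by rw [hk']; linarith) (abs_nonneg X) (by linarith) (by linarith)
        (by linarith) (by
          rw [hXX]
          refine hX2.trans ?_
          have h1 : 97/100*k' = 97/100*k + γ*Z := by rw [hk']; ring
          rw [h1]
          have h2 : 0 ≤ γ*Y := by positivity
          have h3 : ρ*(-(k/3000)) ≤ ρ*(γ*Z) := mul_le_mul_of_nonneg_left hγZ hρpos.le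
          have h4 : 0 < ρ*k := by positivity
          nlinarith)
    rw [hXX] at key
    have e1 : γ*(μ*(Y^2 - 0*(γ*0+k'))) = γ*(μ*Y^2) := by ring
    rw [e1] at key
    refine ⟨γ*(μ*Y^2), ?_, ?_, ?_⟩
    · apply mul_le_mul_of_nonneg_left _ hγ0.le
      apply mul_le_mul_of_nonneg_left _ hμ.le
      have h1 : 0 ≤ γ*W + k := by
        have := mul_le_mul_of_nonneg_left hW0 hγ0.le
        linarith
      have := mul_nonneg (neg_nonneg.2 hZ0.le) h1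
      linarith
    · refine le_trans ?_ key.1
      have h1 : 109/50*Y*(X^2 - Y*(γ*Z+k)) ≤ 109/50*Y*(X^2 - Y*(γ*0+k')) := by
        apply mul_le_mul_of_nonneg_left _ (by positivity)
        have := mul_le_mul_of_nonneg_left hk2 hY0
        linarith
      have h2 : 8/1000*(k*μ^2) ≤ 9/1000*(k'*μ^2) := by
        have : 999/1000*k*μ^2 ≤ k'*μ^2 := mul_le_mul_of_nonneg_right hk1 (by positivity)
        linarith
      linarith
    · refine le_trans ?_ key.2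
      have : 999/1000*k*μ^2 ≤ k'*μ^2 := mul_le_mul_of_nonneg_right hk1 (by positivity)
      linarith

/-- The upper barrier, signed version. -/
theorem UBs {γ k μ ρ m Y Z W X L H1 H2 : ℝ} (hL : 4 ≤ L) (hγ : 1 ≤ γ) (hk : 0 < k) (hμ : 0 < μ)
    (hkμ : k ≤ 2 * μ)
    (hY0 : 0 ≤ Y) (hZ0 : 0 ≤ Z) (hZ1 : Z ≤ μ) (hm : 0 < m) (hmμ : m ≤ μ)
    (heq : Z = 19/40*μ + 21/40*Y + 3/50*k + 53/1000*(γ-1)*μ)
    (hW : 109/100*Z^2 ≤ m*(γ*W + 97/100*k) + 9/100*m^2)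
    (hρ0 : μ ≤ ρ) (hρ1 : ρ ≤ μ + k/100)
    (hX : Y ≤ 19/40*ρ + 21/40*X + 3/50*k + 53/1000*(γ-1)*ρ)
    (hH1 : H1 ≤ k^2/6000) (hH2 : H2 ≤ k^2/6000) :
    L*(Y^2 - Z*(γ*W+k) + H1) < 21/40*(X^2 - Y*(γ*Z+k) - H2) := by
  obtain ⟨y, hy⟩ : ∃ y, y = Y/μ := ⟨_, rfl⟩
  obtain ⟨z, hz⟩ : ∃ z, z = Z/μ := ⟨_, rfl⟩
  obtain ⟨x, hx⟩ : ∃ x, x = |X|/μ := ⟨_, rfl⟩
  obtain ⟨κ, hκ⟩ : ∃ κ, κ = k/μ := ⟨_, rfl⟩
  obtain ⟨pn, hpn⟩ : ∃ pn, pn = (γ*W+k)/μ := ⟨_, rfl⟩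
  have hY : Y = μ*y := by rw [hy]; field_simp
  have hZ' : Z = μ*z := by rw [hz]; field_simp
  have hX' : |X| = μ*x := by rw [hx]; field_simp
  have hk' : k = μ*κ := by rw [hκ]; field_simp
  have hp' : γ*W+k = μ*pn := by rw [hpn]; field_simp
  have hy0 : 0 ≤ y := by rw [hy]; positivity
  have hz0 : 0 ≤ z := by rw [hz]; positivity
  have hx0 : 0 ≤ x := by rw [hx]; positivity
  have hκ0 : 0 < κ := by rw [hκ]; positivity
  have hz1 : z ≤ 1 := by rw [hz]; exact (div_le_one hμ).2 hZ1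
  have heq2 : z = 19/40 + 21/40*y + 3/50*κ + 53/1000*(γ-1) := by
    rw [hY, hZ', hk'] at heq
    have : μ*z = μ*(19/40 + 21/40*y + 3/50*κ + 53/1000*(γ-1)) := by linarith
    exact mul_left_cancel₀ hμ.ne' this
  have hpl : 109/100*z^2 - 9/100 + 3/100*κ ≤ pn := by
    have h1 : 109/100*Z^2/m - 9/100*m ≤ γ*W + 97/100*k := by
      rw [sub_le_iff_le_add, div_le_iff₀ hm]; nlinarith
    have h2 : 109/100*Z^2/μ ≤ 109/100*Z^2/m := by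
      apply div_le_div_of_nonneg_left (by positivity) hm hmμ
    have h3 : μ*(109/100*z^2 - 9/100 + 3/100*κ) ≤ μ*pn := by
      rw [← hp']
      have h4 : 109/100*Z^2/μ = μ*(109/100*z^2) := by rw [hZ']; field_simp
      have h5 : μ*κ = k := hk'.symm
      rw [h4] at h2
      nlinarith
    exact le_of_mul_le_mul_left h3 hμ
  have hxl : y ≤ 19/40 + 53/1000*(γ-1) + 7/100*κ + 21/40*x := by
    have h1 : 19/40 + 53/1000*(γ-1) ≤ 1 := by nlinarith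
    have h2 : (19/40 + 53/1000*(γ-1))*ρ ≤ (19/40 + 53/1000*(γ-1))*μ + k/100 := by
      have h3 : 0 ≤ 19/40 + 53/1000*(γ-1) := by linarith
      have h4 : (19/40 + 53/1000*(γ-1))*(ρ-μ) ≤ 1*(k/100) :=
        mul_le_mul h1 (by linarith) (by linarith) (by norm_num)
      linarith
    have h5 : μ*y ≤ μ*(19/40 + 53/1000*(γ-1) + 7/100*κ + 21/40*x) := by
      rw [← hY]
      have h6 : μ*κ = k := hk'.symm
      have h7 : X ≤ μ*x := by rw [← hX']; exact le_abs_self X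
      nlinarith
    exact le_of_mul_le_mul_left h5 hμ
  have key := UBm (x := x) hγ hκ0 hy0 hz1 hz0 heq2 hpl hx0 hxl
  have h3 : 0 ≤ μ^2 := by positivity
  have k1 := mul_le_mul_of_nonneg_left key.1 h3
  have k2 := mul_le_mul_of_nonneg_left key.2 h3
  have hXX : X^2 = (μ*x)^2 := by rw [← hX', sq_abs]
  have e1 : μ^2*(4*(y^2 - z*pn) + κ/200) = 4*(Y^2 - Z*(γ*W+k)) + 1/200*(k*μ) := by
    rw [hp', hY, hZ', hk']; ring
  have e2 : μ^2*(21/40*(x^2 - y*(γ*z+κ))) = 21/40*(X^2 - Y*(γ*Z+k)) := by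
    rw [hXX, hY, hZ', hk']; ring
  have e3 : μ^2*(κ/20) = 1/20*(k*μ) := by rw [hk']; ring
  have e4 : μ^2*(z*pn - y^2) = Z*(γ*W+k) - Y^2 := by rw [hp', hY, hZ']; ring
  rw [e1, e2] at k1
  rw [e3, e4] at k2
  have hkk : k^2/6000 ≤ 1/3000*(k*μ) := by nlinarith
  have hkμ0 : 0 < k*μ := by positivity
  have h5 : 0 ≤ Z*(γ*W+k) - Y^2 - H1 := by linarith
  have h6 : 4*(Z*(γ*W+k) - Y^2 - H1) ≤ L*(Z*(γ*W+k) - Y^2 - H1) :=
    mul_le_mul_of_nonneg_right hL h5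
  nlinarith

/-- The upper barrier for a slightly negative value. -/
theorem UBneg {γ k μ m σ Y Z W X L H1 H2 : ℝ} (hL : 4 ≤ L) (hγ : 1 ≤ γ) (hk : 0 < k)
    (hμ : 0 < μ) (hkμ : k ≤ 2 * μ)
    (hY0 : Y ≤ 0) (hYσ : -σ ≤ Y) (hσ : σ ≤ k/3000) (hσ0 : 0 ≤ σ) (hm : k ≤ 2 * m) (hmμ : m ≤ μ)
    (heq : Z = 19/40*μ + 21/40*Y + 3/50*k + 53/1000*(γ-1)*μ)
    (hW : 109/100*Z^2 ≤ m*(γ*W + 97/100*k) + 9/100*m^2)
    (hH1 : H1 ≤ k^2/6000) (hH2 : H2 ≤ k^2/6000) :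
    L*(Y^2 - Z*(γ*W+k) + H1) < 21/40*(X^2 - Y*(γ*Z+k) - H2) := by
  have hm0 : 0 < m := by linarith
  have hg : 0 ≤ 53/1000*(γ-1)*μ := mul_nonneg (by linarith) hμ.le
  have hZ1 : 19/40*μ ≤ Z := by rw [heq]; linarith
  have hZ0 : 0 < Z := by linarith
  have hY2 : Y^2 ≤ (k/3000)^2 := by
    rw [← sq_abs]
    apply pow_le_pow_left₀ (abs_nonneg _)
    rw [abs_le]; constructor <;> linarith
  have hW2 : 1/10*k ≤ γ*W + k := by
    have h1 : 19/40*m ≤ Z := by linarith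
    have h2 : (19/40*m)^2 ≤ Z^2 := pow_le_pow_left₀ (by positivity) h1 2
    have h3 : m*(3/20*m) ≤ m*(γ*W + 97/100*k) := by nlinarith
    have h4 := le_of_mul_le_mul_left h3 hm0
    linarith
  have hZW : 23/1000*k^2 ≤ Z*(γ*W+k) := by
    calc 23/1000*k^2 ≤ (19/80*k)*(1/10*k) := by nlinarith [sq_nonneg k]
      _ ≤ Z*(γ*W+k) := mul_le_mul (by linarith) hW2 (by positivity) hZ0.le
  have hk2 : 0 < k^2 := by positivity
  have h1 : Y^2 - Z*(γ*W+k) + H1 ≤ -(1/100*k^2) := by nlinarith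
  have h2 : L*(Y^2 - Z*(γ*W+k) + H1) ≤ 4*(Y^2 - Z*(γ*W+k) + H1) := by
    apply mul_le_mul_of_nonpos_right hL
    linarith
  have h3 : 0 ≤ γ*Z+k := by positivity
  have h4 : 0 ≤ -Y*(γ*Z+k) := mul_nonneg (by linarith) h3
  nlinarith [sq_nonneg X]

end

end Pool.Agent.Q186.DT
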