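import Pool.Agent.Q186.DT.Def
import Pool.Agent.Q186.DT.Asm
import Pool.Agent.Q98.DT.TTR
import Pool.Agent.Q186.DY.Main

/-!
# Project DT: conversion between the model and the critical variables
-/

namespace Pool.Agent.Q186.DT

open Set Filter Topology MeasureTheory
open Pool.Agent.Q186.DY (wt wt_pos wt_id1 wt_id2 pow_two_n)

noncomputable section

variable {K : ℕ} {lam β ν T : ℝ} {f X : Nd K → ℝ → ℝ} {a : Nd K → ℝ}

/-! ### Sums over the tree -/

/-- The nodes of generation at most `N`. -/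
def bll (K N : ℕ) : Finset (Nd K) := (Finset.range (N + 1)).biUnion (lev K)

lemma mem_bll {N : ℕ} {w : Nd K} : w ∈ bll K N ↔ w.length ≤ N := by
  simp only [bll, Finset.mem_biUnion, Finset.mem_range, mem_lev]
  constructor
  · rintro ⟨n, h1, h2⟩; omega
  · intro h; exact ⟨w.length, by omega, rfl⟩

lemma sm_eq (N : ℕ) (u : Nd K → ℝ) : sm N u = ∑ w ∈ bll K N, u w := by
  unfold sm bll
  rw [Finset.sum_biUnion]
  intro n _ m _ hnm
  rw [Function.onFun, Finset.disjoint_left]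
  intro w h1 h2
  rw [mem_lev] at h1 h2
  omega

lemma tendsto_bll : Tendsto (bll K) atTop atTop := by
  apply tendsto_atTop_finset_of_monotone
  · intro n m hnm w hw
    exact mem_bll.2 ((mem_bll.1 hw).trans hnm)
  · intro w
    exact ⟨w.length, mem_bll.2 le_rfl⟩

lemma sm_tendsto {u : Nd K → ℝ} (h : Summable u) :
    Tendsto (fun N => sm N u) atTop (𝓝 (∑' w, u w)) := by
  have h1 := h.hasSum.comp (tendsto_bll (K := K))
  refine h1.congr fun N => ?_
  rw [sm_eq]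
  rfl

lemma summable_of_sm {u : Nd K → ℝ} (h0 : ∀ w, 0 ≤ u w) {C : ℝ} (h : ∀ N, sm N u ≤ C) :
    Summable u := by
  apply summable_of_sum_le h0 (c := C)
  intro s
  obtain ⟨N, hN⟩ : ∃ N, s ⊆ bll K N := by
    refine ⟨s.sup List.length, fun w hw => mem_bll.2 ?_⟩
    exact Finset.le_sup (f := List.length) hw
  refine le_trans ?_ (h N)
  rw [sm_eq]
  exact Finset.sum_le_sum_of_subset_of_nonneg hN fun w _ _ => h0 w

lemma sm_le_tsum {u : Nd K → ℝ} (h0 : ∀ w, 0 ≤ u w) (h : Summable u) (N : ℕ) :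
    sm N u ≤ ∑' w, u w := by
  rw [sm_eq]
  exact h.sum_le_tsum _ fun w _ => h0 w

/-! ### Critical variables -/

/-- Critical variables. -/
def cr (lam β : ℝ) (X : Nd K → ℝ → ℝ) : Nd K → ℝ → ℝ := fun w t => wt lam β w.length * X w t

/-- The constant `λ^(2β-8)`. -/
def c0 (lam β : ℝ) : ℝ := lam ^ (2 * β - 8)

lemma c0_pos (hl : 0 < lam) : 0 < c0 lam β := Real.rpow_pos_of_pos hl _

lemma wt_e (hl : 0 < lam) (n : ℕ) :
    (lam ^ (6 - 2 * β) / lam ^ 2) ^ n * wt lam β n ^ 2 = c0 lam β := by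
  unfold wt c0
  have h1 : lam ^ (6 - 2 * β) / lam ^ 2 = lam ^ (4 - 2 * β) := by
    rw [← Real.rpow_natCast lam 2, ← Real.rpow_sub hl]
    congr 1
    push_cast
    ring
  rw [h1, ← Real.rpow_natCast (lam ^ _) n, ← Real.rpow_mul hl.le,
    ← Real.rpow_natCast (lam ^ _) 2, ← Real.rpow_mul hl.le, ← Real.rpow_add hl]
  congr 1
  push_cast
  ring

lemma wt_d (hl : 0 < lam) (n : ℕ) :
    (lam ^ (6 - 2 * β)) ^ n * wt lam β n ^ 2 = c0 lam β * lam ^ (2 * n) := by
  unfold wt c0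
  rw [pow_two_n hl, ← Real.rpow_natCast (lam ^ _) n, ← Real.rpow_mul hl.le,
    ← Real.rpow_natCast (lam ^ _) 2, ← Real.rpow_mul hl.le, ← Real.rpow_add hl,
    ← Real.rpow_add hl]
  congr 1
  push_cast
  ring

lemma vf_cr (hl : 0 < lam) (w : Nd K) (t : ℝ) :
    vf (lam ^ 2) (lam ^ (6 - 2 * β)) ν (cr lam β f) (cr lam β X) w t =
      wt lam β w.length * rhsX lam β ν f X w t := by
  have hch : ch (cr lam β X) w t = wt lam β (w.length + 1) * ∑ i : Fin K, X (i :: w) t := by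
    unfold ch cr
    rw [Finset.mul_sum]
    rfl
  have h2 := wt_id2 (β := β) hl w.length
  unfold vf rhsX
  rw [hch, ← pow_mul, h2]
  cases w with
  | nil =>
    simp only [pr_nil, cr]
    ring
  | cons i u =>
    simp only [pr_cons, cr, List.length_cons]
    have h1 := wt_id1 (β := β) hl u.length
    have e : (((u.length + 1 : ℕ) : ℝ) - 1) = (u.length : ℝ) := by push_cast; ring
    rw [e]
    have e2 : wt lam β (u.length + 1) * (-(ν * lam ^ (2 * (u.length + 1)) * X (i :: u) t)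
        + lam ^ (β * (u.length : ℝ)) * X u t ^ 2
        - lam ^ (2 * (u.length + 1)) * (lam ^ (6 - 2 * β) * wt lam β (u.length + 1 + 1))
          * X (i :: u) t * (∑ j : Fin K, X (j :: i :: u) t) + f (i :: u) t)
        = -(wt lam β (u.length + 1) * ν * lam ^ (2 * (u.length + 1)) * X (i :: u) t)
        + (wt lam β (u.length + 1) * lam ^ (β * (u.length : ℝ))) * X u t ^ 2
        - wt lam β (u.length + 1) * lam ^ (2 * (u.length + 1))
          * (lam ^ (6 - 2 * β) * wt lam β (u.length + 1 + 1))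
          * X (i :: u) t * (∑ j : Fin K, X (j :: i :: u) t)
        + wt lam β (u.length + 1) * f (i :: u) t := by ring
    rw [e2, h1]
    ring

lemma sol_cr (hl : 0 < lam) (h : SolX lam β ν T f a X) :
    Sol (lam ^ 2) (lam ^ (6 - 2 * β)) ν T (cr lam β f) (cr lam β X) := by
  intro w t ht
  have h1 := (h.2 w t ht).const_mul (wt lam β w.length)
  rw [← vf_cr hl] at h1
  exact h1

lemma PE_cr (hl : 0 < lam) (X : Nd K → ℝ → ℝ) (N : ℕ) (t : ℝ) :
    PE (lam ^ 2) (lam ^ (6 - 2 * β)) (cr lam β X) N t = c0 lam β * sm N fun w => X w t ^ 2 := by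
  unfold PE
  rw [← Pool.Agent.Q58.DT.sm_mul]
  apply Pool.Agent.Q58.DT.sm_congr
  intro w _
  unfold cr
  rw [mul_pow, ← mul_assoc, wt_e hl]

lemma PD_cr (hl : 0 < lam) (X : Nd K → ℝ → ℝ) (N : ℕ) (t : ℝ) :
    PD (lam ^ (6 - 2 * β)) (cr lam β X) N t =
      c0 lam β * sm N fun w => lam ^ (2 * w.length) * X w t ^ 2 := by
  unfold PD
  rw [← Pool.Agent.Q58.DT.sm_mul]
  apply Pool.Agent.Q58.DT.sm_congr
  intro w _
  unfold cr
  rw [mul_pow, ← mul_assoc, wt_d hl, mul_assoc]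

lemma PF_cr (hl : 0 < lam) (f X : Nd K → ℝ → ℝ) (N : ℕ) (t : ℝ) :
    PF (lam ^ 2) (lam ^ (6 - 2 * β)) (cr lam β f) (cr lam β X) N t =
      c0 lam β * sm N fun w => f w t * X w t := by
  unfold PF
  rw [← Pool.Agent.Q58.DT.sm_mul]
  apply Pool.Agent.Q58.DT.sm_congr
  intro w _
  unfold cr
  have h := wt_e (β := β) hl w.length
  calc (lam ^ (6 - 2 * β) / lam ^ 2) ^ w.length * (wt lam β w.length * X w t *
        (wt lam β w.length * f w t))
      = ((lam ^ (6 - 2 * β) / lam ^ 2) ^ w.length * wt lam β w.length ^ 2) * (f w t * X w t) := by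
        ring
    _ = _ := by rw [h]

/-! ### The force -/

/-- The size of the force in generation `n`. -/
def hf (lam β T : ℝ) (f : Nd K → ℝ → ℝ) (n : ℕ) : ℝ :=
  sSup {y | ∃ w : Nd K, w.length = n ∧ ∃ t ∈ Icc 0 T, y = |cr lam β f w t| / (lam ^ 2) ^ n}

lemma hf_le {n : ℕ} {B : ℝ} (hB : 0 ≤ B)
    (h : ∀ w : Nd K, w.length = n → ∀ t ∈ Icc 0 T, |cr lam β f w t| / (lam ^ 2) ^ n ≤ B) :
    hf lam β T f n ≤ B := by
  apply Real.sSup_le _ hB
  rintro y ⟨w, hw, t, ht, rfl⟩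
  exact h w hw t ht

lemma wt_div (hl : 0 < lam) (n : ℕ) :
    wt lam β n / (lam ^ 2) ^ n = lam ^ (β - 4) * (lam ^ (β - 4)) ^ n := by
  unfold wt
  rw [← pow_mul, pow_two_n hl, ← Real.rpow_sub hl, ← Real.rpow_natCast (lam ^ _) n,
    ← Real.rpow_mul hl.le, ← Real.rpow_add hl]
  congr 1
  ring

lemma frc_cr (hl : 1 < lam) (hβ : β ≤ 3) (hf0 : ForceX T f) :
    ∃ EF, Frc (lam ^ 2) (lam ^ (6 - 2 * β)) T EF (cr lam β f) (hf lam β T f) := by
  have hl0 : 0 < lam := by linarith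
  obtain ⟨φ, hφ, hfφ⟩ := hf0.bd
  set Φ : ℝ := Real.sqrt (∑' w, φ w ^ 2) with hΦ
  have hΦ0 : 0 ≤ Φ := Real.sqrt_nonneg _
  have hfΦ : ∀ w, ∀ t ∈ Icc 0 T, |f w t| ≤ Φ := by
    intro w t ht
    refine (hfφ w t ht).trans ((le_abs_self _).trans ?_)
    apply Real.abs_le_sqrt
    exact hφ.le_tsum w fun _ _ => sq_nonneg _
  have hb : ∀ w : Nd K, ∀ t ∈ Icc 0 T, |cr lam β f w t| / (lam ^ 2) ^ w.length ≤
      lam ^ (β - 4) * (lam ^ (β - 4)) ^ w.length * Φ := by
    intro w t ht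
    unfold cr
    rw [abs_mul, abs_of_pos (wt_pos hl0 _), mul_div_right_comm, wt_div hl0]
    exact mul_le_mul_of_nonneg_left (hfΦ w t ht) (by positivity)
  have hq1 : lam ^ (β - 4) < 1 := Real.rpow_lt_one_of_one_lt_of_neg hl (by linarith)
  have hq0 : 0 < lam ^ (β - 4) := Real.rpow_pos_of_pos hl0 _
  have hnn : ∀ n, 0 ≤ hf lam β T f n := by
    intro n
    apply Real.sSup_nonneg
    rintro y ⟨w, hw, t, ht, rfl⟩
    positivity
  refine ⟨c0 lam β * ∑' w, φ w ^ 2, ⟨fun w => ?_, fun w t ht => ?_, hnn, ?_, fun N t ht => ?_⟩⟩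
  · unfold cr
    exact continuousOn_const.mul (hf0.cont w)
  · have h1 : |cr lam β f w t| / (lam ^ 2) ^ w.length ≤ hf lam β T f w.length := by
      apply le_csSup
      · refine ⟨lam ^ (β - 4) * (lam ^ (β - 4)) ^ w.length * Φ, ?_⟩
        rintro y ⟨u, hu, r, hr, rfl⟩
        have := hb u r hr
        rw [hu] at this
        exact this
      · exact ⟨w, rfl, t, ht, rfl⟩
    rw [div_le_iff₀ (by positivity)] at h1
    linarith
  · have h1 : Tendsto (fun n : ℕ => lam ^ (β - 4) * (lam ^ (β - 4)) ^ n * Φ) atTop (𝓝 0) := by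
      have := ((tendsto_pow_atTop_nhds_zero_of_lt_one hq0.le hq1).const_mul
        (lam ^ (β - 4))).mul_const Φ
      simpa using this
    refine squeeze_zero hnn (fun n => ?_) h1
    apply hf_le (by positivity)
    intro w hw t ht
    have := hb w t ht
    rw [hw] at this
    exact this
  · rw [PE_cr hl0]
    apply mul_le_mul_of_nonneg_left _ (c0_pos hl0).le
    have h1 : sm N (fun w => f w t ^ 2) ≤ sm N fun w => φ w ^ 2 :=
      Pool.Agent.Q58.DT.sm_le_sm fun w _ => by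
        rw [← sq_abs]
        exact pow_le_pow_left₀ (abs_nonneg _) (hfφ w t ht) 2
    exact h1.trans (sm_le_tsum (fun w => sq_nonneg _) hφ N)

/-- Powers of `λ` and `q`. -/
lemma exists_exp (hl : 1 < lam) {q : ℝ} (hq : 0 < q) (b : ℝ) :
    ∃ σ : ℝ, ∀ n : ℕ, lam ^ (b * (n:ℝ)) = q ^ n * lam ^ (σ * (n:ℝ)) := by
  have hl0 : 0 < lam := by linarith
  have hlog : Real.log lam ≠ 0 := (Real.log_pos hl).ne'
  have hq' : q = lam ^ (Real.log q / Real.log lam) := by
    rw [Real.rpow_def_of_pos hl0]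
    have : Real.log lam * (Real.log q / Real.log lam) = Real.log q := by field_simp
    rw [this, Real.exp_log hq]
  refine ⟨b - Real.log q / Real.log lam, fun n => ?_⟩
  have h1 : q ^ n = lam ^ (Real.log q / Real.log lam * (n:ℝ)) := by
    rw [Real.rpow_mul hl0.le, ← hq', Real.rpow_natCast]
  rw [h1, ← Real.rpow_add hl0]
  congr 1
  ring

lemma hf_rap (hl : 1 < lam) (hR : Rap lam 0 T f) {q : ℝ} (hq : 0 < q) :
    ∃ C : ℝ, ∀ n, hf lam β T f n ≤ C * q ^ n := by
  have hl0 : 0 < lam := by linarith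
  obtain ⟨σ, hσ⟩ := exists_exp hl hq (β - 4)
  obtain ⟨C, hC⟩ := hR σ
  refine ⟨lam ^ (β - 4) * |C|, fun n => ?_⟩
  apply hf_le (by positivity)
  intro w hw t ht
  unfold cr
  rw [abs_mul, abs_of_pos (wt_pos hl0 _), mul_div_right_comm, hw, wt_div hl0]
  have h1 : (lam ^ (β - 4)) ^ n = q ^ n * lam ^ (σ * (n:ℝ)) := by
    rw [← hσ n, ← Real.rpow_natCast, ← Real.rpow_mul hl0.le]
  have h2 := (hC w t ht).trans (le_abs_self C)
  rw [hw] at h2
  rw [h1]
  calc lam ^ (β - 4) * (q ^ n * lam ^ (σ * (n:ℝ))) * |f w t|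
      = lam ^ (β - 4) * q ^ n * (lam ^ (σ * (n:ℝ)) * |f w t|) := by ring
    _ ≤ lam ^ (β - 4) * q ^ n * |C| := mul_le_mul_of_nonneg_left h2 (by positivity)
    _ = _ := by ring

/-! ### Rapid decay -/

lemma rap_of (hl : 1 < lam) {s : ℝ}
    (h : ∀ q : ℝ, 0 < q → q < 1 → ∃ C : ℝ, ∀ w : Nd K, ∀ t ∈ Icc s T,
      |cr lam β X w t| ≤ C * q ^ w.length) : Rap lam s T X := by
  intro σ
  have hl0 : 0 < lam := by linarith
  set r : ℝ := |σ - β + 2| + 1 with hr
  have hr0 : 0 < r := by positivity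
  have hrs : σ - β + 2 ≤ r := by
    have := le_abs_self (σ - β + 2)
    linarith
  have hq1 : lam ^ (-r) < 1 := Real.rpow_lt_one_of_one_lt_of_neg hl (by linarith)
  have hq0 : 0 < lam ^ (-r) := Real.rpow_pos_of_pos hl0 _
  obtain ⟨C, hC⟩ := h (lam ^ (-r)) hq0 hq1
  refine ⟨|C| * lam ^ (4 - β), fun w t ht => ?_⟩
  have h1 := hC w t ht
  have hw := wt_pos (β := β) hl0 w.length
  unfold cr at h1
  rw [abs_mul, abs_of_pos hw] at h1
  have h2 : |X w t| ≤ |C| * (lam ^ (-r)) ^ w.length / wt lam β w.length := by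
    rw [le_div_iff₀ hw]
    have : C * (lam ^ (-r)) ^ w.length ≤ |C| * (lam ^ (-r)) ^ w.length :=
      mul_le_mul_of_nonneg_right (le_abs_self C) (by positivity)
    linarith
  refine (mul_le_mul_of_nonneg_left h2 (Real.rpow_pos_of_pos hl0 _).le).trans ?_
  have h4 : lam ^ (σ * (w.length : ℝ)) * (|C| * (lam ^ (-r)) ^ w.length / wt lam β w.length) =
      |C| * lam ^ (σ * (w.length : ℝ) + (-r) * (w.length : ℝ)
        - ((β - 4) + (β - 2) * (w.length : ℝ))) := by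
    unfold wt
    rw [Real.rpow_sub hl0 (σ * (w.length : ℝ) + (-r) * (w.length : ℝ)),
      Real.rpow_add hl0 (σ * (w.length : ℝ)) ((-r) * (w.length : ℝ)),
      ← Real.rpow_natCast (lam ^ (-r)) w.length, ← Real.rpow_mul hl0.le]
    ring
  rw [h4]
  apply mul_le_mul_of_nonneg_left _ (abs_nonneg C)
  apply Real.rpow_le_rpow_of_exponent_le hl.le
  have hn : (0:ℝ) ≤ (w.length : ℝ) := Nat.cast_nonneg _
  nlinarith [mul_nonneg hn (sub_nonneg.2 hrs)]

lemma of_rapD (hl : 1 < lam) (h : RapD lam a) {q : ℝ} (hq : 0 < q) :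
    ∃ C : ℝ, ∀ w : Nd K, |wt lam β w.length * a w| ≤ C * q ^ w.length := by
  have hl0 : 0 < lam := by linarith
  obtain ⟨σ, hσ⟩ := exists_exp hl hq (β - 2)
  obtain ⟨C, hC⟩ := h σ
  refine ⟨lam ^ (β - 4) * |C|, fun w => ?_⟩
  rw [abs_mul, abs_of_pos (wt_pos hl0 _)]
  have h1 : wt lam β w.length = lam ^ (β - 4) * (q ^ w.length * lam ^ (σ * (w.length:ℝ))) := by
    rw [← hσ]; unfold wt; rw [Real.rpow_add hl0]
  rw [h1]
  calc lam ^ (β - 4) * (q ^ w.length * lam ^ (σ * (w.length:ℝ))) * |a w|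
      = lam ^ (β - 4) * q ^ w.length * (lam ^ (σ * (w.length:ℝ)) * |a w|) := by ring
    _ ≤ lam ^ (β - 4) * q ^ w.length * |C| :=
        mul_le_mul_of_nonneg_left ((hC w).trans (le_abs_self C)) (by positivity)
    _ = _ := by ring

lemma Dt_of_enstrophy (hl : 1 < lam) (hβ : β ≤ 3)
    (h : Summable fun w : Nd K => lam ^ (2 * w.length) * a w ^ 2) :
    Dt fun w => wt lam β w.length * a w := by
  intro ε hε
  have hl0 : 0 < lam := by linarith
  have hg : 1 ≤ lam ^ (6 - 2 * β) := Real.one_le_rpow hl.le (by linarith)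
  have h1 := (h.mul_left (c0 lam β)).tendsto_cofinite_zero.eventually
    (gt_mem_nhds (show (0:ℝ) < ε ^ 2 by positivity))
  rw [Filter.eventually_cofinite] at h1
  refine ⟨h1.toFinset.sup List.length + 1, fun w hw => ?_⟩
  have h2 : c0 lam β * (lam ^ (2 * w.length) * a w ^ 2) < ε ^ 2 := by
    by_contra hcon
    have h3 : w ∈ h1.toFinset := by simpa using hcon
    have h4 : w.length ≤ h1.toFinset.sup List.length := Finset.le_sup (f := List.length) h3
    omega
  have h5 : (wt lam β w.length * a w) ^ 2 ≤ ε ^ 2 := by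
    refine le_trans ?_ h2.le
    rw [← mul_assoc, ← wt_d hl0, mul_pow]
    have h6 : 1 ≤ (lam ^ (6 - 2 * β)) ^ w.length := one_le_pow₀ hg
    have h7 : 0 ≤ wt lam β w.length ^ 2 * a w ^ 2 := by positivity
    nlinarith
  exact abs_le_of_sq_le_sq h5 hε.le

end

end Pool.Agent.Q186.DT
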