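import Pool.Agent.Q186.DT.Conv

/-!
# Project DT: the energy balance of the model and the flux in the critical variables
-/

namespace Pool.Agent.Q186.DT

open Set Filter Topology MeasureTheory
open Pool.Agent.Q186.DY (wt wt_pos)

noncomputable section

variable {K : ℕ} {lam β ν T : ℝ} {f X : Nd K → ℝ → ℝ} {a : Nd K → ℝ}

/-- Finite energy and dissipation. -/
structure FE {K : ℕ} (lam T : ℝ) (X : Nd K → ℝ → ℝ) : Prop where
  en : ∃ E : ℝ, ∀ t ∈ Icc 0 T, Summable (fun w => X w t ^ 2) ∧ enX X t ≤ E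
  fin : ∀ᵐ t : ℝ, t ∈ Icc 0 T → Summable fun w : Nd K => lam ^ (2 * w.length) * X w t ^ 2
  dis : IntervalIntegrable (disX lam X) volume 0 T

lemma summable_fX {t : ℝ} {φ : Nd K → ℝ} (hφ : Summable fun w => φ w ^ 2)
    (hb : ∀ w, |f w t| ≤ φ w) (hX : Summable fun w => X w t ^ 2) :
    Summable fun w => f w t * X w t := by
  refine Summable.of_norm_bounded ((hφ.add hX).mul_left (1/2)) fun w => ?_
  rw [Real.norm_eq_abs, abs_mul]
  have h1 : |f w t| ^ 2 ≤ φ w ^ 2 := pow_le_pow_left₀ (abs_nonneg _) (hb w) 2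
  have h2 := sq_abs (X w t)
  nlinarith [sq_nonneg (|f w t| - |X w t|)]

lemma pow_bound {t E : ℝ} {φ : Nd K → ℝ} (hφ : Summable fun w => φ w ^ 2)
    (hb : ∀ w, |f w t| ≤ φ w) (hX : Summable fun w => X w t ^ 2) (hE : enX X t ≤ E) (N : ℕ) :
    |sm N fun w => f w t * X w t| ≤ (1/2) * ((∑' w, φ w ^ 2) + E) := by
  have h1 : |sm N fun w => f w t * X w t| ≤ sm N fun w => (1/2) * (φ w ^ 2 + X w t ^ 2) := by
    rw [sm_eq, sm_eq]
    refine (Finset.abs_sum_le_sum_abs _ _).trans (Finset.sum_le_sum fun w _ => ?_)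
    rw [abs_mul]
    have h1 : |f w t| ^ 2 ≤ φ w ^ 2 := pow_le_pow_left₀ (abs_nonneg _) (hb w) 2
    have h2 := sq_abs (X w t)
    nlinarith [sq_nonneg (|f w t| - |X w t|)]
  refine h1.trans ?_
  rw [Pool.Agent.Q58.DT.sm_mul, Pool.Agent.Q58.DT.sm_add]
  have h2 := sm_le_tsum (fun w => sq_nonneg (φ w)) hφ N
  have h3 := sm_le_tsum (fun w => sq_nonneg (X w t)) hX N
  unfold enX at hE
  linarith

lemma cont_X (hX : SolX lam β ν T f a X) (w : Nd K) : ContinuousOn (X w) (Icc 0 T) :=
  fun t ht => (hX.2 w t ht).continuousWithinAt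

lemma cont_cr (hX : ∀ w, ContinuousOn (X w) (Icc 0 T)) (w : Nd K) :
    ContinuousOn (cr lam β X w) (Icc 0 T) := by
  unfold cr
  exact continuousOn_const.mul (hX w)

/-- The flux to infinity. -/
theorem LIM (hl : 1 < lam) (hf : ForceX T f) (hX : SolX lam β ν T f a X) (hFE : FE lam T X)
    {s t : ℝ} (hs : 0 ≤ s) (hst : s ≤ t) (htT : t ≤ T) :
    Tendsto (fun N => ∫ r in s..t, fl (lam ^ (6 - 2 * β)) (cr lam β X) N r) atTop
      (𝓝 (c0 lam β / 2 * ((enX X s + 2 * (∫ r in s..t, powX f X r)) - (enX X t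
        + 2 * ν * (∫ r in s..t, disX lam X r))))) := by
  have hl0 : 0 < lam := by linarith
  set g : ℝ := lam ^ (6 - 2 * β) with hg
  have hg0 : 0 < g := Real.rpow_pos_of_pos hl0 _
  obtain ⟨φ, hφ, hfφ⟩ := hf.bd
  obtain ⟨E, hE⟩ := hFE.en
  have hsub : Icc s t ⊆ Icc 0 T := Icc_subset_Icc hs htT
  have hXc := cont_X hX
  have hcr : ∀ w, ContinuousOn (cr lam β X w) (Icc 0 T) := cont_cr hXc
  have hcf : ∀ w, ContinuousOn (cr lam β f w) (Icc 0 T) := cont_cr hf.cont
  have hsol := sol_cr hl0 hX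
  have hten : ∀ N, PE (lam ^ 2) g (cr lam β X) N t + 2 * ν * (∫ r in s..t, PD g (cr lam β X) N r)
      + 2 * (∫ r in s..t, fl g (cr lam β X) N r) = PE (lam ^ 2) g (cr lam β X) N s
      + 2 * (∫ r in s..t, PF (lam ^ 2) g (cr lam β f) (cr lam β X) N r) := fun N =>
    Pool.Agent.Q58.DT.ten K (lam ^ 2) g ν T (cr lam β f) (cr lam β X) N (by positivity) hg0 hcf
      (fun w _ => hcr w) (fun w _ r hr => hsol w r hr) s t hs hst htT
  have hEl : ∀ r ∈ Icc 0 T, Tendsto (fun N => PE (lam ^ 2) g (cr lam β X) N r) atTop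
      (𝓝 (c0 lam β * enX X r)) := by
    intro r hr
    refine ((sm_tendsto (hE r hr).1).const_mul (c0 lam β)).congr fun N => ?_
    rw [PE_cr hl0]
  have hDl : Tendsto (fun N => ∫ r in s..t, PD g (cr lam β X) N r) atTop
      (𝓝 (∫ r in s..t, c0 lam β * disX lam X r)) := by
    apply intervalIntegral.tendsto_integral_filter_of_dominated_convergence
      (fun r => c0 lam β * disX lam X r)
    · refine Eventually.of_forall fun N => ?_
      have hc : ContinuousOn (PD g (cr lam β X) N) (Icc 0 T) :=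
        Pool.Agent.Q58.DT.PD_cont fun w _ => hcr w
      rw [uIoc_of_le hst]
      exact ((hc.mono hsub).mono Ioc_subset_Icc_self).aestronglyMeasurable measurableSet_Ioc
    · refine Eventually.of_forall fun N => ?_
      filter_upwards [hFE.fin] with r hr hrI
      rw [uIoc_of_le hst] at hrI
      have h1 := hr (hsub ⟨hrI.1.le, hrI.2⟩)
      rw [PD_cr hl0, Real.norm_eq_abs, abs_of_nonneg]
      · exact mul_le_mul_of_nonneg_left (sm_le_tsum (fun w => by positivity) h1 N) (c0_pos hl0).le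
      · exact mul_nonneg (c0_pos hl0).le (Pool.Agent.Q58.DT.sm_nonneg fun w _ => by positivity)
    · refine (IntervalIntegrable.mono_set hFE.dis ?_).const_mul _
      rw [uIcc_of_le hst, uIcc_of_le (hs.trans (hst.trans htT))]
      exact hsub
    · filter_upwards [hFE.fin] with r hr hrI
      rw [uIoc_of_le hst] at hrI
      have h1 := hr (hsub ⟨hrI.1.le, hrI.2⟩)
      refine ((sm_tendsto h1).const_mul (c0 lam β)).congr fun N => ?_
      rw [PD_cr hl0]
  have hPl : Tendsto (fun N => ∫ r in s..t, PF (lam ^ 2) g (cr lam β f) (cr lam β X) N r) atTop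
      (𝓝 (∫ r in s..t, c0 lam β * powX f X r)) := by
    apply intervalIntegral.tendsto_integral_filter_of_dominated_convergence
      (fun _ => c0 lam β * ((1/2) * ((∑' w, φ w ^ 2) + E)))
    · refine Eventually.of_forall fun N => ?_
      have hc : ContinuousOn (PF (lam ^ 2) g (cr lam β f) (cr lam β X) N) (Icc 0 T) :=
        Pool.Agent.Q58.DT.PF_cont hcf fun w _ => hcr w
      rw [uIoc_of_le hst]
      exact ((hc.mono hsub).mono Ioc_subset_Icc_self).aestronglyMeasurable measurableSet_Ioc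
    · refine Eventually.of_forall fun N => Eventually.of_forall fun r hrI => ?_
      rw [uIoc_of_le hst] at hrI
      have hr := hsub ⟨hrI.1.le, hrI.2⟩
      rw [PF_cr hl0, Real.norm_eq_abs, abs_mul, abs_of_pos (c0_pos hl0)]
      exact mul_le_mul_of_nonneg_left (pow_bound hφ (fun w => hfφ w r hr) (hE r hr).1
        (hE r hr).2 N) (c0_pos hl0).le
    · exact intervalIntegrable_const
    · refine Eventually.of_forall fun r hrI => ?_
      rw [uIoc_of_le hst] at hrI
      have hr := hsub ⟨hrI.1.le, hrI.2⟩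
      refine ((sm_tendsto (summable_fX hφ (fun w => hfφ w r hr) (hE r hr).1)).const_mul
        (c0 lam β)).congr fun N => ?_
      rw [PF_cr hl0]
  have hsI : s ∈ Icc 0 T := ⟨hs, hst.trans htT⟩
  have htI : t ∈ Icc 0 T := ⟨hs.trans hst, htT⟩
  have h1 := ((((hEl s hsI).sub (hEl t htI)).sub (hDl.const_mul (2 * ν))).add
    (hPl.const_mul 2)).div_const 2
  have h2 : (fun N => ∫ r in s..t, fl g (cr lam β X) N r) = fun N =>
      (PE (lam ^ 2) g (cr lam β X) N s - PE (lam ^ 2) g (cr lam β X) N t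
        - 2 * ν * (∫ r in s..t, PD g (cr lam β X) N r)
        + 2 * (∫ r in s..t, PF (lam ^ 2) g (cr lam β f) (cr lam β X) N r)) / 2 := by
    funext N
    have := hten N
    linarith
  rw [h2]
  convert h1 using 2
  rw [intervalIntegral.integral_const_mul, intervalIntegral.integral_const_mul]
  ring

end

end Pool.Agent.Q186.DT
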