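import Pool.Agent.Q186.DT.Conv2

/-!
# Project DT: Leray-Hopf solutions of the model and of the system in the critical variables
-/

namespace Pool.Agent.Q186.DT

open Set Filter Topology MeasureTheory
open Pool.Agent.Q186.DY (wt wt_pos)

noncomputable section

variable {K : ℕ} {lam β ν T : ℝ} {f X : Nd K → ℝ → ℝ} {a : Nd K → ℝ}

lemma disX_nonneg (hl : 0 < lam) (X : Nd K → ℝ → ℝ) (t : ℝ) : 0 ≤ disX lam X t :=
  tsum_nonneg fun w => by positivity

/-- Finite energy and dissipation from the bounds in the critical variables. -/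
lemma FE_of (hl : 1 < lam) (hT : 0 < T) (hc : ∀ w, ContinuousOn (X w) (Icc 0 T))
    (hE : ∃ E : ℝ, ∀ N, ∀ t ∈ Icc 0 T, PE (lam ^ 2) (lam ^ (6 - 2 * β)) (cr lam β X) N t ≤ E)
    (hD : ∃ D : ℝ, ∀ N, (∫ t in (0:ℝ)..T, PD (lam ^ (6 - 2 * β)) (cr lam β X) N t) ≤ D) :
    FE lam T X := by
  have hl0 : 0 < lam := by linarith
  have hc0 : 0 < c0 lam β := c0_pos hl0
  obtain ⟨E, hE⟩ := hE
  obtain ⟨D, hD⟩ := hD
  set u : ℕ → ℝ → ℝ := fun N t => sm N fun w => lam ^ (2 * w.length) * X w t ^ 2 with hu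
  have hu0 : ∀ N t, 0 ≤ u N t := fun N t =>
    Pool.Agent.Q58.DT.sm_nonneg fun w _ => by positivity
  have huc : ∀ N, ContinuousOn (u N) (Icc 0 T) := fun N =>
    Pool.Agent.Q58.DT.sm_cont (f := fun w t => lam ^ (2 * w.length) * X w t ^ 2) fun w _ =>
      continuousOn_const.mul ((hc w).pow 2)
  have huD : ∀ N, (∫ t in (0:ℝ)..T, u N t) ≤ D / c0 lam β := by
    intro N
    rw [le_div_iff₀ hc0, mul_comm, ← intervalIntegral.integral_const_mul]
    refine le_trans (le_of_eq ?_) (hD N)
    congr 1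
    funext t
    rw [PD_cr hl0]
  set μ : Measure ℝ := volume.restrict (Icc 0 T) with hμ
  have hmeas : ∀ N, AEMeasurable (fun s => ENNReal.ofReal (u N s)) μ := fun N =>
    ((huc N).aemeasurable measurableSet_Icc).ennreal_ofReal
  have hlint : ∀ N, ∫⁻ s, ENNReal.ofReal (u N s) ∂μ ≤ ENNReal.ofReal (D / c0 lam β) := by
    intro N
    rw [← ofReal_integral_eq_lintegral_ofReal]
    · apply ENNReal.ofReal_le_ofReal
      have := huD N
      rw [intervalIntegral.integral_of_le hT.le, ← integral_Icc_eq_integral_Ioc] at this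
      exact this
    · exact (huc N).integrableOn_Icc
    · exact Filter.Eventually.of_forall fun s => hu0 N s
  have hmono : ∀ s, Monotone fun N => ENNReal.ofReal (u N s) := by
    intro s N N' hN
    apply ENNReal.ofReal_le_ofReal
    exact Pool.Agent.Q58.DT.sm_mono hN fun w => by positivity
  have hsup : ∫⁻ s, ⨆ N, ENNReal.ofReal (u N s) ∂μ ≤ ENNReal.ofReal (D / c0 lam β) := by
    rw [lintegral_iSup' hmeas (Filter.Eventually.of_forall hmono)]
    exact iSup_le hlint
  have hfin : ∀ᵐ s ∂μ, ⨆ N, ENNReal.ofReal (u N s) < ⊤ :=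
    ae_lt_top' (AEMeasurable.iSup hmeas)
      (ne_of_lt (lt_of_le_of_lt hsup ENNReal.ofReal_lt_top))
  have hsum : ∀ᵐ s ∂μ, Summable fun w : Nd K => lam ^ (2 * w.length) * X w s ^ 2 := by
    filter_upwards [hfin] with s hs
    refine summable_of_sm (fun w => by positivity)
      (C := (⨆ N, ENNReal.ofReal (u N s)).toReal) fun N => ?_
    have h1 : ENNReal.ofReal (u N s) ≤ ⨆ N, ENNReal.ofReal (u N s) :=
      le_iSup (fun N => ENNReal.ofReal (u N s)) N
    have h2 := ENNReal.toReal_mono hs.ne h1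
    rwa [ENNReal.toReal_ofReal (hu0 N s)] at h2
  have hlim : ∀ᵐ s ∂μ, Tendsto (fun N => u N s) atTop (𝓝 (disX lam X s)) := by
    filter_upwards [hsum] with s hs
    exact sm_tendsto hs
  refine ⟨⟨E / c0 lam β, fun t ht => ?_⟩, ?_, ?_⟩
  · have h1 : ∀ N, (sm N fun w => X w t ^ 2) ≤ E / c0 lam β := by
      intro N
      rw [le_div_iff₀ hc0, mul_comm, ← PE_cr hl0]
      exact hE N t ht
    have h2 : Summable fun w => X w t ^ 2 := summable_of_sm (fun w => sq_nonneg _) h1
    exact ⟨h2, le_of_tendsto' (sm_tendsto h2) h1⟩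
  · exact (ae_restrict_iff' measurableSet_Icc).1 hsum
  · have hint : Integrable (disX lam X) μ := by
      refine ⟨aestronglyMeasurable_of_tendsto_ae atTop (f := u)
        (fun N => (huc N).aestronglyMeasurable measurableSet_Icc) hlim, ?_⟩
      refine lt_of_le_of_lt (lintegral_mono_ae (g := fun s => ⨆ N, ENNReal.ofReal (u N s)) ?_)
        (lt_of_le_of_lt hsup ENNReal.ofReal_lt_top)
      filter_upwards [hlim] with s hs
      rw [Real.enorm_of_nonneg (disX_nonneg hl0 X s)]
      exact le_of_tendsto' ((ENNReal.continuous_ofReal.tendsto _).comp hs)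
        fun N => le_iSup (fun N => ENNReal.ofReal (u N s)) N
    rw [intervalIntegrable_iff_integrableOn_Icc_of_le hT.le]
    exact hint

lemma EIX_iff (hl : 1 < lam) (hf : ForceX T f) (hX : SolX lam β ν T f a X) (hFE : FE lam T X)
    {s t : ℝ} (hs : 0 ≤ s) (hst : s ≤ t) (htT : t ≤ T) :
    EI (lam ^ (6 - 2 * β)) (cr lam β X) s t ↔ EIX lam ν f X s t := by
  have hl0 : 0 < lam := by linarith
  have hc0 : 0 < c0 lam β := c0_pos hl0
  have hlim := LIM hl hf hX hFE hs hst htT
  constructor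
  · intro h
    have h1 : 0 ≤ c0 lam β / 2 * ((enX X s + 2 * (∫ r in s..t, powX f X r)) - (enX X t
        + 2 * ν * (∫ r in s..t, disX lam X r))) := by
      refine le_of_forall_pos_le_add fun ε hε => ?_
      have := ge_of_tendsto hlim (h ε hε)
      linarith
    unfold EIX
    by_contra hcon
    push Not at hcon
    have : c0 lam β / 2 * ((enX X s + 2 * (∫ r in s..t, powX f X r)) - (enX X t
        + 2 * ν * (∫ r in s..t, disX lam X r))) < 0 :=
      mul_neg_of_pos_of_neg (by positivity) (by linarith)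
    linarith
  · intro h ε hε
    unfold EIX at h
    have h1 : 0 ≤ c0 lam β / 2 * ((enX X s + 2 * (∫ r in s..t, powX f X r)) - (enX X t
        + 2 * ν * (∫ r in s..t, disX lam X r))) := mul_nonneg (by positivity) (by linarith)
    filter_upwards [hlim.eventually (lt_mem_nhds (show -ε < c0 lam β / 2 *
      ((enX X s + 2 * (∫ r in s..t, powX f X r)) - (enX X t
        + 2 * ν * (∫ r in s..t, disX lam X r))) by linarith))] with N hN
    exact hN.le

lemma EEX_of (hl : 1 < lam) (hf : ForceX T f) (hX : SolX lam β ν T f a X) (hFE : FE lam T X)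
    {s t : ℝ} (hs : 0 ≤ s) (hst : s ≤ t) (htT : t ≤ T)
    (h : EE (lam ^ (6 - 2 * β)) (cr lam β X) s t) : EEX lam ν f X s t := by
  have hl0 : 0 < lam := by linarith
  have hc0 : 0 < c0 lam β := c0_pos hl0
  have h1 := tendsto_nhds_unique (LIM hl hf hX hFE hs hst htT) h
  have h2 : ((enX X s + 2 * (∫ r in s..t, powX f X r)) - (enX X t
        + 2 * ν * (∫ r in s..t, disX lam X r))) = 0 := by
    rcases mul_eq_zero.1 h1 with h | h
    · have : c0 lam β / 2 ≠ 0 := by positivity
      exact absurd h this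
    · exact h
  unfold EEX
  linarith

lemma LHX.fe (h : LHX lam β ν T f a X) : FE lam T X := ⟨h.en, h.fin, h.dis⟩

/-- Leray-Hopf solutions of the model are Leray-Hopf solutions in the critical variables. -/
theorem LHX.lh (hl : 1 < lam) (hT : 0 < T) (hf : ForceX T f) (h : LHX lam β ν T f a X) :
    LH (lam ^ 2) (lam ^ (6 - 2 * β)) ν T (cr lam β f) (cr lam β X) := by
  have hl0 : 0 < lam := by linarith
  have hc0 : 0 < c0 lam β := c0_pos hl0
  have hc := cont_X h.sol
  refine ⟨sol_cr hl0 h.sol, ?_, ?_, fun t ht => ?_, ?_⟩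
  · obtain ⟨E, hE⟩ := h.en
    refine ⟨c0 lam β * E, fun N t ht => ?_⟩
    rw [PE_cr hl0]
    exact mul_le_mul_of_nonneg_left ((sm_le_tsum (fun w => sq_nonneg _) (hE t ht).1 N).trans
      (hE t ht).2) hc0.le
  · refine ⟨∫ r in (0:ℝ)..T, c0 lam β * disX lam X r, fun N => ?_⟩
    have hPDc : ContinuousOn (PD (lam ^ (6 - 2 * β)) (cr lam β X) N) (Icc 0 T) :=
      Pool.Agent.Q58.DT.PD_cont fun w _ => cont_cr hc w
    apply intervalIntegral.integral_mono_ae_restrict hT.le
      (hPDc.intervalIntegrable_of_Icc hT.le) (h.dis.const_mul _)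
    rw [EventuallyLE, ae_restrict_iff' measurableSet_Icc]
    filter_upwards [h.fin] with r hr hrI
    rw [PD_cr hl0]
    exact mul_le_mul_of_nonneg_left (sm_le_tsum (fun w => by positivity) (hr hrI) N) hc0.le
  · exact (EIX_iff hl hf h.sol h.fe le_rfl ht.1 ht.2).2 (h.zero t ht)
  · filter_upwards [h.ae] with s hs hsI t ht
    exact (EIX_iff hl hf h.sol h.fe hsI.1 ht.1 ht.2).2 (hs hsI t ht)

/-- Leray-Hopf solutions in the critical variables give Leray-Hopf solutions of the model. -/
theorem LHX_of (hl : 1 < lam) (hT : 0 < T) (hf : ForceX T f) (hX : SolX lam β ν T f a X)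
    (h : LH (lam ^ 2) (lam ^ (6 - 2 * β)) ν T (cr lam β f) (cr lam β X)) :
    LHX lam β ν T f a X := by
  have hFE : FE lam T X := FE_of hl hT (cont_X hX) h.en h.dis
  refine ⟨hX, hFE.en, hFE.fin, hFE.dis, fun t ht => ?_, ?_⟩
  · exact (EIX_iff hl hf hX hFE le_rfl ht.1 ht.2).1 (h.zero t ht)
  · filter_upwards [h.ae] with s hs hsI t ht
    exact (EIX_iff hl hf hX hFE hsI.1 ht.1 ht.2).1 (hs hsI t ht)

/-- Solutions in the critical variables give solutions of the model. -/
theorem SolX_of (hl : 0 < lam) {V : Nd K → ℝ → ℝ}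
    (hV : Sol (lam ^ 2) (lam ^ (6 - 2 * β)) ν T (cr lam β f) V)
    (hV0 : ∀ w : Nd K, V w 0 = wt lam β w.length * a w) :
    ∃ X : Nd K → ℝ → ℝ, cr lam β X = V ∧ SolX lam β ν T f a X := by
  have hw : ∀ n, wt lam β n ≠ 0 := fun n => (wt_pos hl n).ne'
  refine ⟨fun w t => V w t / wt lam β w.length, ?_, fun w => ?_, fun w t ht => ?_⟩
  · funext w t
    unfold cr
    field_simp [hw]
  · show V w 0 / wt lam β w.length = a w
    rw [hV0]
    field_simp [hw]
  · have e : cr lam β (fun w t => V w t / wt lam β w.length) = V := by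
      funext w t
      unfold cr
      field_simp [hw]
    have h1 := (hV w t ht).div_const (wt lam β w.length)
    have h2 := vf_cr (β := β) (ν := ν) (f := f) (X := fun w t => V w t / wt lam β w.length) hl w t
    rw [e] at h2
    rw [h2, mul_div_cancel_left₀ _ (hw _)] at h1
    exact h1

end

end Pool.Agent.Q186.DT
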