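import Pool.Agent.Q186.DT.Stm

/-!
# Project DT: the Katz-Pavlovic dyadic model of the Navier-Stokes equations, definitions

The nodes are the words over `Fin K` (`Nd K`), the root is `[]`, the children of `w` are the words
`i :: w`, the generation of `w` is its length. For `K = 8` this is the tree of the dyadic subcubes
of a cube, for `K = 1` the shell model.
-/

namespace Pool.Agent.Q186.DT

open Set Filter Topology MeasureTheory

noncomputable section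

/-- The right hand side of the model,
`- ν λ^(2n) X_w + λ^(β(n-1)) X_(parent)^2 - λ^(β n) X_w Σ_i X_(i w) + f_w`, `n = |w|`
(`pr X w` is `X` at the parent of `w` and zero if `w` is the root). -/
def rhsX {K : ℕ} (lam β ν : ℝ) (f X : Nd K → ℝ → ℝ) (w : Nd K) (t : ℝ) : ℝ :=
  -(ν * lam ^ (2 * w.length) * X w t) + lam ^ (β * ((w.length : ℝ) - 1)) * pr X w t ^ 2
    - lam ^ (β * (w.length : ℝ)) * X w t * (∑ i : Fin K, X (i :: w) t) + f w t

/-- `X` solves the equations of all nodes on `[0,T]`, with force `f` and data `a`. -/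
def SolX {K : ℕ} (lam β ν T : ℝ) (f : Nd K → ℝ → ℝ) (a : Nd K → ℝ) (X : Nd K → ℝ → ℝ) : Prop :=
  (∀ w, X w 0 = a w) ∧
    ∀ w, ∀ t ∈ Icc 0 T, HasDerivWithinAt (X w) (rhsX lam β ν f X w t) (Icc 0 T) t

/-- The energy `Σ_w X_w^2`. -/
def enX {K : ℕ} (X : Nd K → ℝ → ℝ) (t : ℝ) : ℝ := ∑' w, X w t ^ 2

/-- The dissipation `Σ_w λ^(2|w|) X_w^2`. -/
def disX {K : ℕ} (lam : ℝ) (X : Nd K → ℝ → ℝ) (t : ℝ) : ℝ :=
  ∑' w : Nd K, lam ^ (2 * w.length) * X w t ^ 2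

/-- The power of the force `Σ_w f_w X_w`. -/
def powX {K : ℕ} (f X : Nd K → ℝ → ℝ) (t : ℝ) : ℝ := ∑' w, f w t * X w t

/-- Forces: continuous in time, `|f_w(t)| ≤ φ_w` with `Σ φ_w^2 < ∞`. -/
structure ForceX {K : ℕ} (T : ℝ) (f : Nd K → ℝ → ℝ) : Prop where
  cont : ∀ w, ContinuousOn (f w) (Icc 0 T)
  bd : ∃ φ : Nd K → ℝ, Summable (fun w => φ w ^ 2) ∧ ∀ w, ∀ t ∈ Icc 0 T, |f w t| ≤ φ w

/-- The energy inequality from `s` to `t`. -/
def EIX {K : ℕ} (lam ν : ℝ) (f X : Nd K → ℝ → ℝ) (s t : ℝ) : Prop :=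
  enX X t + 2 * ν * (∫ r in s..t, disX lam X r) ≤ enX X s + 2 * (∫ r in s..t, powX f X r)

/-- The energy equality from `s` to `t`. -/
def EEX {K : ℕ} (lam ν : ℝ) (f X : Nd K → ℝ → ℝ) (s t : ℝ) : Prop :=
  enX X t + 2 * ν * (∫ r in s..t, disX lam X r) = enX X s + 2 * (∫ r in s..t, powX f X r)

/-- Leray-Hopf solutions on `[0,T]`: bounded energy, integrable dissipation, energy inequality from
time `0` and from almost every time `s`. -/
structure LHX {K : ℕ} (lam β ν T : ℝ) (f : Nd K → ℝ → ℝ) (a : Nd K → ℝ) (X : Nd K → ℝ → ℝ) :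
    Prop where
  sol : SolX lam β ν T f a X
  en : ∃ E : ℝ, ∀ t ∈ Icc 0 T, Summable (fun w => X w t ^ 2) ∧ enX X t ≤ E
  fin : ∀ᵐ t : ℝ, t ∈ Icc 0 T → Summable fun w : Nd K => lam ^ (2 * w.length) * X w t ^ 2
  dis : IntervalIntegrable (disX lam X) volume 0 T
  zero : ∀ t ∈ Icc 0 T, EIX lam ν f X 0 t
  ae : ∀ᵐ s : ℝ, s ∈ Icc 0 T → ∀ t ∈ Icc s T, EIX lam ν f X s t

/-- Rapid decay along the generations, uniformly for `t` in `[s,T]`. -/
def Rap {K : ℕ} (lam s T : ℝ) (X : Nd K → ℝ → ℝ) : Prop :=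
  ∀ σ : ℝ, ∃ C : ℝ, ∀ w : Nd K, ∀ t ∈ Icc s T, lam ^ (σ * (w.length : ℝ)) * |X w t| ≤ C

/-- Rapid decay of the data. -/
def RapD {K : ℕ} (lam : ℝ) (a : Nd K → ℝ) : Prop :=
  ∀ σ : ℝ, ∃ C : ℝ, ∀ w : Nd K, lam ^ (σ * (w.length : ℝ)) * |a w| ≤ C

end

end Pool.Agent.Q186.DT
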