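import Pool.Agent.Q186.DT.Conv3

/-!
# Project DT: the main theorem for the Katz-Pavlovic dyadic model of the Navier-Stokes equations
-/

namespace Pool.Agent.Q186.DT

open Set Filter Topology MeasureTheory
open Pool.Agent.Q186.DY (wt wt_pos)

noncomputable section

/-- The admissible parameters: `λ > 1`, `β ≤ 3`, and either `K ≥ 2` and `K λ^(8-2β) ≥ 12` or `K = 1` and
`λ ≥ 2`. (`K = 8`, `λ = 2`, `β = 5/2` is the model of the Navier-Stokes equations in space.) -/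
structure ParX (K : ℕ) (lam β : ℝ) : Prop where
  one_lt : 1 < lam
  le_three : β ≤ 3
  br : (2 ≤ K ∧ 12 ≤ K * lam ^ (8 - 2 * β)) ∨ (K = 1 ∧ 2 ≤ lam)

/-- `λ^((β-2)|w|) X_w(t)` tends to zero as `|w| → ∞`, uniformly for `t` in `[s,T]`. -/
def Crit {K : ℕ} (lam β s T : ℝ) (X : Nd K → ℝ → ℝ) : Prop :=
  ∀ ε : ℝ, 0 < ε → ∃ m : ℕ, ∀ w : Nd K, m ≤ w.length → ∀ t ∈ Icc s T,
    lam ^ ((β - 2) * (w.length : ℝ)) * |X w t| ≤ ε

/-- `λ^((β-2)|w|) a_w` tends to zero as `|w| → ∞`. -/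
def CritD {K : ℕ} (lam β : ℝ) (a : Nd K → ℝ) : Prop :=
  ∀ ε : ℝ, 0 < ε → ∃ m : ℕ, ∀ w : Nd K, m ≤ w.length →
    lam ^ ((β - 2) * (w.length : ℝ)) * |a w| ≤ ε

variable {K : ℕ} {lam β ν T : ℝ} {f X : Nd K → ℝ → ℝ} {a : Nd K → ℝ}

lemma ParX.par (h : ParX K lam β) : Par K (lam ^ 2) (lam ^ (6 - 2 * β)) := by
  have hl0 : 0 < lam := by linarith [h.one_lt]
  rcases h.br with ⟨h1, h2⟩ | ⟨h1, h2⟩
  · left
    refine ⟨h1, ?_⟩
    have e : lam ^ (6 - 2 * β) * lam ^ 2 = lam ^ (8 - 2 * β) := by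
      rw [← Real.rpow_natCast lam 2, ← Real.rpow_add hl0]
      congr 1
      push_cast
      ring
    rw [mul_assoc, e]
    exact h2
  · right
    exact ⟨h1, by nlinarith⟩

lemma wt_split (hl : 0 < lam) (n : ℕ) :
    wt lam β n = lam ^ (β - 4) * lam ^ ((β - 2) * (n : ℝ)) := by
  unfold wt
  rw [Real.rpow_add hl]

lemma crit_iff (hl : 0 < lam) {s : ℝ} : Tl s T (cr lam β X) ↔ Crit lam β s T X := by
  have hq : 0 < lam ^ (β - 4) := Real.rpow_pos_of_pos hl _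
  have key : ∀ (w : Nd K) (t : ℝ), |cr lam β X w t| =
      lam ^ (β - 4) * (lam ^ ((β - 2) * (w.length : ℝ)) * |X w t|) := by
    intro w t
    unfold cr
    rw [abs_mul, abs_of_pos (wt_pos hl _), wt_split hl, mul_assoc]
  constructor
  · intro h ε hε
    obtain ⟨m, hm⟩ := h (lam ^ (β - 4) * ε) (by positivity)
    refine ⟨m, fun w hw t ht => ?_⟩
    have := hm w hw t ht
    rw [key] at this
    exact le_of_mul_le_mul_left this hq
  · intro h ε hε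
    obtain ⟨m, hm⟩ := h (ε / lam ^ (β - 4)) (by positivity)
    refine ⟨m, fun w hw t ht => ?_⟩
    rw [key]
    have := hm w hw t ht
    rw [le_div_iff₀ hq] at this
    linarith

lemma critD_iff (hl : 0 < lam) : Dt (fun w => wt lam β w.length * a w) ↔ CritD lam β a := by
  have hq : 0 < lam ^ (β - 4) := Real.rpow_pos_of_pos hl _
  have key : ∀ (w : Nd K), |wt lam β w.length * a w| =
      lam ^ (β - 4) * (lam ^ ((β - 2) * (w.length : ℝ)) * |a w|) := by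
    intro w
    rw [abs_mul, abs_of_pos (wt_pos hl _), wt_split hl, mul_assoc]
  constructor
  · intro h ε hε
    obtain ⟨m, hm⟩ := h (lam ^ (β - 4) * ε) (by positivity)
    refine ⟨m, fun w hw => ?_⟩
    have := hm w hw
    rw [key] at this
    exact le_of_mul_le_mul_left this hq
  · intro h ε hε
    obtain ⟨m, hm⟩ := h (ε / lam ^ (β - 4)) (by positivity)
    refine ⟨m, fun w hw => ?_⟩
    rw [key]
    have := hm w hw
    rw [le_div_iff₀ hq] at this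
    linarith

/-- Weak solutions: energy inequality from time zero only. -/
structure WX {K : ℕ} (lam β ν T : ℝ) (f : Nd K → ℝ → ℝ) (a : Nd K → ℝ) (X : Nd K → ℝ → ℝ) :
    Prop where
  sol : SolX lam β ν T f a X
  en : ∃ E : ℝ, ∀ t ∈ Icc 0 T, Summable (fun w => X w t ^ 2) ∧ enX X t ≤ E
  fin : ∀ᵐ t : ℝ, t ∈ Icc 0 T → Summable fun w : Nd K => lam ^ (2 * w.length) * X w t ^ 2
  dis : IntervalIntegrable (disX lam X) volume 0 T
  zero : ∀ t ∈ Icc 0 T, EIX lam ν f X 0 t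

lemma WX.fe (h : WX lam β ν T f a X) : FE lam T X := ⟨h.en, h.fin, h.dis⟩

lemma WX.en' (hl : 1 < lam) (h : WX lam β ν T f a X) :
    ∃ E : ℝ, ∀ N, ∀ t ∈ Icc 0 T, PE (lam ^ 2) (lam ^ (6 - 2 * β)) (cr lam β X) N t ≤ E := by
  have hl0 : 0 < lam := by linarith
  have hc0 : 0 < c0 lam β := c0_pos hl0
  obtain ⟨E, hE⟩ := h.en
  refine ⟨c0 lam β * E, fun N t ht => ?_⟩
  rw [PE_cr hl0]
  exact mul_le_mul_of_nonneg_left ((sm_le_tsum (fun w => sq_nonneg _) (hE t ht).1 N).trans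
    (hE t ht).2) hc0.le

lemma WX.dis' (hl : 1 < lam) (hT : 0 < T) (h : WX lam β ν T f a X) :
    ∃ D : ℝ, ∀ N, (∫ t in (0:ℝ)..T, PD (lam ^ (6 - 2 * β)) (cr lam β X) N t) ≤ D := by
  have hl0 : 0 < lam := by linarith
  have hc0 : 0 < c0 lam β := c0_pos hl0
  refine ⟨∫ r in (0:ℝ)..T, c0 lam β * disX lam X r, fun N => ?_⟩
  have hPDc : ContinuousOn (PD (lam ^ (6 - 2 * β)) (cr lam β X) N) (Icc 0 T) :=
    Pool.Agent.Q58.DT.PD_cont fun w _ => cont_cr (cont_X h.sol) w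
  apply intervalIntegral.integral_mono_ae_restrict hT.le
    (hPDc.intervalIntegrable_of_Icc hT.le) (h.dis.const_mul _)
  rw [EventuallyLE, ae_restrict_iff' measurableSet_Icc]
  filter_upwards [h.fin] with r hr hrI
  rw [PD_cr hl0]
  exact mul_le_mul_of_nonneg_left (sm_le_tsum (fun w => by positivity) (hr hrI) N) hc0.le

/-- Weak-strong uniqueness in the critical variables. -/
theorem weak_unique {L g k EF : ℝ} {F V W : Nd K → ℝ → ℝ} {h : ℕ → ℝ} (hTTR : P_TTR)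
    (hP : Par K L g) (hL : 1 < L) (hg : 1 ≤ g) (hk : 0 < k)
    (hT : 0 < T) (hF : Frc L g T EF F h) (hV : Sol L g k T F V)
    (hVE : ∃ E : ℝ, ∀ N, ∀ t ∈ Icc 0 T, PE L g V N t ≤ E)
    (hVD : ∃ D : ℝ, ∀ N, (∫ t in (0:ℝ)..T, PD g V N t) ≤ D)
    (hVz : ∀ t ∈ Icc 0 T, EI g V 0 t) (hW : LH L g k T F W)
    (heq : ∀ w, V w 0 = W w 0) (hDt : Dt (fun w => W w 0)) :
    ∀ w, ∀ t ∈ Icc 0 T, V w t = W w t := by
  obtain ⟨E, hE⟩ := hW.en
  obtain ⟨D, hD⟩ := hW.dis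
  obtain ⟨E1, hE1⟩ := hVE
  obtain ⟨D1, hD1⟩ := hVD
  have h0I : (0:ℝ) ∈ Icc 0 T := ⟨le_rfl, hT.le⟩
  obtain ⟨Z, M, m, E', hZ, hZ0, hRC, hZ1, hZ2, hTl⟩ := strong hTTR hP hL hg hk hT hF hDt (E0 := E)
    (fun N => hE N 0 h0I)
  have h1 := Pool.Agent.Q257.DT.t_TWS K L g k T EF M (max E' (max E D)) F Z W h
    hP.one_le hL hg hk hT hF hZ hW.sol hZ0 hRC.bd hTl
    (fun N t ht => (hZ1 N t ht).trans (le_max_left _ _))
    (fun N => (hZ2 N).trans (le_max_left _ _))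
    (fun N t ht => ((hE N t ht).trans (le_max_left _ _)).trans (le_max_right _ _))
    (fun N => ((hD N).trans (le_max_right _ _)).trans (le_max_right _ _)) hW.zero
  have h2 := Pool.Agent.Q257.DT.t_TWS K L g k T EF M (max E' (max E1 D1)) F Z V h
    hP.one_le hL hg hk hT hF hZ hV (fun w => by rw [hZ0, heq]) hRC.bd hTl
    (fun N t ht => (hZ1 N t ht).trans (le_max_left _ _))
    (fun N => (hZ2 N).trans (le_max_left _ _))
    (fun N t ht => ((hE1 N t ht).trans (le_max_left _ _)).trans (le_max_right _ _))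
    (fun N => ((hD1 N).trans (le_max_right _ _)).trans (le_max_right _ _)) hVz
  intro w t ht
  rw [← h1 w t ht, ← h2 w t ht]

lemma data_cr (h0 : ∀ w, X w 0 = a w) (w : Nd K) : cr lam β X w 0 = wt lam β w.length * a w := by
  unfold cr
  rw [h0]

/-- The main theorem. -/
theorem main (hP : ParX K lam β) (hν : 0 < ν) (hT : 0 < T) (hf : ForceX T f) :
    (∀ a : Nd K → ℝ, Summable (fun w => a w ^ 2) → ∃ X, LHX lam β ν T f a X) ∧
    (∀ (a : Nd K → ℝ) (X : Nd K → ℝ → ℝ), LHX lam β ν T f a X →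
      (∀ s t : ℝ, 0 ≤ s → s ≤ t → t ≤ T → EEX lam ν f X s t) ∧
      (∀ t0 : ℝ, 0 < t0 → t0 ≤ T → Crit lam β t0 T X) ∧
      (Rap lam 0 T f → ∀ t0 : ℝ, 0 < t0 → t0 ≤ T → Rap lam t0 T X) ∧
      (Rap lam 0 T f → RapD lam a → Rap lam 0 T X) ∧
      (CritD lam β a → Crit lam β 0 T X ∧
        ∀ Y, WX lam β ν T f a Y → ∀ w, ∀ t ∈ Icc 0 T, Y w t = X w t)) ∧
    (∀ a : Nd K → ℝ, (Summable fun w : Nd K => lam ^ (2 * w.length) * a w ^ 2) → CritD lam β a) ∧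
    ((∀ w, ∀ t ∈ Icc 0 T, 0 ≤ f w t) → ∀ a : Nd K → ℝ, (∀ w, 0 ≤ a w) →
      Summable (fun w => a w ^ 2) → ∀ X, SolX lam β ν T f a X →
        LHX lam β ν T f a X ∧ (∀ w, ∀ t ∈ Icc 0 T, 0 ≤ X w t) ∧
        ∀ Y, SolX lam β ν T f a Y → ∀ w, ∀ t ∈ Icc 0 T, Y w t = X w t) := by
  have hl := hP.one_lt
  have hl0 : 0 < lam := by linarith
  have hPar := hP.par
  have hL : 1 < lam ^ 2 := one_lt_pow₀ hl (by norm_num)
  have hg : 1 ≤ lam ^ (6 - 2 * β) := Real.one_le_rpow hl.le (by linarith [hP.le_three])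
  obtain ⟨EF, hF⟩ := frc_cr hl hP.le_three hf
  have hTTR : P_TTR := Pool.Agent.Q98.DT.t_TTR Pool.Agent.Q58.DT.ten
  have hhf : Rap lam 0 T f → ∀ q : ℝ, 0 < q → q < 1 → ∃ C : ℝ, ∀ n, DT.hf lam β T f n ≤ C * q ^ n :=
    fun hR q hq _ => hf_rap hl hR hq
  have hPE0 : ∀ a : Nd K → ℝ, Summable (fun w => a w ^ 2) → ∀ N,
      (sm N fun w => (lam ^ (6 - 2 * β) / lam ^ 2) ^ w.length * (wt lam β w.length * a w) ^ 2)
        ≤ c0 lam β * ∑' w, a w ^ 2 := by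
    intro a ha N
    have e : (fun w : Nd K => (lam ^ (6 - 2 * β) / lam ^ 2) ^ w.length *
        (wt lam β w.length * a w) ^ 2) = fun w => c0 lam β * a w ^ 2 := by
      funext w
      rw [mul_pow, ← mul_assoc, wt_e hl0]
    rw [e, Pool.Agent.Q58.DT.sm_mul]
    exact mul_le_mul_of_nonneg_left (sm_le_tsum (fun w => sq_nonneg _) ha N) (c0_pos hl0).le
  refine ⟨fun a ha => ?_, fun a X hX => ⟨fun s t hs hst htT => ?_, fun t0 ht0 ht0T => ?_,
    fun hR t0 ht0 ht0T => ?_, fun hR hRD => ?_, fun hC => ?_⟩, fun a ha => ?_,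
    fun hfn a ha hsa X hX => ?_⟩
  · obtain ⟨V, hV, hV0⟩ := Pool.Agent.Q176.DT.t_TLH Pool.Agent.Q58.DT.ten hTTR
      Pool.Agent.Q58.DT.teb Pool.Agent.Q98.DT.t_TCP K (lam ^ 2) (lam ^ (6 - 2 * β)) ν T EF
      (c0 lam β * ∑' w, a w ^ 2) (cr lam β f) (DT.hf lam β T f)
      (fun w => wt lam β w.length * a w) hPar.one_le hL hg hν hT hF (hPE0 a ha)
    obtain ⟨X, rfl, hX⟩ := SolX_of hl0 hV.sol hV0
    exact ⟨X, LHX_of hl hT hf hX hV⟩
  · exact EEX_of hl hf hX.sol hX.fe hs hst htT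
      ((hX.lh hl hT hf).ee hTTR hPar hL hg hν hT hF hs hst htT)
  · exact (crit_iff hl0).1 ((hX.lh hl hT hf).reg hTTR hPar hL hg hν hF ht0 ht0T).1
  · refine rap_of (β := β) hl fun q hq hq1 => ?_
    exact (hX.lh hl hT hf).smooth hTTR hPar hL hg hν hF (hhf hR) hq hq1 ht0 ht0T
  · refine rap_of (β := β) hl fun q hq hq1 => ?_
    refine (hX.lh hl hT hf).smooth0 hTTR hPar hL hg hν hT hF (hhf hR) ?_ hq hq1
    intro q hq _
    obtain ⟨C, hC⟩ := of_rapD (β := β) hl hRD hq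
    refine ⟨C, fun w => ?_⟩
    rw [data_cr hX.sol.1]
    exact hC w
  · have hDt : Dt fun w => cr lam β X w 0 := by
      have : (fun w => cr lam β X w 0) = fun w => wt lam β w.length * a w := by
        funext w
        exact data_cr hX.sol.1 w
      rw [this]
      exact (critD_iff hl0).2 hC
    refine ⟨?_, fun Y hY w t ht => ?_⟩
    · obtain ⟨M, m, _, h2⟩ := from_time hTTR hPar hL hg hν hF (hX.lh hl hT hf) le_rfl hT
        (fun t ht => (hX.lh hl hT hf).zero t ht) hDt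
      have e : sh 0 (cr lam β X) = cr lam β X := by funext w t; simp [sh]
      rw [e, sub_zero] at h2
      exact (crit_iff hl0).1 h2
    · have h1 := weak_unique hTTR hPar hL hg hν hT hF (sol_cr hl0 hY.sol) (hY.en' hl)
        (hY.dis' hl hT) (fun t ht => (EIX_iff hl hf hY.sol hY.fe le_rfl ht.1 ht.2).2 (hY.zero t ht))
        (hX.lh hl hT hf) (fun w => by rw [data_cr hX.sol.1, data_cr hY.sol.1]) hDt w t ht
      unfold cr at h1
      exact mul_left_cancel₀ (wt_pos hl0 _).ne' h1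
  · exact (critD_iff hl0).1 (Dt_of_enstrophy hl hP.le_three ha)
  · have hfn' : ∀ w, ∀ t ∈ Icc 0 T, 0 ≤ cr lam β f w t := fun w t ht =>
      mul_nonneg (wt_pos hl0 _).le (hfn w t ht)
    have hnn : ∀ Y, SolX lam β ν T f a Y → ∀ w, ∀ t ∈ Icc 0 T, 0 ≤ cr lam β Y w t := by
      intro Y hY
      refine t_TNN K (lam ^ 2) (lam ^ (6 - 2 * β)) ν T (cr lam β f) (cr lam β Y) (by positivity)
        (sol_cr hl0 hY) hfn' fun w => ?_
      rw [data_cr hY.1]
      exact mul_nonneg (wt_pos hl0 _).le (ha w)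
    have hE0 : ∀ N, PE (lam ^ 2) (lam ^ (6 - 2 * β)) (cr lam β X) N 0 ≤
        c0 lam β * ∑' w, a w ^ 2 := by
      intro N
      refine le_trans (le_of_eq ?_) (hPE0 a hsa N)
      unfold PE
      congr 1
      funext w
      rw [data_cr hX.1]
    have hLH := nonneg_LH hPar.one_le hL hg hν hT hF (sol_cr hl0 hX) (hnn X hX) hE0
    refine ⟨LHX_of hl hT hf hX hLH, fun w t ht => ?_, fun Y hY w t ht => ?_⟩
    · exact nonneg_of_mul_nonneg_right (hnn X hX w t ht) (wt_pos hl0 w.length)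
    · have h1 := nonneg_unique hTTR hPar hL hg hν hT hF (sol_cr hl0 hX) (sol_cr hl0 hY)
        (hnn X hX) (hnn Y hY) hE0 (fun w => by rw [data_cr hX.1, data_cr hY.1]) w t ht
      unfold cr at h1
      exact (mul_left_cancel₀ (wt_pos hl0 _).ne' h1).symm

end

end Pool.Agent.Q186.DT
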