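import Pool.Agent.Q186.DT.RegT

/-!
# Project DT: the invariant region for trees, conclusion
-/

namespace Pool.Agent.Q186.DT

open Set Filter Topology

noncomputable section

variable {K : ℕ} {L g k T M1 EF E0 : ℝ} {N m0 : ℕ} {F U : Nd K → ℝ → ℝ} {a : Nd K → ℝ}
  {h : ℕ → ℝ}

/-- The choice of the generation from which everything is small. -/
lemma exists_m0 (hK : 1 ≤ K) (hg : 1 ≤ g) (hk : 0 < k) (hF : Frc L g T EF F h) (ha : Dt a) :
    ∃ m0, Sml K g k m0 h ∧ ∀ w : Nd K, m0 ≤ w.length → |a w| ≤ k/8 ∧ |a w| ≤ sg K g k / 2 := by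
  have hσ := sg_pos hK hg hk
  have h1 := hF.lim.eventually (gt_mem_nhds (show (0:ℝ) < min (k^2/1000) (sg K g k * k/2) by
    positivity))
  obtain ⟨m1, hm1⟩ := eventually_atTop.1 h1
  obtain ⟨m2, hm2⟩ := ha (min (k/8) (sg K g k / 2)) (by positivity)
  refine ⟨max m1 m2, fun n hn => ?_, fun w hw => ?_⟩
  · have h2 := hm1 n ((le_max_left _ _).trans hn)
    exact ⟨h2.le.trans (min_le_left _ _), h2.le.trans (min_le_right _ _)⟩
  · have h2 := hm2 w ((le_max_right _ _).trans hw)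
    exact ⟨h2.trans (min_le_left _ _), h2.trans (min_le_right _ _)⟩

lemma term_le_sm {f : Nd K → ℝ} (hf : ∀ w, 0 ≤ f w) {w : Nd K} {N : ℕ} (hw : w.length ≤ N) :
    f w ≤ sm N f := by
  unfold sm
  have h1 : f w ≤ ∑ u ∈ lev K w.length, f u :=
    Finset.single_le_sum (fun u _ => hf u) ((mem_lev _ _).2 rfl)
  have h2 : ∑ u ∈ lev K w.length, f u ≤ ∑ n ∈ Finset.range (N+1), ∑ u ∈ lev K n, f u :=
    Finset.single_le_sum (f := fun n => ∑ u ∈ lev K n, f u)
      (fun n _ => Finset.sum_nonneg fun u _ => hf u) (Finset.mem_range.2 (by omega))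
  exact h1.trans h2

/-- A priori bound of the low generations. -/
lemma low_bound (hTEB : P_TEB) (hL : 1 < L) (hg : 1 ≤ g) (hk : 0 < k) (hT : 0 < T)
    (hF : Frc L g T EF F h) (hE0 : ∀ N, (sm N fun w => (g / L) ^ w.length * a w ^ 2) ≤ E0)
    (m0 : ℕ) : ∃ C0 : ℝ, 0 ≤ C0 ∧ ∀ (N : ℕ) (U : Nd K → ℝ → ℝ), TrT L g k T N F a U →
      ∀ w : Nd K, w.length ≤ m0 → w.length ≤ N → ∀ t ∈ Icc 0 T, |U w t| ≤ C0 := by
  refine ⟨Real.sqrt (L^m0 * ((E0 + T * EF) * Real.exp T)), Real.sqrt_nonneg _,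
    fun N U hU w hw hwN t ht => ?_⟩
  have hinit : PE L g U N 0 ≤ E0 := by
    have h1 : PE L g U N 0 = sm N fun w => (g / L) ^ w.length * a w ^ 2 := by
      unfold PE sm
      apply Finset.sum_congr rfl
      intro n hn
      apply Finset.sum_congr rfl
      intro u hu
      show (g / L) ^ u.length * U u 0 ^ 2 = (g / L) ^ u.length * a u ^ 2
      rw [hU.init u (by rw [(mem_lev _ _).1 hu]; simpa [Nat.lt_succ_iff] using hn)]
    rw [h1]; exact hE0 N
  have h2 := hTEB K L g k T EF E0 N F h a U hL.le hg hk hT hF hU hinit t ht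
  have h3 : (g/L)^w.length * U w t ^ 2 ≤ PE L g U N t :=
    term_le_sm (f := fun w => (g/L)^w.length * U w t ^ 2) (fun w => by positivity) hwN
  have hL0 : 0 < L := by linarith
  have h4 : U w t ^ 2 ≤ L^m0 * ((E0 + T * EF) * Real.exp T) := by
    have h5 : (1/L)^w.length * U w t ^ 2 ≤ (E0 + T * EF) * Real.exp T := by
      refine le_trans ?_ (h3.trans h2)
      apply mul_le_mul_of_nonneg_right _ (sq_nonneg _)
      apply pow_le_pow_left₀ (by positivity)
      exact div_le_div_of_nonneg_right hg hL0.le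
    have h6 : 0 ≤ (E0 + T * EF) * Real.exp T := le_trans (by positivity) h5
    rw [one_div, inv_pow, ← div_eq_inv_mul, div_le_iff₀ (by positivity)] at h5
    have h7 : L^w.length ≤ L^m0 := pow_le_pow_right₀ hL.le hw
    nlinarith
  exact Real.abs_le_sqrt h4

theorem reg_T (hTEB : P_TEB) (hK : 2 ≤ K) (hLG : 12 ≤ (K:ℝ) * g * L) (hL : 1 < L) (hg : 1 ≤ g)
    (hk : 0 < k) (hT : 0 < T) (hF : Frc L g T EF F h) (ha : Dt a)
    (hE0 : ∀ N, (sm N fun w => (g / L) ^ w.length * a w ^ 2) ≤ E0) :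
    ∃ (M : ℝ) (m : ℕ), ∀ (N : ℕ) (U : Nd K → ℝ → ℝ), TrT L g k T N F a U →
    ∀ w : Nd K, w.length ≤ N → ∀ t ∈ Icc 0 T, |U w t| ≤ M ∧
      (m ≤ w.length → -sg K g k ≤ U w t ∧ U w t ≤ k / 2) := by
  have hK1 : 1 ≤ K := by omega
  have hσ := sg_pos hK1 hg hk
  have hσ1 := sg_le hK1 hg hk
  have hσ2 := sg_le' hK1 hg hk
  obtain ⟨m0, hsm, ham⟩ := exists_m0 hK1 hg hk hF ha
  obtain ⟨C0, hC0, hlow⟩ := low_bound hTEB hL hg hk hT hF hE0 m0
  have hM1 : k/2 ≤ C0 + k := by linarith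
  obtain ⟨m1, hm1⟩ := Mn_end (M1 := C0 + k) hk m0
  refine ⟨C0 + k, max m0 m1, fun N U hU => ?_⟩
  have hMpos : ∀ n, 0 < Mn k (C0+k) m0 n := fun n =>
    lt_of_lt_of_le (by positivity) (Mn_low k (C0+k) m0 n)
  have hcont : ∀ w : Nd K, w.length ≤ N + 1 → ContinuousOn (U w) (Icc 0 T) :=
    fun w hw => cont_TrT hU hw
  have key := Pool.Agent.Q58.DY.t_BAR (Nd K × ℕ) (Ix K m0 N) (Ph g k (C0+k) m0 U) T hT.le ?_ ?_ ?_
  · intro w hwN t ht
    rcases Nat.lt_or_ge w.length m0 with h1 | h1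
    · refine ⟨(hlow N U hU w h1.le hwN t ht).trans (by linarith), fun h2 => ?_⟩
      exfalso
      have := le_trans (le_max_left _ _) h2
      omega
    · have k0 := key t ht.1 ht.2 (w, 0) (mem_Ix.2 ⟨⟨h1, hwN⟩, by norm_num⟩)
      have k1 := key t ht.1 ht.2 (w, 1) (mem_Ix.2 ⟨⟨h1, hwN⟩, by norm_num⟩)
      simp only [Ph, if_true] at k0
      simp only [Ph, one_ne_zero, if_false, if_true] at k1
      have h2 := Mn_le (M1 := C0 + k) hk hM1 h1
      refine ⟨abs_le.2 ⟨by linarith, by linarith⟩, fun h3 => ⟨by linarith, ?_⟩⟩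
      have h4 := hm1 w.length (le_trans (le_max_right _ _) h3)
      linarith
  · rintro ⟨w, j⟩ hi
    obtain ⟨⟨hw0, hwN⟩, hj⟩ := mem_Ix.1 hi
    have c1 := hcont w (by omega)
    have c2 : ContinuousOn (ch U w) (Icc 0 T) := by
      unfold ch
      exact continuousOn_finsetSum _ fun i _ => hcont (i :: w) (by simp; omega)
    interval_cases j
    · have h2 : Ph g k (C0+k) m0 U (w, 0) = fun s => U w s + sg K g k := by
        funext s; simp [Ph]
      rw [h2]; fun_prop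
    · have h2 : Ph g k (C0+k) m0 U (w, 1) = fun s => Mn k (C0+k) m0 w.length - U w s := by
        funext s; simp [Ph]
      rw [h2]; fun_prop
    · have h2 : Ph g k (C0+k) m0 U (w, 2) = fun s => Mn k (C0+k) m0 w.length *
            (g * ch U w s + 3/4*k) - 9/4 * U w s ^ 2 + 5/4 * Mn k (C0+k) m0 w.length ^ 2 := by
        funext s; simp [Ph]
      rw [h2]; fun_prop
  · rintro ⟨w, j⟩ hi
    obtain ⟨⟨hw0, hwN⟩, hj⟩ := mem_Ix.1 hi
    obtain ⟨ha1, ha2⟩ := ham w hw0
    have ha3 := abs_le.1 ha1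
    have ha4 := abs_le.1 ha2
    have hm := hMpos w.length
    have hl := Mn_low k (C0+k) m0 w.length
    have h0 : (0:ℝ) ∈ Icc 0 T := ⟨le_rfl, hT.le⟩
    have hUw : U w 0 = a w := hU.init w hwN
    interval_cases j
    · simp only [Ph, if_true, hUw]; linarith
    · simp only [Ph, one_ne_zero, if_false, if_true, hUw]; linarith
    · have hch : -(K * sg K g k) ≤ ch U w 0 := by
        have h1 : ∑ _i : Fin K, (-sg K g k) ≤ ch U w 0 := by
          refine Finset.sum_le_sum fun i _ => ?_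
          rcases Nat.lt_or_ge w.length N with h3 | h3
          · rw [hU.init (i :: w) (by simp; omega)]
            have := (abs_le.1 (ham (i :: w) (by simp; omega)).2).1
            linarith
          · rw [hU.last i w (by omega) 0 h0]
            exact le_trans (by linarith) (le_max_right _ _)
        simpa using h1
      have h4 := mul_le_mul_of_nonneg_left hch (show 0 ≤ g by linarith)
      have h5 : 0 < g * ch U w 0 + 3/4*k := by linarith
      have h6 := mul_pos hm h5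
      have h7 : U w 0 ^ 2 ≤ (k/8)^2 := by
        rw [hUw, ← sq_abs]
        exact pow_le_pow_left₀ (abs_nonneg _) ha1 2
      have : 0 < Mn k (C0+k) m0 w.length * (g * ch U w 0 + 3/4*k) - 9/4 * U w 0 ^ 2
          + 5/4 * Mn k (C0+k) m0 w.length ^ 2 := by nlinarith
      simpa [Ph] using this
  · intro t ht0 htT i hi hall h0
    exact barrier_T hK hLG hL hg hk hF hsm hM1 hU ht0 htT
      (fun w h1 h2 => (hlow N U hU w h1.le h2 t ⟨ht0.le, htT⟩).trans (by linarith)) i hi hall h0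

end

end Pool.Agent.Q186.DT
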