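import Pool.Agent.Q186.DT.BarS
import Pool.Agent.Q186.DT.RegT2

/-!
# Project DT: the invariant region of the shell model (`K = 1`), signed version
-/

namespace Pool.Agent.Q186.DT

open Set Filter Topology

noncomputable section

/-- The bounds of the region of the shell model. -/
def Mc (k M1 : ℝ) (m0 n : ℕ) : ℝ := max (k/2) (M1 - k/200*((n:ℝ) - m0))

lemma Mc_low (k M1 : ℝ) (m0 n : ℕ) : k/2 ≤ Mc k M1 m0 n := le_max_left _ _

lemma Mc_anti {k M1 : ℝ} (hk : 0 < k) (m0 n : ℕ) : Mc k M1 m0 (n+1) ≤ Mc k M1 m0 n := by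
  apply max_le_max le_rfl
  push_cast
  nlinarith

lemma Mc_anti2 {k M1 : ℝ} (hk : 0 < k) (m0 : ℕ) {n m : ℕ} (h : n ≤ m) :
    Mc k M1 m0 m ≤ Mc k M1 m0 n := by
  induction m, h using Nat.le_induction with
  | base => exact le_rfl
  | succ m _ ih => exact (Mc_anti hk m0 m).trans ih

lemma Mc_step {k M1 : ℝ} (hk : 0 < k) (m0 n : ℕ) : Mc k M1 m0 n ≤ Mc k M1 m0 (n+1) + k/200 := by
  unfold Mc
  apply max_le
  · have := le_max_left (k/2) (M1 - k/200*(((n+1 : ℕ):ℝ) - m0))
    linarith
  · have := le_max_right (k/2) (M1 - k/200*(((n+1 : ℕ):ℝ) - m0))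
    push_cast at this ⊢
    nlinarith

lemma Mc_top {k M1 : ℝ} (h : k/2 ≤ M1) (m0 : ℕ) : Mc k M1 m0 m0 = M1 := by
  unfold Mc; simp [h]

lemma Mc_le {k M1 : ℝ} (hk : 0 < k) (h : k/2 ≤ M1) {m0 n : ℕ} (hn : m0 ≤ n) :
    Mc k M1 m0 n ≤ M1 := by
  have := Mc_anti2 (M1 := M1) hk m0 hn
  rwa [Mc_top h] at this

lemma Mc_end {k M1 : ℝ} (hk : 0 < k) (m0 : ℕ) : ∃ m : ℕ, ∀ n, m ≤ n → Mc k M1 m0 n = k/2 := by
  obtain ⟨p, hp⟩ := exists_nat_gt (200*M1/k)
  refine ⟨m0 + p, fun n hn => ?_⟩
  unfold Mc
  apply max_eq_left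
  have h1 : ((m0 : ℝ) + p) ≤ n := by exact_mod_cast hn
  rw [div_lt_iff₀ hk] at hp
  nlinarith

variable {L g k T M1 C0 EF E0 : ℝ} {N m0 : ℕ} {F U : Nd 1 → ℝ → ℝ} {a : Nd 1 → ℝ} {h : ℕ → ℝ}

lemma ch_one (U : Nd 1 → ℝ → ℝ) (w : Nd 1) (t : ℝ) : ch U w t = U (0 :: w) t := by
  simp [ch]

/-- The constraints of the shell model. -/
def Pc (g k M1 : ℝ) (m0 : ℕ) (U : Nd 1 → ℝ → ℝ) (i : Nd 1 × ℕ) (t : ℝ) : ℝ :=
  if i.2 = 0 then U i.1 t + sg 1 g k
  else if i.2 = 1 then Mc k M1 m0 i.1.length - U i.1 t
  else if i.2 = 2 then Mc k M1 m0 i.1.length * (g * U (0 :: i.1) t + 97/100*k)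
    - 109/100 * U i.1 t ^ 2 + 9/100 * Mc k M1 m0 i.1.length ^ 2
  else if i.2 = 3 then 19/40 * Mc k M1 m0 i.1.length + 21/40 * U i.1 t + 3/50*k
    + 53/1000*(g-1)*Mc k M1 m0 i.1.length - U (0 :: i.1) t
  else if i.1.length = m0 then 19/40 * Mc k M1 m0 i.1.length + 3/50*k
    + 53/1000*(g-1)*Mc k M1 m0 i.1.length - U i.1 t
  else 1

/-- The index set. -/
def Jx (m0 N : ℕ) : Finset (Nd 1 × ℕ) :=
  (((Finset.range (N+1)).filter (fun n => m0 ≤ n)).biUnion (lev 1)) ×ˢ Finset.range 5

lemma mem_Jx {w : Nd 1} {j : ℕ} :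
    (w, j) ∈ Jx m0 N ↔ (m0 ≤ w.length ∧ w.length ≤ N) ∧ j < 5 := by
  simp only [Jx, Finset.mem_product, Finset.mem_biUnion, Finset.mem_filter, Finset.mem_range,
    mem_lev]
  constructor
  · rintro ⟨⟨n, ⟨h1, h2⟩, h3⟩, h4⟩
    subst h3
    exact ⟨⟨h2, by omega⟩, h4⟩
  · rintro ⟨⟨h1, h2⟩, h3⟩
    exact ⟨⟨w.length, ⟨by omega, h1⟩, rfl⟩, h3⟩

lemma sg_one (g k : ℝ) (hg : 1 ≤ g) (hk : 0 < k) : g * (sg 1 g k * k / 2) ≤ k^2/6000 := by
  unfold sg
  have h1 : 0 < g := by linarith
  have e : g * (k / (1000 * (((1:ℕ):ℝ) * g) * (((1:ℕ):ℝ) * g + 2)) * k / 2)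
      = k^2/(2000*(g+2)) := by
    push_cast
    field_simp
    ring
  rw [e]
  apply div_le_div_of_nonneg_left (by positivity) (by norm_num)
  linarith

lemma barrier_C (hL : 4 ≤ L) (hg : 1 ≤ g) (hk : 0 < k)
    (hF : Frc L g T EF F h) (hsm : Sml 1 g k m0 h) (hC0 : 0 ≤ C0) (hM1 : M1 = 4 * C0 + k)
    (hU : TrT L g k T N F a U) {t : ℝ} (ht : 0 < t) (htT : t ≤ T)
    (hlow : ∀ w : Nd 1, w.length < m0 → w.length ≤ N → |U w t| ≤ C0) (i : Nd 1 × ℕ)
    (hi : i ∈ Jx m0 N) (hall : ∀ j ∈ Jx m0 N, 0 ≤ Pc g k M1 m0 U j t)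
    (h0 : Pc g k M1 m0 U i t = 0) :
    ∃ d, 0 < d ∧ HasDerivWithinAt (Pc g k M1 m0 U i) d (Iic t) t := by
  have hσ : 0 < sg 1 g k := sg_pos le_rfl hg hk
  have hσ1 : g * sg 1 g k ≤ k/3000 := by simpa using sg_le (K := 1) le_rfl hg hk
  have hσ2 : sg 1 g k ≤ k/3000 := sg_le' (K := 1) le_rfl hg hk
  have htI : t ∈ Icc 0 T := ⟨ht.le, htT⟩
  have hg0 : 0 < g := by linarith
  have hM1k : k/2 ≤ M1 := by linarith
  set M := Mc k M1 m0 with hMdef
  have hMlow : ∀ n, k/2 ≤ M n := Mc_low k M1 m0
  have hMpos : ∀ n, 0 < M n := fun n => lt_of_lt_of_le (by positivity) (hMlow n)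
  have hkM : ∀ n, k ≤ 2 * M n := fun n => by linarith [hMlow n]
  have hgM : ∀ n, 0 ≤ 53/1000*(g-1)*M n := fun n =>
    mul_nonneg (by linarith) (hMpos n).le
  -- the bounds at time t
  have hlo : ∀ w : Nd 1, m0 ≤ w.length → w.length ≤ N → -sg 1 g k ≤ U w t := by
    intro w h1 h2
    have := hall (w, 0) (mem_Jx.2 ⟨⟨h1, h2⟩, by norm_num⟩)
    simp only [Pc, if_true] at this
    linarith
  have hhi : ∀ w : Nd 1, m0 ≤ w.length → w.length ≤ N → U w t ≤ M w.length := by
    intro w h1 h2
    have := hall (w, 1) (mem_Jx.2 ⟨⟨h1, h2⟩, by norm_num⟩)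
    simp only [Pc, one_ne_zero, if_false, if_true] at this
    linarith
  have hB : ∀ w : Nd 1, m0 ≤ w.length → w.length ≤ N →
      109/100 * U w t ^ 2 ≤ M w.length * (g * U (0 :: w) t + 97/100*k)
        + 9/100 * M w.length ^ 2 := by
    intro w h1 h2
    have := hall (w, 2) (mem_Jx.2 ⟨⟨h1, h2⟩, by norm_num⟩)
    simp [Pc] at this
    linarith
  have hC : ∀ w : Nd 1, m0 ≤ w.length → w.length ≤ N →
      U (0 :: w) t ≤ 19/40 * M w.length + 21/40 * U w t + 3/50*k
        + 53/1000*(g-1)*M w.length := by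
    intro w h1 h2
    have := hall (w, 3) (mem_Jx.2 ⟨⟨h1, h2⟩, by norm_num⟩)
    simp [Pc] at this
    linarith
  have hC' : ∀ w : Nd 1, w.length = m0 → w.length ≤ N →
      U w t ≤ 19/40 * M w.length + 3/50*k + 53/1000*(g-1)*M w.length := by
    intro w h1 h2
    have := hall (w, 4) (mem_Jx.2 ⟨⟨h1.ge, h2⟩, by norm_num⟩)
    simp [Pc, h1] at this
    rw [h1]
    linarith
  -- the child
  have hclo : ∀ (w : Nd 1), m0 ≤ w.length → w.length ≤ N → -sg 1 g k ≤ U (0 :: w) t := by
    intro w h1 h2
    rcases Nat.lt_or_ge w.length N with h3 | h3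
    · exact hlo (0 :: w) (by simp; omega) (by simp; omega)
    · rw [hU.last 0 w (by omega) t htI]
      exact le_trans (by linarith) (le_max_right _ _)
  have hchi : ∀ (w : Nd 1), m0 ≤ w.length → w.length ≤ N → U (0 :: w) t ≤ M w.length := by
    intro w h1 h2
    rcases Nat.lt_or_ge w.length N with h3 | h3
    · have := hhi (0 :: w) (by simp; omega) (by simp; omega)
      simp only [List.length_cons] at this
      exact this.trans (Mc_anti hk m0 _)
    · rw [hU.last 0 w (by omega) t htI]
      exact max_le (hhi w h1 h2) (hMpos _).le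
  have hr : ∀ w : Nd 1, m0 ≤ w.length → w.length ≤ N → 2999/3000*k ≤ g * U (0 :: w) t + k := by
    intro w h1 h2
    have := mul_le_mul_of_nonneg_left (hclo w h1 h2) hg0.le
    linarith
  -- the parent
  have hpr : ∀ w : Nd 1, m0 ≤ w.length → w.length ≤ N → ∃ ρ, M w.length ≤ ρ ∧
      ρ ≤ M w.length + k/200 ∧ |pr U w t| ≤ ρ ∧
      109/100 * pr U w t ^ 2 ≤ ρ * (g * U w t + 97/100*k) + 9/100 * ρ ^ 2 ∧
      (∃ X : ℝ, X^2 ≤ pr U w t ^ 2 ∧
        U w t ≤ 19/40*ρ + 21/40*X + 3/50*k + 53/1000*(g-1)*ρ) := by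
    intro w h1 h2
    rcases Nat.eq_or_lt_of_le h1 with h3 | h3
    · -- top
      have htop : M w.length = M1 := by rw [← h3, hMdef, Mc_top hM1k]
      have hp : |pr U w t| ≤ C0 := by
        cases w with
        | nil => simpa using hC0
        | cons i u =>
          simp only [List.length_cons] at h2 h3
          exact hlow u (by omega) (by omega)
      have hp2 : pr U w t ^ 2 ≤ C0 ^ 2 := by
        rw [← sq_abs]; exact pow_le_pow_left₀ (abs_nonneg _) hp 2
      refine ⟨M w.length, le_rfl, by linarith, ?_, ?_, 0, ?_, ?_⟩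
      · rw [htop]; linarith
      · have h4 : -(k/3000) ≤ g * U w t := by
          have := mul_le_mul_of_nonneg_left (hlo w h1 h2) hg0.le
          linarith
        have h5 : 0 ≤ M w.length * (g * U w t + 97/100*k) :=
          mul_nonneg (hMpos _).le (by linarith)
        have h6 : 109/100*C0^2 ≤ 9/100*M w.length^2 := by rw [htop]; nlinarith
        linarith
      · have := sq_nonneg (pr U w t)
        linarith
      · have := hC' w h3.symm h2
        linarith
    · -- below the top
      cases w with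
      | nil => simp at h3
      | cons i u =>
        obtain rfl : i = 0 := Subsingleton.elim _ _
        simp only [List.length_cons, pr_cons] at *
        have h4 : m0 ≤ u.length := by omega
        have h5 : u.length ≤ N := by omega
        refine ⟨M u.length, Mc_anti hk m0 _, Mc_step hk m0 _, ?_, hB u h4 h5, U u t, le_rfl,
          hC u h4 h5⟩
        rw [abs_le]
        exact ⟨by have := hlo u h4 h5; have := hMlow u.length; linarith, hhi u h4 h5⟩
  obtain ⟨w, j⟩ := i
  obtain ⟨⟨hw0, hwN⟩, hj⟩ := mem_Jx.1 hi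
  obtain ⟨hF1, hF2⟩ := F_le (by linarith : 1 ≤ L) hF (w := w) htI
  obtain ⟨_, hs2⟩ := hsm w.length hw0
  have hLpos : (0:ℝ) < L := by linarith
  have hLn : 0 < L ^ w.length := by positivity
  have hd := deriv_left hU hwN ht htT
  obtain ⟨ρ, hρ0, hρ1, hpX, hpB, X', hX'1, hX'2⟩ := hpr w hw0 hwN
  have hrw := hr w hw0 hwN
  have hm := hMpos w.length
  have hl := hMlow w.length
  have hkmw := hkM w.length
  have hs6 : g * h w.length ≤ k^2/6000 := by
    have := mul_le_mul_of_nonneg_left hs2 hg0.le
    exact this.trans (sg_one g k hg hk)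
  have hs7 : h w.length ≤ k^2/6000 := by
    have := hF.nonneg w.length
    nlinarith
  have evf : vf L g k F U w t = L^w.length * (pr U w t ^ 2 - U w t * (g * U (0 :: w) t + k))
      + F w t := by simp only [vf, ch_one]
  have hk2 : 0 < k^2 := by positivity
  interval_cases j
  · -- lower bound
    have hV : U w t = -sg 1 g k := by simp only [Pc, if_true] at h0; linarith
    refine ⟨vf L g k F U w t, ?_, ?_⟩
    · rw [evf, hV]
      have h1 : L^w.length * (sg 1 g k * (2999/3000*k)) ≤
          L ^ w.length * (pr U w t ^ 2 - -sg 1 g k * (g * U (0 :: w) t + k)) := by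
        apply mul_le_mul_of_nonneg_left _ hLn.le
        nlinarith [sq_nonneg (pr U w t)]
      have h2 : 0 < sg 1 g k * k := by positivity
      have h3 : L^w.length * h w.length ≤ L^w.length * (sg 1 g k * k / 2) :=
        mul_le_mul_of_nonneg_left hs2 hLn.le
      have h4 : 0 < L^w.length * (sg 1 g k * k) := by positivity
      nlinarith
    · have h2 : Pc g k M1 m0 U (w, 0) = fun s => U w s + sg 1 g k := by
        funext s; simp [Pc]
      rw [h2]
      simpa using hd.add_const (sg 1 g k)
  · -- upper bound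
    have hV : U w t = M w.length := by
      simp only [Pc, one_ne_zero, if_false, if_true] at h0; linarith
    refine ⟨-vf L g k F U w t, ?_, ?_⟩
    · have h1 := hB w hw0 hwN
      rw [hV] at h1
      have hP : pr U w t ^ 2 ≤ (M w.length + k/200)^2 := by
        rw [← sq_abs (pr U w t)]
        exact pow_le_pow_left₀ (abs_nonneg _) (hpX.trans hρ1) 2
      have h2 : pr U w t ^ 2 - U w t * (g * U (0 :: w) t + k) ≤ -(1/100 * k * M w.length) := by
        rw [hV]; nlinarith
      have h3 : vf L g k F U w t ≤ L^w.length * (-(1/100 * k * M w.length) + h w.length) := by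
        rw [evf]
        have := mul_le_mul_of_nonneg_left h2 hLn.le
        linarith
      have h4 : -(1/100 * k * M w.length) + h w.length < 0 := by nlinarith
      have h5 : L^w.length * (-(1/100 * k * M w.length) + h w.length) < 0 :=
        mul_neg_of_pos_of_neg hLn h4
      linarith
    · have h2 : Pc g k M1 m0 U (w, 1) = fun s => M w.length - U w s := by
        funext s; simp [Pc, hMdef]
      rw [h2]
      exact hd.const_sub _
  · -- lower barrier
    have heq : M w.length * (g * U (0 :: w) t + 97/100*k) =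
        109/100 * U w t ^ 2 - 9/100 * M w.length ^ 2 := by
      simp [Pc] at h0; linarith
    have hVup := hhi w hw0 hwN
    have hVlo := hlo w hw0 hwN
    have hpos1 : 0 < g * U (0 :: w) t + 97/100*k := by linarith
    have hVpos : 0 < U w t := by
      by_contra hneg
      push Not at hneg
      have h1 : U w t ^ 2 ≤ (k/3000)^2 := by
        rw [← sq_abs]
        apply pow_le_pow_left₀ (abs_nonneg _)
        rw [abs_le]; constructor <;> linarith
      have h2 : 0 < M w.length * (g * U (0 :: w) t + 97/100*k) := mul_pos hm hpos1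
      nlinarith
    rcases Nat.lt_or_ge w.length N with hlt | hge
    · have hdc := deriv_left hU (w := 0 :: w) (by simp; omega) ht htT
      refine ⟨M w.length * (g * vf L g k F U (0 :: w) t)
        - 109/100 * (2 * U w t * vf L g k F U w t), ?_, ?_⟩
      · have hw1 : ((0 : Fin 1) :: w).length = w.length + 1 := rfl
        obtain ⟨hc1, hc2⟩ := F_le (by linarith : 1 ≤ L) hF (w := (0 : Fin 1) :: w) htI
        obtain ⟨_, hc4⟩ := hsm ((0 : Fin 1) :: w).length (by simp; omega)
        rw [hw1] at hc1 hc2 hc4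
        have hs8 : g * h (w.length+1) ≤ k^2/6000 := by
          have := mul_le_mul_of_nonneg_left hc4 hg0.le
          exact this.trans (sg_one g k hg hk)
        have hc5 := hC (0 :: w) (by simp; omega) (by simp; omega)
        have hanti := Mc_anti (M1 := M1) hk m0 w.length
        rw [hw1] at hc5
        have hWu : U (0 :: 0 :: w) t ≤ M w.length := by
          refine (hchi (0 :: w) (by simp; omega) (by simp; omega)).trans ?_
          rw [hw1]; exact hanti
        have hWu2 : U (0 :: 0 :: w) t ≤ 19/40*M w.length + 21/40*U (0 :: w) t + 3/50*k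
            + 53/1000*(g-1)*M w.length := by
          have h5 : 53/1000*(g-1)*M (w.length+1) ≤ 53/1000*(g-1)*M w.length :=
            mul_le_mul_of_nonneg_left hanti (by linarith)
          linarith
        have key := LBs (L := L) (γ := g) (k := k) (μ := M w.length) (ρ := ρ) (σ := sg 1 g k)
          (Y := U w t) (Z := U (0 :: w) t) (W := U (0 :: 0 :: w) t) (X := pr U w t)
          (H1 := h (w.length+1)) (H2 := h w.length) hL hg hk hm hkmw hVpos.le hVup
          (hclo w hw0 hwN) hσ1 (hclo (0 :: w) (by simp; omega) (by simp; omega)) hWu hWu2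
          (by linarith) hρ0 hρ1 hpX hpB hs8 hs7
        have evf2 : vf L g k F U (0 :: w) t = L^(w.length+1) *
            (U w t ^ 2 - U (0 :: w) t * (g * U (0 :: 0 :: w) t + k)) + F (0 :: w) t := by
          simp only [vf, ch_one, List.length_cons, pr_cons]
        rw [evf, evf2]
        have h3 := mul_lt_mul_of_pos_left key hLn
        have e1 : L^(w.length+1) = L^w.length * L := pow_succ _ _
        rw [e1] at hc2 ⊢
        have h4 : 0 ≤ M w.length * g := by positivity
        have h5 := mul_le_mul_of_nonneg_left hc2 h4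
        have h6 := mul_le_mul_of_nonneg_left hF1 (show 0 ≤ 109/50 * U w t by positivity)
        nlinarith
      · have h3 := ((hdc.const_mul g).add_const (97/100*k)).const_mul (M w.length)
        have h4 := (hd.pow 2).const_mul (109/100)
        have h5 := (h3.sub h4).add_const (9/100 * M w.length ^ 2)
        have h6 : Pc g k M1 m0 U (w, 2) = fun s => M w.length * (g * U (0 :: w) s + 97/100*k)
            - 109/100 * U w s ^ 2 + 9/100 * M w.length ^ 2 := by
          funext s; simp [Pc, hMdef]
        rw [h6]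
        have h7 : HasDerivWithinAt (fun s => M w.length * (g * U (0 :: w) s + 97/100*k)
            - 109/100 * U w s ^ 2 + 9/100 * M w.length ^ 2)
            (M w.length * (g * vf L g k F U (0 :: w) t)
              - 109/100 * (((2:ℕ):ℝ) * U w t ^ (2-1) * vf L g k F U w t)) (Iic t) t := h5
        exact h7.congr_deriv (by norm_num)
    · exfalso
      have h1 : U (0 :: w) t = U w t := by
        rw [hU.last 0 w (by omega) t htI, max_eq_left hVpos.le]
      rw [h1] at heq
      have h2 : M w.length * U w t ≤ M w.length * (g * U w t) := by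
        apply mul_le_mul_of_nonneg_left _ hm.le
        nlinarith
      have h3 : 0 < M w.length * k := by positivity
      nlinarith [mul_nonneg (sub_nonneg.2 hVup) hVpos.le, mul_nonneg (sub_nonneg.2 hVup) hm.le]
  · -- upper barrier
    have h0' : 19/40 * M w.length + 21/40 * U w t + 3/50*k
        + 53/1000*(g-1)*M w.length - U (0 :: w) t = 0 := by simpa [Pc] using h0
    have hVup := hhi w hw0 hwN
    have hVlo := hlo w hw0 hwN
    have hgm := hgM w.length
    rcases Nat.lt_or_ge w.length N with hlt | hge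
    · have hdc := deriv_left hU (w := 0 :: w) (by simp; omega) ht htT
      refine ⟨21/40 * vf L g k F U w t - vf L g k F U (0 :: w) t, ?_, ?_⟩
      · have hw1 : ((0 : Fin 1) :: w).length = w.length + 1 := rfl
        obtain ⟨hc1, hc2⟩ := F_le (by linarith : 1 ≤ L) hF (w := (0 : Fin 1) :: w) htI
        obtain ⟨_, hc4⟩ := hsm ((0 : Fin 1) :: w).length (by simp; omega)
        rw [hw1] at hc1 hc2 hc4
        have hs8 : h (w.length+1) ≤ k^2/6000 := by
          have h1 := (mul_le_mul_of_nonneg_left hc4 hg0.le).trans (sg_one g k hg hk)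
          have := hF.nonneg (w.length+1)
          nlinarith
        have hZ1 : U (0 :: w) t ≤ M w.length := hchi w hw0 hwN
        have hBc := hB (0 :: w) (by simp; omega) (by simp; omega)
        rw [hw1] at hBc
        have hanti := Mc_anti (M1 := M1) hk m0 w.length
        have evf2 : vf L g k F U (0 :: w) t = L^(w.length+1) *
            (U w t ^ 2 - U (0 :: w) t * (g * U (0 :: 0 :: w) t + k)) + F (0 :: w) t := by
          simp only [vf, ch_one, List.length_cons, pr_cons]
        have key : L*(U w t ^ 2 - U (0 :: w) t * (g * U (0 :: 0 :: w) t + k) + h (w.length+1)) <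
            21/40*(pr U w t ^ 2 - U w t * (g * U (0 :: w) t + k) - h w.length) := by
          rcases le_or_gt 0 (U w t) with hY | hY
          · have k1 := UBs (L := L) (γ := g) (k := k) (μ := M w.length) (ρ := ρ)
              (m := M (w.length+1)) (Y := U w t) (Z := U (0 :: w) t) (W := U (0 :: 0 :: w) t)
              (X := X') (H1 := h (w.length+1)) (H2 := h w.length) hL hg hk hm hkmw hY
              (by linarith) hZ1 (hMpos _) hanti (by linarith) hBc hρ0 (by linarith) hX'2 hs8 hs7
            linarith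
          · exact UBneg (L := L) (γ := g) (k := k) (μ := M w.length) (m := M (w.length+1))
              (σ := sg 1 g k) (Y := U w t) (Z := U (0 :: w) t) (W := U (0 :: 0 :: w) t)
              (X := pr U w t) (H1 := h (w.length+1)) (H2 := h w.length) hL hg hk hm hkmw hY.le
              hVlo hσ2 hσ.le (hkM _) hanti (by linarith) hBc hs8 hs7
        rw [evf, evf2]
        have e1 : L^(w.length+1) = L^w.length * L := pow_succ _ _
        rw [e1] at hc1 ⊢
        have h3 := mul_lt_mul_of_pos_left key hLn
        nlinarith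
      · have h3 := (((hd.const_mul (21/40)).const_add (19/40 * M w.length)).add_const
          (3/50*k + 53/1000*(g-1)*M w.length)).sub hdc
        have h5 : Pc g k M1 m0 U (w, 3) = fun s => 19/40 * M w.length + 21/40 * U w s
            + (3/50*k + 53/1000*(g-1)*M w.length) - U (0 :: w) s := by
          funext s; simp [Pc, hMdef]; ring
        rw [h5]
        exact h3
    · exfalso
      rw [hU.last 0 w (by omega) t htI] at h0'
      rcases le_or_gt 0 (U w t) with hY | hY
      · rw [max_eq_left hY] at h0'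
        linarith
      · rw [max_eq_right hY.le] at h0'
        linarith
  · -- the top barrier
    by_cases htop : w.length = m0
    · have h0' : U w t = 19/40 * M w.length + 3/50*k + 53/1000*(g-1)*M w.length := by
        have : 19/40 * M m0 + 3/50*k + 53/1000*(g-1)*M m0 - U w t = 0 := by
          simpa [Pc, htop] using h0
        rw [htop]
        linarith
      have hp : |pr U w t| ≤ C0 := by
        cases w with
        | nil => simpa using hC0
        | cons i u =>
          simp only [List.length_cons] at hwN htop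
          exact hlow u (by omega) (by omega)
      have hp2 : pr U w t ^ 2 ≤ C0 ^ 2 := by
        rw [← sq_abs]; exact pow_le_pow_left₀ (abs_nonneg _) hp 2
      have hMt : M w.length = M1 := by rw [htop, hMdef, Mc_top hM1k]
      refine ⟨-vf L g k F U w t, ?_, ?_⟩
      · have h1 := hB w hw0 hwN
        have hgm := hgM w.length
        have hV1 : 19/40 * M w.length ≤ U w t := by linarith
        have hV2 : (19/40 * M w.length)^2 ≤ U w t ^ 2 := pow_le_pow_left₀ (by positivity) hV1 2
        have h2 : M w.length * (3/20 * M w.length) ≤ M w.length * (g * U (0 :: w) t + 97/100*k) := by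
          nlinarith
        have h3 := le_of_mul_le_mul_left h2 hm
        have h4 : 19/40*M w.length * (3/20*M w.length + 3/100*k) ≤
            U w t * (g * U (0 :: w) t + k) :=
          mul_le_mul hV1 (by linarith) (by positivity) (by linarith)
        have h5 : pr U w t ^ 2 - U w t * (g * U (0 :: w) t + k) ≤ -(1/100 * k * M w.length) := by
          have h6 : C0 ^ 2 ≤ (M w.length/4)^2 := by
            apply pow_le_pow_left₀ hC0; rw [hMt]; linarith
          nlinarith
        have h7 : vf L g k F U w t ≤ L^w.length * (-(1/100 * k * M w.length) + h w.length) := by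
          rw [evf]
          have := mul_le_mul_of_nonneg_left h5 hLn.le
          linarith
        have h8 : -(1/100 * k * M w.length) + h w.length < 0 := by nlinarith
        have h9 : L^w.length * (-(1/100 * k * M w.length) + h w.length) < 0 :=
          mul_neg_of_pos_of_neg hLn h8
        linarith
      · have h5 : Pc g k M1 m0 U (w, 4) = fun s => 19/40 * M w.length + 3/50*k
            + 53/1000*(g-1)*M w.length - U w s := by
          funext s; simp [Pc, hMdef, htop]
        rw [h5]
        exact hd.const_sub _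
    · exfalso
      simp [Pc, htop] at h0

end

end Pool.Agent.Q186.DT
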