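import Pool.Agent.Q186.DT.RegC

/-!
# Project DT: the invariant region, conclusion
-/

namespace Pool.Agent.Q186.DT

open Set Filter Topology

noncomputable section

variable {L g k T M1 EF E0 : ℝ} {N m0 : ℕ} {F U : Nd 1 → ℝ → ℝ} {a : Nd 1 → ℝ} {h : ℕ → ℝ}

theorem reg_C (hTEB : P_TEB) (hL : 4 ≤ L) (hg : 1 ≤ g)
    (hk : 0 < k) (hT : 0 < T) (hF : Frc L g T EF F h) (ha : Dt a)
    (hE0 : ∀ N, (sm N fun w => (g / L) ^ w.length * a w ^ 2) ≤ E0) :
    ∃ (M : ℝ) (m : ℕ), ∀ (N : ℕ) (U : Nd 1 → ℝ → ℝ), TrT L g k T N F a U →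
    ∀ w : Nd 1, w.length ≤ N → ∀ t ∈ Icc 0 T, |U w t| ≤ M ∧
      (m ≤ w.length → -sg 1 g k ≤ U w t ∧ U w t ≤ k / 2) := by
  have hσ : 0 < sg 1 g k := sg_pos le_rfl hg hk
  have hσ1 : g * sg 1 g k ≤ k/3000 := by simpa using sg_le (K := 1) le_rfl hg hk
  have hσ2 : sg 1 g k ≤ k/3000 := sg_le' (K := 1) le_rfl hg hk
  obtain ⟨m0, hsm, ham⟩ := exists_m0 (K := 1) le_rfl hg hk hF ha
  obtain ⟨C0, hC0, hlow⟩ := low_bound hTEB (by linarith) hg hk hT hF hE0 m0
  have hM1 : k/2 ≤ 4 * C0 + k := by linarith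
  obtain ⟨m1, hm1⟩ := Mc_end (M1 := 4 * C0 + k) hk m0
  refine ⟨4 * C0 + k, max m0 m1, fun N U hU => ?_⟩
  have hMpos : ∀ n, 0 < Mc k (4*C0+k) m0 n := fun n =>
    lt_of_lt_of_le (by positivity) (Mc_low k (4*C0+k) m0 n)
  have hcont : ∀ w : Nd 1, w.length ≤ N + 1 → ContinuousOn (U w) (Icc 0 T) :=
    fun w hw => cont_TrT hU hw
  have key := Pool.Agent.Q58.DY.t_BAR (Nd 1 × ℕ) (Jx m0 N) (Pc g k (4*C0+k) m0 U) T hT.le ?_ ?_ ?_
  · intro w hwN t ht
    rcases Nat.lt_or_ge w.length m0 with h1 | h1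
    · refine ⟨(hlow N U hU w h1.le hwN t ht).trans (by linarith), fun h2 => ?_⟩
      exfalso
      have := le_trans (le_max_left _ _) h2
      omega
    · have k0 := key t ht.1 ht.2 (w, 0) (mem_Jx.2 ⟨⟨h1, hwN⟩, by norm_num⟩)
      have k1 := key t ht.1 ht.2 (w, 1) (mem_Jx.2 ⟨⟨h1, hwN⟩, by norm_num⟩)
      simp only [Pc, if_true] at k0
      simp only [Pc, one_ne_zero, if_false, if_true] at k1
      have h2 := Mc_le (M1 := 4 * C0 + k) hk hM1 h1
      refine ⟨abs_le.2 ⟨by linarith, by linarith⟩, fun h3 => ⟨by linarith, ?_⟩⟩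
      have h4 := hm1 w.length (le_trans (le_max_right _ _) h3)
      linarith
  · rintro ⟨w, j⟩ hi
    obtain ⟨⟨hw0, hwN⟩, hj⟩ := mem_Jx.1 hi
    have c1 := hcont w (by omega)
    have c2 : ContinuousOn (U (0 :: w)) (Icc 0 T) := hcont (0 :: w) (by simp; omega)
    interval_cases j
    · have h2 : Pc g k (4*C0+k) m0 U (w, 0) = fun s => U w s + sg 1 g k := by
        funext s; simp [Pc]
      rw [h2]; fun_prop
    · have h2 : Pc g k (4*C0+k) m0 U (w, 1) = fun s => Mc k (4*C0+k) m0 w.length - U w s := by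
        funext s; simp [Pc]
      rw [h2]; fun_prop
    · have h2 : Pc g k (4*C0+k) m0 U (w, 2) = fun s => Mc k (4*C0+k) m0 w.length *
            (g * U (0 :: w) s + 97/100*k) - 109/100 * U w s ^ 2
            + 9/100 * Mc k (4*C0+k) m0 w.length ^ 2 := by
        funext s; simp [Pc]
      rw [h2]; fun_prop
    · have h2 : Pc g k (4*C0+k) m0 U (w, 3) = fun s => 19/40 * Mc k (4*C0+k) m0 w.length
            + 21/40 * U w s + 3/50*k + 53/1000*(g-1)*Mc k (4*C0+k) m0 w.length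
            - U (0 :: w) s := by
        funext s; simp [Pc]
      rw [h2]; fun_prop
    · by_cases htop : w.length = m0
      · have h2 : Pc g k (4*C0+k) m0 U (w, 4) = fun s => 19/40 * Mc k (4*C0+k) m0 w.length
            + 3/50*k + 53/1000*(g-1)*Mc k (4*C0+k) m0 w.length - U w s := by
          funext s; simp [Pc, htop]
        rw [h2]; fun_prop
      · have h2 : Pc g k (4*C0+k) m0 U (w, 4) = fun _ => 1 := by
          funext s; simp [Pc, htop]
        rw [h2]; fun_prop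
  · rintro ⟨w, j⟩ hi
    obtain ⟨⟨hw0, hwN⟩, hj⟩ := mem_Jx.1 hi
    obtain ⟨ha1, ha2⟩ := ham w hw0
    have ha3 := abs_le.1 ha1
    have ha4 := abs_le.1 ha2
    have hm := hMpos w.length
    have hl := Mc_low k (4*C0+k) m0 w.length
    have h0 : (0:ℝ) ∈ Icc 0 T := ⟨le_rfl, hT.le⟩
    have hUw : U w 0 = a w := hU.init w hwN
    have hgm : 0 ≤ 53/1000*(g-1)*Mc k (4*C0+k) m0 w.length := mul_nonneg (by linarith) hm.le
    have hc1 : -(sg 1 g k) ≤ U (0 :: w) 0 ∧ U (0 :: w) 0 ≤ k/8 := by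
      rcases Nat.lt_or_ge w.length N with h3 | h3
      · rw [hU.init (0 :: w) (by simp; omega)]
        obtain ⟨b1, b2⟩ := ham (0 :: w) (by simp; omega)
        have := (abs_le.1 b1).2
        have := (abs_le.1 b2).1
        constructor <;> linarith
      · rw [hU.last 0 w (by omega) 0 h0, hUw]
        exact ⟨le_trans (by linarith) (le_max_right _ _), max_le ha3.2 (by positivity)⟩
    have h7 : U w 0 ^ 2 ≤ (k/8)^2 := by
      rw [hUw, ← sq_abs]
      exact pow_le_pow_left₀ (abs_nonneg _) ha1 2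
    interval_cases j
    · simp only [Pc, if_true, hUw]; linarith
    · simp only [Pc, one_ne_zero, if_false, if_true, hUw]; linarith
    · have h4 := mul_le_mul_of_nonneg_left hc1.1 (show 0 ≤ g by linarith)
      have h5 : 0 < g * U (0 :: w) 0 + 97/100*k := by linarith
      have h6 := mul_pos hm h5
      have : 0 < Mc k (4*C0+k) m0 w.length * (g * U (0 :: w) 0 + 97/100*k)
          - 109/100 * U w 0 ^ 2 + 9/100 * Mc k (4*C0+k) m0 w.length ^ 2 := by nlinarith
      simpa [Pc] using this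
    · have : 0 < 19/40 * Mc k (4*C0+k) m0 w.length
            + 21/40 * U w 0 + 3/50*k + 53/1000*(g-1)*Mc k (4*C0+k) m0 w.length
            - U (0 :: w) 0 := by rw [hUw]; linarith
      simpa [Pc] using this
    · by_cases htop : w.length = m0
      · have : 0 < 19/40 * Mc k (4*C0+k) m0 m0
            + 3/50*k + 53/1000*(g-1)*Mc k (4*C0+k) m0 m0 - U w 0 := by
          rw [htop] at hl hgm
          rw [hUw]; linarith
        simpa [Pc, htop] using this
      · simp [Pc, htop]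
  · intro t ht0 htT i hi hall h0
    exact barrier_C hL hg hk hF hsm hC0 rfl hU ht0 htT
      (fun w h1 h2 => hlow N U hU w h1.le h2 t ⟨ht0.le, htT⟩) i hi hall h0

/-- The invariant region. -/
theorem t_TREG : P_TEB → P_TREG := by
  intro hTEB K L g k T EF E0 F h a hP hL hg hk hT hF ha hE0
  rcases hP with ⟨hK, hLG⟩ | ⟨hK, hL4⟩
  · exact reg_T hTEB hK hLG hL hg hk hT hF ha hE0
  · subst hK
    exact reg_C hTEB hL4 hg hk hT hF ha hE0

end

end Pool.Agent.Q186.DT
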