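import Pool.Agent.Q186.DT.Stm
import Pool.Agent.Q58.DY.BAR

/-!
# Project DT: the invariant region for trees with at least two children per node
-/

namespace Pool.Agent.Q186.DT

open Set Filter Topology

noncomputable section

/-- The lower barrier in normalized variables. -/
theorem LBT {G κ y u s h1 h2 x2 L : ℝ} (hLG : 12 ≤ L * G) (hG : 2 ≤ G) (hκ : 0 < κ) (hκ2 : κ ≤ 2)
    (hy0 : 0 ≤ y) (hy1 : y ≤ 1) (hu : u = 9/4*y^2 - 5/4 - 3/4*κ) (hx : x2 ≤ 1 + 21/1000*κ)
    (hs : s ≤ κ/1000) (hh1 : h1 ≤ κ/500) (hh2 : h2 ≤ κ/500) (hL : 0 < L) :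
    9/2*y*(x2 - y*(u+κ) + h2) < L*(G*y^2 - u*G - u*κ - s - G*h1) := by
  have hu1 : u ≤ 1 := by rw [hu]; nlinarith
  have h1' : u * κ ≤ G * κ / 2 := by nlinarith
  have h2' : s ≤ G * (κ/2000) := by nlinarith
  have h3' : G * h1 ≤ G * (κ/500) := mul_le_mul_of_nonneg_left hh1 (by linarith)
  have hB : G * (5/4*(1-y^2) + 99/400*κ) ≤ G*y^2 - u*G - u*κ - s - G*h1 := by
    have e : G*y^2 - u*G = G*(5/4*(1-y^2) + 3/4*κ) := by rw [hu]; ring
    rw [e]
    nlinarith
  have hpos : 0 ≤ 5/4*(1-y^2) + 99/400*κ := by nlinarith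
  have hB2 : 12 * (5/4*(1-y^2) + 99/400*κ) ≤ L*(G*y^2 - u*G - u*κ - s - G*h1) := by
    calc 12 * (5/4*(1-y^2) + 99/400*κ) ≤ (L*G) * (5/4*(1-y^2) + 99/400*κ) :=
          mul_le_mul_of_nonneg_right hLG hpos
      _ = L * (G * (5/4*(1-y^2) + 99/400*κ)) := by ring
      _ ≤ _ := mul_le_mul_of_nonneg_left hB hL.le
  refine lt_of_lt_of_le ?_ hB2
  have hl : 9/2*y*(x2 - y*(u+κ) + h2) ≤
      9/2*y*(1 + 21/1000*κ - y*(u+κ) + κ/500) := by
    apply mul_le_mul_of_nonneg_left _ (by positivity)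
    linarith
  refine lt_of_le_of_lt hl ?_
  have e1 : u + κ = 9/4*y^2 - 5/4 + κ/4 := by rw [hu]; ring
  rw [e1]
  have hQ : 0 ≤ (1-y)*(15+21/2*y-81/8*y^2-81/8*y^3) := by
    apply mul_nonneg (by linarith)
    have h5 : y^2 ≤ y := by nlinarith
    have h6 : y^3 ≤ y := by nlinarith [mul_nonneg hy0 hy0]
    nlinarith
  have hk : 9/2*y*(23/1000*κ) ≤ 9/2*(23/1000*κ) := by nlinarith
  nlinarith [mul_nonneg hy0 hy0, mul_nonneg (mul_nonneg hy0 hy0) hκ.le]

/-- The lower barrier in the original scale. -/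
theorem LBT' {K g k μ σ S X Y H1 H2 L : ℝ} (hK : 2 ≤ K) (hg : 1 ≤ g) (hLG : 12 ≤ K*g*L)
    (hk : 0 < k) (hkμ : k ≤ 2*μ) (hμ : 0 < μ) (hY0 : 0 ≤ Y) (hY1 : Y ≤ μ)
    (heq : μ*(g*S + 3/4*k) = 9/4*Y^2 - 5/4*μ^2) (hX : |X| ≤ μ + k/100)
    (hσ : σ = k/(1000*(K*g)*(K*g+2))) (hH1 : H1 ≤ k^2/1000) (hH2 : H2 ≤ k^2/1000) (hL : 0 < L) :
    9/2*Y*(X^2 - Y*(g*S+k) + H2) < L*(μ*g*(K*Y^2 - (S + K*σ)*(g*(K*μ)+k) - K*H1)) := by
  obtain ⟨y, hy⟩ : ∃ y, y = Y/μ := ⟨_, rfl⟩
  obtain ⟨x, hx⟩ : ∃ x, x = X/μ := ⟨_, rfl⟩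
  obtain ⟨κ, hκ⟩ : ∃ κ, κ = k/μ := ⟨_, rfl⟩
  obtain ⟨z, hz⟩ : ∃ z, z = S/μ := ⟨_, rfl⟩
  obtain ⟨s1, hs1⟩ : ∃ s1, s1 = σ/μ := ⟨_, rfl⟩
  obtain ⟨a1, ha1⟩ : ∃ a1, a1 = H1/μ^2 := ⟨_, rfl⟩
  obtain ⟨a2, ha2⟩ : ∃ a2, a2 = H2/μ^2 := ⟨_, rfl⟩
  have eY : Y = μ*y := by rw [hy]; field_simp
  have eX : X = μ*x := by rw [hx]; field_simp
  have ek : k = μ*κ := by rw [hκ]; field_simp
  have eS : S = μ*z := by rw [hz]; field_simp
  have eσ : σ = μ*s1 := by rw [hs1]; field_simp
  have eH1 : H1 = μ^2*a1 := by rw [ha1]; field_simp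
  have eH2 : H2 = μ^2*a2 := by rw [ha2]; field_simp
  have hG : 2 ≤ K*g := by nlinarith
  have hGpos : 0 < K*g := by linarith
  have hκ0 : 0 < κ := by rw [hκ]; positivity
  have hκ2 : κ ≤ 2 := by rw [hκ]; exact (div_le_iff₀ hμ).2 hkμ
  have hy0 : 0 ≤ y := by rw [hy]; positivity
  have hy1 : y ≤ 1 := by rw [hy]; exact (div_le_one hμ).2 hY1
  have hu : g*z = 9/4*y^2 - 5/4 - 3/4*κ := by
    rw [eY, eS, ek] at heq
    have : μ^2*(g*z + 3/4*κ) = μ^2*(9/4*y^2 - 5/4) := by linarith
    have := mul_left_cancel₀ (by positivity) this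
    linarith
  have hx2 : x^2 ≤ 1 + 21/1000*κ := by
    have h1 : |x| ≤ 1 + κ/100 := by
      rw [hx, abs_div, abs_of_pos hμ, div_le_iff₀ hμ]
      rw [hκ]; field_simp; linarith
    have h2 : x^2 ≤ (1+κ/100)^2 := by
      rw [← sq_abs x]
      exact pow_le_pow_left₀ (abs_nonneg x) h1 2
    nlinarith
  have hkk : k^2/1000 ≤ μ^2*(κ/500) := by rw [ek]; nlinarith [sq_nonneg μ, mul_pos hμ hμ]
  have ha1' : a1 ≤ κ/500 := by
    rw [ha1, div_le_iff₀ (by positivity)]; linarith
  have ha2' : a2 ≤ κ/500 := by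
    rw [ha2, div_le_iff₀ (by positivity)]; linarith
  have hs : (K*g)*s1*((K*g)+κ) ≤ κ/1000 := by
    have h1 : s1 = κ/(1000*(K*g)*(K*g+2)) := by
      rw [hs1, hσ, hκ]; field_simp
    rw [h1]
    have h2 : (K*g)*(κ/(1000*(K*g)*(K*g+2)))*((K*g)+κ) = κ/1000*((K*g+κ)/(K*g+2)) := by
      field_simp
    rw [h2]
    have h3 : (K*g+κ)/(K*g+2) ≤ 1 := by rw [div_le_one (by linarith)]; linarith
    have : 0 ≤ κ/1000 := by positivity
    nlinarith
  have key := LBT (G := K*g) (κ := κ) (y := y) (u := g*z) (s := (K*g)*s1*((K*g)+κ)) (h1 := a1)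
    (h2 := a2) (x2 := x^2) (L := L) (by linarith) hG hκ0 hκ2 hy0 hy1 hu hx2 hs ha1' ha2' hL
  have h3 : 0 < μ^3 := by positivity
  have := mul_lt_mul_of_pos_left key h3
  rw [eY, eX, ek, eS, eσ, eH1, eH2]
  calc 9/2*(μ*y)*((μ*x)^2 - μ*y*(g*(μ*z)+μ*κ) + μ^2*a2)
      = μ^3*(9/2*y*(x^2 - y*(g*z+κ) + a2)) := by ring
    _ < μ^3*(L*((K*g)*y^2 - (g*z)*(K*g) - (g*z)*κ - (K*g)*s1*((K*g)+κ) - (K*g)*a1)) := this
    _ = _ := by ring

/-- The bounds of the region. -/
def Mn (k M1 : ℝ) (m0 n : ℕ) : ℝ := max (k/2) (M1 - k/100*((n:ℝ) - m0))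

lemma Mn_low (k M1 : ℝ) (m0 n : ℕ) : k/2 ≤ Mn k M1 m0 n := le_max_left _ _

lemma Mn_anti {k M1 : ℝ} (hk : 0 < k) (m0 n : ℕ) : Mn k M1 m0 (n+1) ≤ Mn k M1 m0 n := by
  apply max_le_max le_rfl
  push_cast
  nlinarith

lemma Mn_anti2 {k M1 : ℝ} (hk : 0 < k) (m0 : ℕ) {n m : ℕ} (h : n ≤ m) :
    Mn k M1 m0 m ≤ Mn k M1 m0 n := by
  induction m, h using Nat.le_induction with
  | base => exact le_rfl
  | succ m _ ih => exact (Mn_anti hk m0 m).trans ih

lemma Mn_step {k M1 : ℝ} (hk : 0 < k) (m0 n : ℕ) : Mn k M1 m0 n ≤ Mn k M1 m0 (n+1) + k/100 := by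
  unfold Mn
  apply max_le
  · have := le_max_left (k/2) (M1 - k/100*(((n+1 : ℕ):ℝ) - m0))
    linarith
  · have := le_max_right (k/2) (M1 - k/100*(((n+1 : ℕ):ℝ) - m0))
    push_cast at this ⊢
    nlinarith

lemma Mn_top {k M1 : ℝ} (h : k/2 ≤ M1) (m0 : ℕ) : Mn k M1 m0 m0 = M1 := by
  unfold Mn; simp [h]

lemma Mn_le {k M1 : ℝ} (hk : 0 < k) (h : k/2 ≤ M1) {m0 n : ℕ} (hn : m0 ≤ n) :
    Mn k M1 m0 n ≤ M1 := by
  have := Mn_anti2 (M1 := M1) hk m0 hn
  rwa [Mn_top h] at this

lemma Mn_end {k M1 : ℝ} (hk : 0 < k) (m0 : ℕ) : ∃ m : ℕ, ∀ n, m ≤ n → Mn k M1 m0 n = k/2 := by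
  obtain ⟨p, hp⟩ := exists_nat_gt (100*M1/k)
  refine ⟨m0 + p, fun n hn => ?_⟩
  unfold Mn
  apply max_eq_left
  have h1 : ((m0 : ℝ) + p) ≤ n := by exact_mod_cast hn
  rw [div_lt_iff₀ hk] at hp
  nlinarith

variable {K : ℕ} {L g k T M1 EF : ℝ} {N m0 : ℕ} {F U : Nd K → ℝ → ℝ} {a : Nd K → ℝ} {h : ℕ → ℝ}

/-- The constraints. -/
def Ph (g k M1 : ℝ) (m0 : ℕ) (U : Nd K → ℝ → ℝ) (i : Nd K × ℕ) (t : ℝ) : ℝ :=
  if i.2 = 0 then U i.1 t + sg K g k
  else if i.2 = 1 then Mn k M1 m0 i.1.length - U i.1 t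
  else Mn k M1 m0 i.1.length * (g * ch U i.1 t + 3/4*k) - 9/4 * U i.1 t ^ 2
    + 5/4 * Mn k M1 m0 i.1.length ^ 2

/-- The index set. -/
def Ix (K m0 N : ℕ) : Finset (Nd K × ℕ) :=
  (((Finset.range (N+1)).filter (fun n => m0 ≤ n)).biUnion (lev K)) ×ˢ Finset.range 3

lemma mem_Ix {w : Nd K} {j : ℕ} :
    (w, j) ∈ Ix K m0 N ↔ (m0 ≤ w.length ∧ w.length ≤ N) ∧ j < 3 := by
  simp only [Ix, Finset.mem_product, Finset.mem_biUnion, Finset.mem_filter, Finset.mem_range,
    mem_lev]
  constructor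
  · rintro ⟨⟨n, ⟨h1, h2⟩, h3⟩, h4⟩
    subst h3
    exact ⟨⟨h2, by omega⟩, h4⟩
  · rintro ⟨⟨h1, h2⟩, h3⟩
    exact ⟨⟨w.length, ⟨by omega, h1⟩, rfl⟩, h3⟩

lemma cont_TrT (hU : TrT L g k T N F a U) {w : Nd K} (hw : w.length ≤ N + 1) :
    ContinuousOn (U w) (Icc 0 T) := by
  rcases Nat.lt_or_ge w.length (N+1) with h1 | h1
  · exact fun t ht => (hU.deriv w (by omega) t ht).continuousWithinAt
  · cases w with
    | nil => simp at h1
    | cons i u =>
      have hu : u.length = N := by simp at h1 hw; omega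
      have h2 : ContinuousOn (fun t => max (U u t) 0) (Icc 0 T) := by
        have : ContinuousOn (U u) (Icc 0 T) :=
          fun t ht => (hU.deriv u (by omega) t ht).continuousWithinAt
        exact this.sup continuousOn_const
      exact h2.congr (fun t ht => hU.last i u hu t ht)

lemma deriv_left (hU : TrT L g k T N F a U) {w : Nd K} (hw : w.length ≤ N) {t : ℝ} (ht : 0 < t)
    (htT : t ≤ T) : HasDerivWithinAt (U w) (vf L g k F U w t) (Iic t) t := by
  have h1 := hU.deriv w hw t ⟨ht.le, htT⟩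
  apply h1.mono_of_mem_nhdsWithin
  rw [mem_nhdsWithin]
  refine ⟨Ioi 0, isOpen_Ioi, ht, fun s hs => ?_⟩
  exact ⟨le_of_lt hs.1, (show s ≤ t from hs.2).trans htT⟩

lemma sg_pos (hK : 1 ≤ K) (hg : 1 ≤ g) (hk : 0 < k) : 0 < sg K g k := by
  have h1 : (1:ℝ) ≤ K := by exact_mod_cast hK
  unfold sg
  positivity

lemma sg_le (hK : 1 ≤ K) (hg : 1 ≤ g) (hk : 0 < k) : (K:ℝ) * g * sg K g k ≤ k/3000 := by
  have h1 : (1:ℝ) ≤ K := by exact_mod_cast hK
  have hG : 1 ≤ (K:ℝ)*g := by nlinarith
  unfold sg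
  have e : (K:ℝ) * g * (k / (1000 * (K * g) * (K * g + 2))) = k/1000/(K*g+2) := by field_simp
  rw [e, div_le_iff₀ (by positivity)]
  nlinarith

lemma sg_le' (hK : 1 ≤ K) (hg : 1 ≤ g) (hk : 0 < k) : sg K g k ≤ k/3000 := by
  have h1 : (1:ℝ) ≤ K := by exact_mod_cast hK
  have h2 := sg_le hK hg hk
  have h3 := sg_pos hK hg hk
  have hG : 1 ≤ (K:ℝ)*g := by nlinarith
  nlinarith

/-- The smallness conditions on the force for the generations from `m0` on. -/
def Sml (K : ℕ) (g k : ℝ) (m0 : ℕ) (h : ℕ → ℝ) : Prop :=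
  ∀ n, m0 ≤ n → h n ≤ k^2/1000 ∧ h n ≤ sg K g k * k / 2

lemma F_le (_hL : 1 ≤ L) (hF : Frc L g T EF F h) {w : Nd K} {t : ℝ} (ht : t ∈ Icc 0 T) :
    F w t ≤ L^w.length * h w.length ∧ -(L^w.length * h w.length) ≤ F w t := by
  have := abs_le.1 (hF.bd w t ht)
  exact ⟨this.2, this.1⟩

lemma barrier_T (hK : 2 ≤ K) (hLG : 12 ≤ (K:ℝ) * g * L) (hL : 1 < L) (hg : 1 ≤ g) (hk : 0 < k)
    (hF : Frc L g T EF F h) (hsm : Sml K g k m0 h) (hM1 : k/2 ≤ M1)
    (hU : TrT L g k T N F a U) {t : ℝ} (ht : 0 < t) (htT : t ≤ T)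
    (hlow : ∀ w : Nd K, w.length < m0 → w.length ≤ N → |U w t| ≤ M1) (i : Nd K × ℕ)
    (hi : i ∈ Ix K m0 N) (hall : ∀ j ∈ Ix K m0 N, 0 ≤ Ph g k M1 m0 U j t)
    (h0 : Ph g k M1 m0 U i t = 0) :
    ∃ d, 0 < d ∧ HasDerivWithinAt (Ph g k M1 m0 U i) d (Iic t) t := by
  have hK1 : 1 ≤ K := by omega
  have hKr : (2:ℝ) ≤ K := by exact_mod_cast hK
  have hσ := sg_pos hK1 hg hk
  have hσ1 := sg_le hK1 hg hk
  have hσ2 := sg_le' hK1 hg hk
  have htI : t ∈ Icc 0 T := ⟨ht.le, htT⟩
  set M := Mn k M1 m0 with hMdef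
  have hMlow : ∀ n, k/2 ≤ M n := Mn_low k M1 m0
  have hMpos : ∀ n, 0 < M n := fun n => lt_of_lt_of_le (by positivity) (hMlow n)
  have hkM : ∀ n, k ≤ 2 * M n := fun n => by linarith [hMlow n]
  -- the bounds at time t
  have hlo : ∀ w : Nd K, m0 ≤ w.length → w.length ≤ N → -sg K g k ≤ U w t := by
    intro w h1 h2
    have := hall (w, 0) (mem_Ix.2 ⟨⟨h1, h2⟩, by norm_num⟩)
    simp only [Ph, if_true] at this
    linarith
  have hhi : ∀ w : Nd K, m0 ≤ w.length → w.length ≤ N → U w t ≤ M w.length := by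
    intro w h1 h2
    have := hall (w, 1) (mem_Ix.2 ⟨⟨h1, h2⟩, by norm_num⟩)
    simp only [Ph, one_ne_zero, if_false, if_true] at this
    linarith
  have hB : ∀ w : Nd K, m0 ≤ w.length → w.length ≤ N →
      9/4 * U w t ^ 2 ≤ M w.length * (g * ch U w t + 3/4*k) + 5/4 * M w.length ^ 2 := by
    intro w h1 h2
    have := hall (w, 2) (mem_Ix.2 ⟨⟨h1, h2⟩, by norm_num⟩)
    simp [Ph] at this
    linarith
  -- the children
  have hclo : ∀ (i : Fin K) (w : Nd K), m0 ≤ w.length → w.length ≤ N →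
      -sg K g k ≤ U (i :: w) t := by
    intro i w h1 h2
    rcases Nat.lt_or_ge w.length N with h3 | h3
    · exact hlo (i :: w) (by simp; omega) (by simp; omega)
    · rw [hU.last i w (by omega) t htI]
      exact le_trans (by linarith) (le_max_right _ _)
  have hchi : ∀ (i : Fin K) (w : Nd K), m0 ≤ w.length → w.length ≤ N →
      U (i :: w) t ≤ M w.length := by
    intro i w h1 h2
    rcases Nat.lt_or_ge w.length N with h3 | h3
    · have := hhi (i :: w) (by simp; omega) (by simp; omega)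
      simp only [List.length_cons] at this
      exact this.trans (Mn_anti hk m0 _)
    · rw [hU.last i w (by omega) t htI]
      exact max_le (hhi w h1 h2) (hMpos _).le
  have hchlo : ∀ w : Nd K, m0 ≤ w.length → w.length ≤ N → -(K * sg K g k) ≤ ch U w t := by
    intro w h1 h2
    have : ∑ _i : Fin K, (-sg K g k) ≤ ch U w t :=
      Finset.sum_le_sum fun i _ => hclo i w h1 h2
    simpa using this
  have hchhi : ∀ w : Nd K, m0 ≤ w.length → w.length ≤ N → ch U w t ≤ K * M w.length := by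
    intro w h1 h2
    have : ch U w t ≤ ∑ _i : Fin K, M w.length :=
      Finset.sum_le_sum fun i _ => hchi i w h1 h2
    simpa using this
  have hr : ∀ w : Nd K, m0 ≤ w.length → w.length ≤ N → 2999/3000*k ≤ g * ch U w t + k := by
    intro w h1 h2
    have := mul_le_mul_of_nonneg_left (hchlo w h1 h2) (show 0 ≤ g by linarith)
    linarith
  have hpr : ∀ w : Nd K, m0 ≤ w.length → w.length ≤ N → |pr U w t| ≤ M w.length + k/100 := by
    intro w h1 h2
    cases w with
    | nil => simp only [pr_nil, abs_zero]; have := hMpos 0; simp; positivity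
    | cons i u =>
      simp only [pr_cons, List.length_cons] at *
      rcases Nat.lt_or_ge u.length m0 with h3 | h3
      · have h4 : u.length + 1 = m0 := by omega
        have h5 := hlow u h3 (by omega)
        rw [h4, hMdef, Mn_top hM1]
        linarith
      · have h5 := hhi u h3 (by omega)
        have h6 := hlo u h3 (by omega)
        have h7 := Mn_step (M1 := M1) hk m0 u.length
        rw [abs_le]
        constructor
        · have := hMlow (u.length + 1)
          linarith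
        · exact h5.trans h7
  obtain ⟨w, j⟩ := i
  obtain ⟨⟨hw0, hwN⟩, hj⟩ := mem_Ix.1 hi
  obtain ⟨hF1, hF2⟩ := F_le hL.le hF (w := w) htI
  obtain ⟨hs1, hs2⟩ := hsm w.length hw0
  have hLn : 0 < L ^ w.length := by positivity
  have hd := deriv_left hU hwN ht htT
  have hpw := hpr w hw0 hwN
  have hrw := hr w hw0 hwN
  have hPsq : pr U w t ^ 2 ≤ (M w.length + k/100)^2 := by
    rw [← sq_abs (pr U w t)]
    exact pow_le_pow_left₀ (abs_nonneg _) hpw 2
  interval_cases j
  · -- lower bound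
    have hV : U w t = -sg K g k := by simp only [Ph, if_true] at h0; linarith
    refine ⟨vf L g k F U w t, ?_, ?_⟩
    · unfold vf
      rw [hV]
      have h1 : L^w.length * (sg K g k * (2999/3000*k)) ≤
          L ^ w.length * (pr U w t ^ 2 - -sg K g k * (g * ch U w t + k)) := by
        apply mul_le_mul_of_nonneg_left _ hLn.le
        nlinarith [sq_nonneg (pr U w t)]
      have h2 : 0 < sg K g k * k := by positivity
      have h3 : L^w.length * h w.length ≤ L^w.length * (sg K g k * k / 2) :=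
        mul_le_mul_of_nonneg_left hs2 hLn.le
      have h4 : 0 < L^w.length * (sg K g k * k) := by positivity
      nlinarith
    · have h2 : Ph g k M1 m0 U (w, 0) = fun s => U w s + sg K g k := by
        funext s; simp [Ph]
      rw [h2]
      simpa using hd.add_const (sg K g k)
  · -- upper bound
    have hV : U w t = M w.length := by
      simp only [Ph, one_ne_zero, if_false, if_true] at h0; linarith
    refine ⟨-vf L g k F U w t, ?_, ?_⟩
    · have h1 := hB w hw0 hwN
      rw [hV] at h1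
      have hm := hMpos w.length
      have hl := hMlow w.length
      have h2 : pr U w t ^ 2 - U w t * (g * ch U w t + k) ≤ -(1/10 * k * M w.length) := by
        rw [hV]; nlinarith
      have h3 : vf L g k F U w t ≤ L^w.length * (-(1/10 * k * M w.length) + h w.length) := by
        unfold vf
        have := mul_le_mul_of_nonneg_left h2 hLn.le
        linarith
      have h4 : -(1/10 * k * M w.length) + h w.length < 0 := by nlinarith
      have h5 : L^w.length * (-(1/10 * k * M w.length) + h w.length) < 0 :=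
        mul_neg_of_pos_of_neg hLn h4
      linarith
    · have h2 : Ph g k M1 m0 U (w, 1) = fun s => M w.length - U w s := by
        funext s; simp [Ph, hMdef]
      rw [h2]
      exact hd.const_sub _
  · -- lower barrier
    have heq : M w.length * (g * ch U w t + 3/4*k) = 9/4 * U w t ^ 2 - 5/4 * M w.length ^ 2 := by
      simp [Ph] at h0; linarith
    have hm := hMpos w.length
    have hl := hMlow w.length
    have hVup := hhi w hw0 hwN
    have hVlo := hlo w hw0 hwN
    have hcl := hchlo w hw0 hwN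
    have hpos1 : 0 < g * ch U w t + 3/4*k := by
      have := mul_le_mul_of_nonneg_left hcl (show 0 ≤ g by linarith)
      linarith
    have hVpos : 0 < U w t := by
      by_contra hneg
      push Not at hneg
      have h1 : U w t ^ 2 ≤ (k/3000)^2 := by
        rw [← sq_abs]
        apply pow_le_pow_left₀ (abs_nonneg _)
        rw [abs_le]; constructor <;> linarith
      have h2 : 0 < M w.length * (g * ch U w t + 3/4*k) := mul_pos hm hpos1
      nlinarith
    rcases Nat.lt_or_ge w.length N with hlt | hge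
    · have hdc : ∀ i : Fin K, HasDerivWithinAt (U (i :: w)) (vf L g k F U (i :: w) t) (Iic t) t :=
        fun i => deriv_left hU (by simp; omega) ht htT
      have hdch : HasDerivWithinAt (ch U w) (∑ i : Fin K, vf L g k F U (i :: w) t) (Iic t) t := by
        have := HasDerivWithinAt.fun_sum (u := Finset.univ) (fun i _ => hdc i)
        exact this
      refine ⟨M w.length * (g * ∑ i : Fin K, vf L g k F U (i :: w) t)
        - 9/4 * (2 * U w t * vf L g k F U w t), ?_, ?_⟩
      · -- bound of the derivative of a child from below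
        have hci : ∀ i : Fin K, L^(w.length+1) * (U w t ^ 2
            - (U (i :: w) t + sg K g k) * (g * (K * M w.length) + k) - k^2/1000)
            ≤ vf L g k F U (i :: w) t := by
          intro i
          have hw1 : (i :: w).length = w.length + 1 := rfl
          obtain ⟨hc1, hc2⟩ := F_le hL.le hF (w := i :: w) htI
          obtain ⟨hc3, hc4⟩ := hsm (i :: w).length (by simp; omega)
          rw [hw1] at hc1 hc2 hc3
          have hL1 : 0 < L ^ (w.length+1) := by positivity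
          have h1 := hclo i w hw0 hwN
          have h2 := hr (i :: w) (by simp; omega) (by simp; omega)
          have h3 : ch U (i :: w) t ≤ K * M w.length := by
            refine (hchhi (i :: w) (by simp; omega) (by simp; omega)).trans ?_
            apply mul_le_mul_of_nonneg_left _ (by positivity)
            exact Mn_anti hk m0 _
          have h4 : g * ch U (i :: w) t + k ≤ g * (K * M w.length) + k := by
            have := mul_le_mul_of_nonneg_left h3 (show 0 ≤ g by linarith)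
            linarith
          have h5 : U (i :: w) t * (g * ch U (i :: w) t + k) ≤
              (U (i :: w) t + sg K g k) * (g * (K * M w.length) + k) := by
            have h6 : 0 ≤ U (i :: w) t + sg K g k := by linarith
            have h7 : 0 ≤ g * ch U (i :: w) t + k := by linarith
            calc U (i :: w) t * (g * ch U (i :: w) t + k)
                ≤ (U (i :: w) t + sg K g k) * (g * ch U (i :: w) t + k) :=
                  mul_le_mul_of_nonneg_right (by linarith) h7
              _ ≤ _ := mul_le_mul_of_nonneg_left h4 h6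
          have h8 : L^(w.length+1) * h (w.length+1) ≤ L^(w.length+1) * (k^2/1000) :=
            mul_le_mul_of_nonneg_left hc3 hL1.le
          have h9 : L^(w.length+1) * (U w t ^ 2
            - (U (i :: w) t + sg K g k) * (g * (K * M w.length) + k)) ≤
              L^(w.length+1) * (U w t ^ 2 - U (i :: w) t * (g * ch U (i :: w) t + k)) :=
            mul_le_mul_of_nonneg_left (by linarith) hL1.le
          unfold vf
          rw [hw1, pr_cons]
          linarith
        have hsum : L^(w.length+1) * (K * U w t ^ 2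
            - (ch U w t + K * sg K g k) * (g * (K * M w.length) + k) - K * (k^2/1000))
            ≤ ∑ i : Fin K, vf L g k F U (i :: w) t := by
          have h1 := Finset.sum_le_sum (s := Finset.univ) fun i (_ : i ∈ Finset.univ) => hci i
          refine le_trans (le_of_eq ?_) h1
          rw [← Finset.mul_sum]
          congr 1
          rw [Finset.sum_sub_distrib, Finset.sum_sub_distrib, ← Finset.sum_mul,
            Finset.sum_add_distrib]
          simp [ch]
        have key := LBT' (K := K) (g := g) (k := k) (μ := M w.length) (σ := sg K g k)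
          (S := ch U w t) (X := pr U w t) (Y := U w t) (H1 := k^2/1000) (H2 := k^2/1000)
          (L := L) hKr hg hLG hk (hkM _) hm hVpos.le hVup heq hpw rfl le_rfl le_rfl (by linarith)
        have hvf : vf L g k F U w t ≤ L^w.length * (pr U w t ^ 2 - U w t * (g * ch U w t + k)
            + k^2/1000) := by
          unfold vf
          have := mul_le_mul_of_nonneg_left hs1 hLn.le
          nlinarith
        have hg0 : 0 ≤ M w.length * g := by positivity
        have h1 := mul_le_mul_of_nonneg_left hsum hg0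
        have h2 := mul_le_mul_of_nonneg_left hvf (show 0 ≤ 9/2 * U w t by positivity)
        have h3 := mul_lt_mul_of_pos_left key hLn
        have e1 : L^(w.length+1) = L^w.length * L := pow_succ _ _
        rw [e1] at h1
        nlinarith
      · have h3 := ((hdch.const_mul g).add_const (3/4*k)).const_mul (M w.length)
        have h4 := (hd.pow 2).const_mul (9/4)
        have h5 := (h3.sub h4).add_const (5/4 * M w.length ^ 2)
        have h6 : Ph g k M1 m0 U (w, 2) = fun s => M w.length * (g * ch U w s + 3/4*k)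
            - 9/4 * U w s ^ 2 + 5/4 * M w.length ^ 2 := by
          funext s; simp [Ph, hMdef]
        rw [h6]
        have h7 : HasDerivWithinAt (fun s => M w.length * (g * ch U w s + 3/4*k)
            - 9/4 * U w s ^ 2 + 5/4 * M w.length ^ 2)
            (M w.length * (g * ∑ i : Fin K, vf L g k F U (i :: w) t)
              - 9/4 * (((2:ℕ):ℝ) * U w t ^ (2-1) * vf L g k F U w t)) (Iic t) t := h5
        exact h7.congr_deriv (by norm_num)
    · exfalso
      have hN : w.length = N := by omega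
      have h1 : ch U w t = K * U w t := by
        unfold ch
        simp only [hU.last _ w hN t htI, max_eq_left hVpos.le]
        simp
      rw [h1] at heq
      have h2 : M w.length * (2 * U w t) ≤ M w.length * (g * (K * U w t)) := by
        apply mul_le_mul_of_nonneg_left _ hm.le
        have : 2 * U w t ≤ K * U w t := mul_le_mul_of_nonneg_right hKr hVpos.le
        nlinarith
      have h3 : 0 < M w.length * k := by positivity
      nlinarith

end

end Pool.Agent.Q186.DT
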