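import Mathlib

/-!
# Project DT: the Katz-Pavlovic dyadic model of the Navier-Stokes equations on the tree of dyadic
# cubes, data and forces of any sign

Nodes: words over `Fin K` (`K = 8` for dyadic cubes in space, `K = 1` for the shell model).

`X_w' = - ν λ^(2n) X_w + λ^(β(n-1)) X_(parent)^2 - λ^(β n) X_w Σ_i X_(i w) + f_w`, `n = |w|`.

In the critical variables `V_w = λ^(β-4) λ^((β-2) n) X_w` it becomes, with `L = λ^2`, `g = λ^(6-2β)`,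
`k = ν`,

`V_w' = L^n (V_(parent)^2 - V_w (g Σ_i V_(i w) + k)) + F_w`.

`g ≥ 1` iff `β ≤ 3`. Everything is considered on a time interval `[0,T]`. This file contains the
statements of the lemmas, with complete proofs in the docstrings.
-/

namespace Pool.Agent.Q186.DT

open Set Filter Topology MeasureTheory

/-- The nodes: words over `Fin K`. The root is `[]`, the children of `w` are `i :: w`. -/
abbrev Nd (K : ℕ) : Type := List (Fin K)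

/-- The function of the parent, `0` at the root. -/
def pr {K : ℕ} (V : Nd K → ℝ → ℝ) : Nd K → ℝ → ℝ
  | [] => fun _ => 0
  | _ :: u => V u

@[simp] theorem pr_nil {K : ℕ} (V : Nd K → ℝ → ℝ) (t : ℝ) : pr V [] t = 0 := rfl

@[simp] theorem pr_cons {K : ℕ} (V : Nd K → ℝ → ℝ) (i : Fin K) (u : Nd K) (t : ℝ) :
    pr V (i :: u) t = V u t := rfl

/-- Sum over the children. -/
noncomputable def ch {K : ℕ} (V : Nd K → ℝ → ℝ) (w : Nd K) (t : ℝ) : ℝ := ∑ i : Fin K, V (i :: w) t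

/-- Adding a letter. -/
def consEmb (K : ℕ) : Fin K × Nd K ↪ Nd K :=
  ⟨fun p => p.1 :: p.2, fun p q h => by
    obtain ⟨i, u⟩ := p; obtain ⟨j, v⟩ := q
    simp only [List.cons.injEq] at h
    exact Prod.ext h.1 h.2⟩

/-- The nodes of generation `n`. -/
def lev (K : ℕ) : ℕ → Finset (Nd K)
  | 0 => {[]}
  | n + 1 => (Finset.univ ×ˢ lev K n).map (consEmb K)

theorem mem_lev {K : ℕ} (n : ℕ) (w : Nd K) : w ∈ lev K n ↔ w.length = n := by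
  induction n generalizing w with
  | zero => simp [lev, List.length_eq_zero_iff]
  | succ n ih =>
    simp only [lev, Finset.mem_map, Finset.mem_product, Finset.mem_univ, true_and, Prod.exists]
    constructor
    · rintro ⟨i, u, hu, rfl⟩
      show (i :: u).length = n + 1
      simp [(ih u).1 hu]
    · intro h
      cases w with
      | nil => simp at h
      | cons i u => exact ⟨i, u, (ih u).2 (by simpa using h), rfl⟩

theorem sum_lev_zero {K : ℕ} (f : Nd K → ℝ) : ∑ w ∈ lev K 0, f w = f [] := by simp [lev]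

theorem sum_lev_succ {K : ℕ} (n : ℕ) (f : Nd K → ℝ) :
    ∑ w ∈ lev K (n + 1), f w = ∑ w ∈ lev K n, ∑ i : Fin K, f (i :: w) := by
  rw [lev, Finset.sum_map, Finset.sum_product_right]
  rfl

/-- Sum over the nodes of generation at most `N`. -/
def sm {K : ℕ} (N : ℕ) (f : Nd K → ℝ) : ℝ := ∑ n ∈ Finset.range (N + 1), ∑ w ∈ lev K n, f w

/-- The right hand side of the system. -/
noncomputable def vf {K : ℕ} (L g k : ℝ) (F V : Nd K → ℝ → ℝ) (w : Nd K) (t : ℝ) : ℝ :=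
  L ^ w.length * (pr V w t ^ 2 - V w t * (g * ch V w t + k)) + F w t

/-- The functions `V` solve the equations of all nodes on `[0,T]`. -/
def Sol {K : ℕ} (L g k T : ℝ) (F V : Nd K → ℝ → ℝ) : Prop :=
  ∀ w, ∀ t ∈ Icc 0 T, HasDerivWithinAt (V w) (vf L g k F V w t) (Icc 0 T) t

/-- The energy of the generations up to `N`. -/
noncomputable def PE {K : ℕ} (L g : ℝ) (V : Nd K → ℝ → ℝ) (N : ℕ) (t : ℝ) : ℝ :=
  sm N fun w => (g / L) ^ w.length * V w t ^ 2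

/-- The dissipation of the generations up to `N`. -/
noncomputable def PD {K : ℕ} (g : ℝ) (V : Nd K → ℝ → ℝ) (N : ℕ) (t : ℝ) : ℝ :=
  sm N fun w => g ^ w.length * V w t ^ 2

/-- The power of the force in the generations up to `N`. -/
noncomputable def PF {K : ℕ} (L g : ℝ) (F V : Nd K → ℝ → ℝ) (N : ℕ) (t : ℝ) : ℝ :=
  sm N fun w => (g / L) ^ w.length * (V w t * F w t)

/-- The energy flux from generation `N` to generation `N + 1`. -/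
noncomputable def fl {K : ℕ} (g : ℝ) (V : Nd K → ℝ → ℝ) (N : ℕ) (t : ℝ) : ℝ :=
  g ^ (N + 1) * ∑ w ∈ lev K N, V w t ^ 2 * ch V w t

/-- Conditions on the force: `|F_w| ≤ L^n h_n` with `h_n → 0`, and finite energy. -/
structure Frc {K : ℕ} (L g T EF : ℝ) (F : Nd K → ℝ → ℝ) (h : ℕ → ℝ) : Prop where
  cont : ∀ w, ContinuousOn (F w) (Icc 0 T)
  bd : ∀ w, ∀ t ∈ Icc 0 T, |F w t| ≤ L ^ w.length * h w.length
  nonneg : ∀ n, 0 ≤ h n
  lim : Tendsto h atTop (𝓝 0)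
  en : ∀ N, ∀ t ∈ Icc 0 T, PE L g F N t ≤ EF

/-- Energy inequality from `s` to `t`: the flux to infinity is nonnegative (see `P_TEN`). -/
def EI {K : ℕ} (g : ℝ) (V : Nd K → ℝ → ℝ) (s t : ℝ) : Prop :=
  ∀ ε : ℝ, 0 < ε → ∀ᶠ N in atTop, -ε ≤ ∫ r in s..t, fl g V N r

/-- Energy equality from `s` to `t`: the flux to infinity is zero. -/
def EE {K : ℕ} (g : ℝ) (V : Nd K → ℝ → ℝ) (s t : ℝ) : Prop :=
  Tendsto (fun N => ∫ r in s..t, fl g V N r) atTop (𝓝 0)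

/-- Leray-Hopf solutions. -/
structure LH {K : ℕ} (L g k T : ℝ) (F V : Nd K → ℝ → ℝ) : Prop where
  sol : Sol L g k T F V
  en : ∃ E : ℝ, ∀ N, ∀ t ∈ Icc 0 T, PE L g V N t ≤ E
  dis : ∃ D : ℝ, ∀ N, (∫ t in (0:ℝ)..T, PD g V N t) ≤ D
  zero : ∀ t ∈ Icc 0 T, EI g V 0 t
  ae : ∀ᵐ s : ℝ, s ∈ Icc 0 T → ∀ t ∈ Icc s T, EI g V s t

/-- The truncated system: the generations up to `N`, closed by `U (i w) = max (U w) 0`. -/
structure TrT {K : ℕ} (L g k T : ℝ) (N : ℕ) (F : Nd K → ℝ → ℝ) (a : Nd K → ℝ)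
    (U : Nd K → ℝ → ℝ) : Prop where
  deriv : ∀ w, w.length ≤ N → ∀ t ∈ Icc 0 T,
    HasDerivWithinAt (U w) (vf L g k F U w t) (Icc 0 T) t
  last : ∀ i w, w.length = N → ∀ t ∈ Icc 0 T, U (i :: w) t = max (U w t) 0
  init : ∀ w, w.length ≤ N → U w 0 = a w

/-- The small number which bounds the negative values from below. -/
noncomputable def sg (K : ℕ) (g k : ℝ) : ℝ := k / (1000 * (K * g) * (K * g + 2))

/-- The bounds of the invariant region. -/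
structure RC {K : ℕ} (g k T M : ℝ) (m : ℕ) (V : Nd K → ℝ → ℝ) : Prop where
  bd : ∀ w, ∀ t ∈ Icc 0 T, |V w t| ≤ M
  lo : ∀ w, m ≤ w.length → ∀ t ∈ Icc 0 T, -sg K g k ≤ V w t
  hi : ∀ w, m ≤ w.length → ∀ t ∈ Icc 0 T, V w t ≤ k / 2

/-- The functions tend to zero uniformly along the generations. -/
def Tl {K : ℕ} (s T : ℝ) (V : Nd K → ℝ → ℝ) : Prop :=
  ∀ ε : ℝ, 0 < ε → ∃ m : ℕ, ∀ w, m ≤ w.length → ∀ t ∈ Icc s T, |V w t| ≤ ε

/-- Data tending to zero. -/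
def Dt {K : ℕ} (a : Nd K → ℝ) : Prop :=
  ∀ ε : ℝ, 0 < ε → ∃ m : ℕ, ∀ w, m ≤ w.length → |a w| ≤ ε

/-- Job TEN: the energy identity of the generations up to `N`.
PROOF. `d/dt PE = Σ_{n ≤ N} Σ_{|w| = n} 2 (g/L)^n V_w (L^n (pr V w^2 - V_w (g ch V w + k)) + F_w)`
`= 2 Σ_{n ≤ N} Σ_{|w|=n} g^n V_w (pr V w)^2 - 2 Σ_{n ≤ N} Σ_{|w|=n} g^(n+1) V_w^2 ch V w - 2 k PD + 2 PF`.
For `n ≥ 1` (`sum_lev_succ`, `pr_cons`) `Σ_{|w|=n} g^n V_w (pr V w)^2 = Σ_{|u|=n-1} g^n V_u^2 ch V u`, and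
the term `n = 0` is zero, so the two sums telescope (induction on `N`) and leave
`- 2 g^(N+1) Σ_{|w| = N} V_w^2 ch V w = - 2 fl`. Then the fundamental theorem of calculus on `[s,t]`
(`intervalIntegral.integral_eq_sub_of_hasDeriv_right` or `integral_eq_sub_of_hasDerivAt_of_le`:
the derivative within `Icc 0 T` is a derivative at interior points; everything is continuous). -/
def P_TEN : Prop := ∀ (K : ℕ) (L g k T : ℝ) (F V : Nd K → ℝ → ℝ) (N : ℕ), 0 < L → 0 < g →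
  (∀ w, ContinuousOn (F w) (Icc 0 T)) →
  (∀ w : Nd K, w.length ≤ N + 1 → ContinuousOn (V w) (Icc 0 T)) →
  (∀ w : Nd K, w.length ≤ N → ∀ t ∈ Icc 0 T,
    HasDerivWithinAt (V w) (vf L g k F V w t) (Icc 0 T) t) →
  ∀ s t : ℝ, 0 ≤ s → s ≤ t → t ≤ T →
  PE L g V N t + 2 * k * (∫ r in s..t, PD g V N r) + 2 * (∫ r in s..t, fl g V N r)
    = PE L g V N s + 2 * (∫ r in s..t, PF L g F V N r)

/-- Job TTR: the truncated systems have solutions on `[0,T]` (use `P_TEN`).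
PROOF. Let `E1 = (E0 + T EF + 1) exp (T + 1)` where `E0` bounds `PE` of the data and `EF` bounds
`PE L g F N t` on `[0,T]` (finitely many continuous functions on a compact interval), and `R ≥ 1` with
`(g/L)^n R^2 > E1` for all `n ≤ N`. Let `c v = max (-R) (min v R)`. On the finite dimensional space
`(levels ≤ N) → ℝ` (for instance functions on the finite type `{w // w.length ≤ N}`; this is a
`Fintype` because it is the union of the `lev K n`; or index by the Finset) consider the field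
`W t v w = L^n (c (v parent)^2 - c (v w) (g Σ_i c' + k)) + F_w(t)`, where `c' = c (v (i w))` for `n < N` and
`c' = max (c (v w)) 0` for `n = N`, and `F_w` is extended to all `t` by constants (`IccExtend`). It is
bounded, Lipschitz in `v` (products of bounded Lipschitz functions) with a constant independent of
`t`, and continuous in `t`, so Picard-Lindelof (`IsPicardLindelof` on `[0,T]` with radius `a = B T` where
`B` bounds the field) gives a solution on all of `[0,T]`. Put `U w t = α t w` for `|w| ≤ N`,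
`U (i w) = max (U w) 0` for `|w| = N`, `0` otherwise. As long as all `|U w t| ≤ R` the cut off does nothing.
Claim: `PE(t) := PE L g U N t < E1` on `[0,T]`. Otherwise let `t1` be the first time with `PE(t1) = E1`
(`PE(0) ≤ E0 < E1`, `PE` is continuous). On `[0,t1]` all `|U w| ≤ R` (as `(g/L)^n R^2 > E1`), so the true
equations hold on `[0,t1]` and by `P_TEN` with `T := t1`, as `PD ≥ 0`, the flux
`g^(N+1) Σ U_w^2 K max (U_w) 0 ≥ 0`, and `2 PF ≤ PE U + PE F ≤ PE U + EF`: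
`PE(t) ≤ E0 + ∫_0^t (PE + EF)` for `t ≤ t1`, so `PE(t1) ≤ (E0 + T EF) exp T < E1` by Gronwall (the function
`(E0 + T EF + ∫_0^t PE) exp(-t)` is antitone), a contradiction. So the true equations hold on `[0,T]`. -/
def P_TTR : Prop := ∀ (K : ℕ) (L g k T : ℝ) (N : ℕ) (F : Nd K → ℝ → ℝ) (a : Nd K → ℝ),
  1 ≤ L → 1 ≤ g → 0 < k → 0 < T → (∀ w, ContinuousOn (F w) (Icc 0 T)) →
  ∃ U : Nd K → ℝ → ℝ, TrT L g k T N F a U

/-- Job TEB: energy bound for the truncated systems (use `P_TEN`).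
PROOF. As at the end of `P_TTR`: by `P_TEN` on `[0,t]`, `PD ≥ 0`, `fl g U N ≥ 0` (for `|w| = N`,
`ch U w = K max (U w) 0 ≥ 0`), `2 (g/L)^n U F ≤ (g/L)^n (U^2 + F^2)`:
`PE(t) ≤ PE(0) + ∫_0^t (PE + EF)`, so `PE(t) ≤ (E0 + T EF) exp T` (Gronwall for the continuous function
`PE`; e.g. the function `(E0 + T EF + ∫_0^t PE) exp(-t)` is antitone since its derivative is
`(PE(t) - (E0 + T EF + ∫_0^t PE)) exp(-t) ≤ 0`). -/
def P_TEB : Prop := ∀ (K : ℕ) (L g k T EF E0 : ℝ) (N : ℕ) (F : Nd K → ℝ → ℝ) (h : ℕ → ℝ)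
  (a : Nd K → ℝ) (U : Nd K → ℝ → ℝ), 1 ≤ L → 1 ≤ g → 0 < k → 0 < T → Frc L g T EF F h →
  TrT L g k T N F a U → PE L g U N 0 ≤ E0 →
  ∀ t ∈ Icc 0 T, PE L g U N t ≤ (E0 + T * EF) * Real.exp T

/-- Job TCP: compactness (the proof of `Pool.Agent.Q195.DY.t_CP` in `Pool/Agent/Q195/DY/CP.lean` for the
chain, adapted to words; the index set `Nd K × {r : ℚ // r ∈ [0,T]}` is countable).
PROOF. For `|w| + 1 ≤ N` all components in the equation of `w` are of generation `≤ N`, so the derivative of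
`U N w` is bounded on `[0,T]` by a number `D w` which does not depend on `N` (the bounds `C`, and
the maximum of the continuous function `F w` on `[0,T]`), so `U N w`, `N > |w|`, are Lipschitz on `[0,T]`
with the constant `D w`. Diagonal sequence (product of compact intervals over a countable
set is sequentially compact): strictly increasing `φ` such that `U (φ j) w r` converges for all `w` and all
rational `r ∈ [0,T]`; by the Lipschitz bound for all real `t ∈ [0,T]` (if `T` is irrational the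
rational points are still dense in `[0,T]`); call the limit `V w t`. For fixed `w` and `t ∈ [0,T]`
pass to the limit in `U (φ j) w t = a w + ∫_0^t vf (U (φ j)) w` (`φ j > |w|`) by dominated convergence. The
limit integrand is continuous on `[0,T]` (limits of uniformly Lipschitz functions), so `V w` has the
right derivative within `Icc 0 T`. -/
def P_TCP : Prop := ∀ (K : ℕ) (L g k T : ℝ) (F : Nd K → ℝ → ℝ) (a C : Nd K → ℝ)
  (U : ℕ → Nd K → ℝ → ℝ), 1 ≤ L → 1 ≤ g → 0 < k → 0 < T → (∀ w, ContinuousOn (F w) (Icc 0 T)) →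
  (∀ N, TrT L g k T N F a (U N)) →
  (∀ N w, w.length ≤ N → ∀ t ∈ Icc 0 T, |U N w t| ≤ C w) →
  ∃ (V : Nd K → ℝ → ℝ) (φ : ℕ → ℕ), Sol L g k T F V ∧ (∀ w, V w 0 = a w) ∧ StrictMono φ ∧
    ∀ w, ∀ t ∈ Icc 0 T, Tendsto (fun j => U (φ j) w t) atTop (𝓝 (V w t))

/-- Job TFE: finite energy and dissipation for solutions whose components of high generation are
bounded from below (use `P_TEN`).
PROOF. For `N ≥ m` and `|w| = N`: `ch V w ≥ - K sg` and `K g sg ≤ k/3000`, so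
`fl g V N r ≥ - (k/2) Σ_{|w|=N} g^N V_w^2 ≥ - (k/2) PD`. By `P_TEN` on `[0,t]` and
`2 (g/L)^n V F ≤ (g/L)^n (V^2 + F^2)`: `PE_N(t) + k ∫_0^t PD_N ≤ E0 + ∫_0^t (PE_N + EF)`. Gronwall:
`PE_N(t) ≤ (E0 + T EF) exp T =: E1` and `k ∫_0^T PD_N ≤ E0 + T EF + T E1`. For `N < m` use that `PE`, `PD` are
monotone in `N`. -/
def P_TFE : Prop := ∀ (K : ℕ) (L g k T EF E0 : ℝ) (m : ℕ) (F V : Nd K → ℝ → ℝ) (h : ℕ → ℝ),
  1 ≤ K → 1 ≤ L → 1 ≤ g → 0 < k → 0 < T → Frc L g T EF F h → Sol L g k T F V →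
  (∀ w, m ≤ w.length → ∀ t ∈ Icc 0 T, -sg K g k ≤ V w t) → (∀ N, PE L g V N 0 ≤ E0) →
  ∃ E : ℝ, (∀ N, ∀ t ∈ Icc 0 T, PE L g V N t ≤ E) ∧ ∀ N, (∫ t in (0:ℝ)..T, PD g V N t) ≤ E

/-- Job TFX: the flux of bounded solutions vanishes at infinity.
PROOF. `|fl g V N r| ≤ g K M Σ_{|w|=N} g^N V_w(r)^2 =: g K M lv_N(r)` on `[s,t]`, and
`Σ_{n ≤ N} ∫_0^T lv_n = ∫_0^T PD_N ≤ D` for all `N`, with `∫_0^T lv_n ≥ 0`, so `∫_0^T lv_N → 0`
(terms of a summable series), and `|∫_s^t fl| ≤ g K M ∫_0^T lv_N`. -/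
def P_TFX : Prop := ∀ (K : ℕ) (g M D T : ℝ) (V : Nd K → ℝ → ℝ) (s t : ℝ), 0 < g →
  0 ≤ s → s ≤ t → t ≤ T → (∀ w, ContinuousOn (V w) (Icc 0 T)) →
  (∀ w, ∀ r ∈ Icc s t, |V w r| ≤ M) → (∀ N, (∫ r in (0:ℝ)..T, PD g V N r) ≤ D) → EE g V s t

/-- Job TSM: behaviour of the high generations.
PROOF. COMPARISON: for `|w| ≥ m + 1`, `0 ≤ t1 ≤ t ≤ T`, if `|pr V w| ≤ A` on `[t1,T]` then
`|V_w(t)| ≤ exp(-κ L^n (t - t1)) |V_w(t1)| + (A^2 + h_n)/κ`, `κ = (99/100) k`, `n = |w|`, because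
`V_w' = L^n (pr V w^2 + F_w/L^n - V_w r)` with `r = g ch V w + k ≥ k - K g sg ≥ κ` (integrating factor:
compare with the solutions `± (exp(-κ L^n (t-t1)) |V_w(t1)| + (A^2+h_n)/κ)`, e.g. the function
`y(t) = exp(-κ L^n (t-t1)) |V_w(t1)| + (A^2+h_n)/κ` satisfies `y' ≥ L^n (A^2 + h_n - κ y)`, and
`(y - V_w) exp(L^n ∫ r)`, `(y + V_w) exp(L^n ∫ r)` are monotone, nonnegative at `t1`, since
`y' + L^n r y ≥ L^n (A^2 + h_n)` as `y ≥ 0`, `r ≥ κ`).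
Also `A ≤ k/2` for generations `≥ m` (`|V_w| ≤ max (k/2) sg = k/2`), so `A^2/κ ≤ (100/198) A`.
(1) Data tending to zero: let `A_m = k/2`, `A_(n+1) = min (k/2) (a_(n+1) + (A_n^2 + h_(n+1))/κ)` with
`a_n` a bound of `|V_w(0)|`, `|w| = n`, `a_n → 0`: by comparison with `t1 = 0`, `|V_w| ≤ A_n` on `[0,T]`, and
`A_(n+1) ≤ (a_(n+1) + h_(n+1)/κ) + (100/198) A_n`, so `A_n → 0`.
(2) Smoothing: `ρ = 1/√L < 1`, `t_n = t0 (1 - ρ^n)`; `A_(n+1) = min (k/2) (M e_n + (A_n^2 + h_(n+1))/κ)` bounds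
`|V_w|` on `[t_(n+1), T]`, `|w| = n+1`, where `e_n = exp(-κ L^(n+1) t0 (1-ρ) ρ^n)`
`= exp(-κ t0 (1-ρ) L (√L)^n)` decreases faster than any `q^n`. First `A_n → 0` as in (1), then for given
`q`: from some index on `A_n/κ ≤ q/2` and `A_(n+1) ≤ (M e_n + h_(n+1)/κ) + (q/2) A_n`, which gives
`A_n ≤ C q^n` by induction. As `t_n ≤ t0` this holds on `[t0,T]`; for `n ≤ m` enlarge `C` (`|V_w| ≤ M`).
(3) Geometric data: as (1) and then as in (2) with `a_(n+1)` in place of `M e_n`. -/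
def P_TSM : Prop := ∀ (K : ℕ) (L g k T EF M : ℝ) (m : ℕ) (F V : Nd K → ℝ → ℝ) (h : ℕ → ℝ),
  1 ≤ K → 1 < L → 1 ≤ g → 0 < k → 0 < T → Frc L g T EF F h → Sol L g k T F V →
  RC g k T M m V →
  (Dt (fun w => V w 0) → Tl 0 T V) ∧
  ((∀ q : ℝ, 0 < q → q < 1 → ∃ C : ℝ, ∀ n, h n ≤ C * q ^ n) →
    (∀ q t0 : ℝ, 0 < q → q < 1 → 0 < t0 → t0 ≤ T →
      ∃ C : ℝ, ∀ w, ∀ t ∈ Icc t0 T, |V w t| ≤ C * q ^ w.length) ∧
    ((∀ q : ℝ, 0 < q → q < 1 → ∃ C : ℝ, ∀ w, |V w 0| ≤ C * q ^ w.length) →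
      ∀ q : ℝ, 0 < q → q < 1 → ∃ C : ℝ, ∀ w, ∀ t ∈ Icc 0 T, |V w t| ≤ C * q ^ w.length))

/-- Job TWS: weak-strong uniqueness (use `P_TEN`).
PROOF. `D = V - W`. Let `Q_N = sm N ((g/L)^n V_w W_w)`. As in `P_TEN`,
`Q_N' = Σ_{|c| ≤ N} g^n [pV^2 W_c + pW^2 V_c] - Σ_{|w| ≤ N} g^(n+1) V_w W_w (ch V w + ch W w)`
`- 2 k sm N (g^n V W) + PF(V) + PF(W)` (`pV = pr V c`, `pW = pr W c`). Moving the second sum to the children
(`sum_lev_succ`) and with the algebraic identity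
`pV^2 Wc + pW^2 Vc - pV pW (Vc + Wc) = pD^2 Vc - pV pD Dc` (where `pD = pV - pW`, `Dc = Vc - Wc`):
`Q_N' = Σ_{1 ≤ |c| ≤ N} g^n (pD^2 Vc - pV pD Dc) - b_N - 2 k sm N (g^n V W) + PF(V) + PF(W)`,
`b_N = g^(N+1) Σ_{|w|=N} V_w W_w (ch V w + ch W w)`. With `P_TEN` for `V` and `W` and
`PE(D) = PE(V) + PE(W) - 2 Q`, `PD(D) = PD(V) + PD(W) - 2 sm N (g^n V W)`, `PE(D)(0) = 0`:
`PE_N(D)(t) = -2k ∫_0^t PD_N(D) - 2 ∫ Σ_{1≤|c|≤N} g^n (pD^2 Vc - pV pD Dc) - 2 ∫ fl_N(W)`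
`- 2 ∫ (fl_N(V) - b_N)`.
BOUNDS. Let `ε = k/(3 K g + 1)`, `m` from `Tl` for `ε`, `M ≥ |V|` everywhere (the solution `V` is
bounded). `|2 g^n (pD^2 Vc - pV pD Dc)| ≤ g^n (2 |Vc| pD^2 + |pV| (pD^2 + Dc^2))`. If the parent of
`c` has generation `≥ m` this is at most `ε g^n (3 pD^2 + Dc^2)`; the sum over these `c` is at most
`ε (3 K g + 1) PD_N(D) = k PD_N(D)`. For the other `c` it is at most `M g^n (3 pD^2 + Dc^2)` and `n ≤ m`, the
sum is at most `C PE_N(D)` with `C = M (3 K g + 1) L^m` (as `g^n = L^n (g/L)^n`; for the term with the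
parent, `g^n = g · g^(n-1)`). So for every `t ∈ [0,T]` and `N`:
`PE_N(D)(t) ≤ C ∫_0^t PE_N(D) - 2 ∫_0^t fl_N(W) + 2 ∫_0^t |fl_N(V) - b_N|`. The last integral tends to `0`:
`|fl_N(V) - b_N| ≤ C' (lv_N(V) + lv_N(W) + lv_(N+1)(V) + lv_(N+1)(W))`, `lv_n(V) = Σ_{|w|=n} g^n V_w^2`, by
`|V| ≤ M` and `2ab ≤ a^2 + b^2`, and `∫_0^T lv_N → 0` because `Σ_{n ≤ N} ∫_0^T lv_n = ∫_0^T PD_N ≤ E`.
Let `ψ(t) = sup_N PE_N(D)(t)` (monotone in `N`, bounded by `4 E`, measurable as a supremum of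
continuous functions). Fix `t`, let `N → ∞` (`EI g W 0 t`): `ψ(t) ≤ C ∫_0^t ψ`. So with `ψ ≤ B`:
`ψ(t) ≤ B (C t)^j / j!` for all `j` by induction on `j`, and `ψ = 0`. Since `ψ(t) ≥ (g/L)^n D_w(t)^2`, `D = 0`. -/
def P_TWS : Prop := ∀ (K : ℕ) (L g k T EF M E : ℝ) (F V W : Nd K → ℝ → ℝ) (h : ℕ → ℝ),
  1 ≤ K → 1 < L → 1 ≤ g → 0 < k → 0 < T → Frc L g T EF F h →
  Sol L g k T F V → Sol L g k T F W → (∀ w, V w 0 = W w 0) →
  (∀ w, ∀ t ∈ Icc 0 T, |V w t| ≤ M) → Tl 0 T V →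
  (∀ N, ∀ t ∈ Icc 0 T, PE L g V N t ≤ E) → (∀ N, (∫ t in (0:ℝ)..T, PD g V N t) ≤ E) →
  (∀ N, ∀ t ∈ Icc 0 T, PE L g W N t ≤ E) → (∀ N, (∫ t in (0:ℝ)..T, PD g W N t) ≤ E) →
  (∀ t ∈ Icc 0 T, EI g W 0 t) →
  ∀ w, ∀ t ∈ Icc 0 T, V w t = W w t

/-- Job TTIME: good times.
PROOF. `PD g W N s` is nondecreasing in `N` and its integral over `[0,T]` is at most `D`, so by
monotone convergence (e.g. `lintegral_iSup`, or `ae_lt_top` for the supremum) for almost every `s ∈ [0,T]` the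
sequence `PD g W N s` is bounded. Almost every `s` also has the property `Q`. So some `s ∈ (0,τ)` has
both (the interval has positive measure). For this `s` the series `Σ_n Σ_{|w|=n} g^n W_w(s)^2`
converges, so its terms `Σ_{|w|=n} g^n W_w(s)^2` tend to `0`, and `W_w(s)^2 ≤ g^n W_w(s)^2 ≤` this term. -/
def P_TTIME : Prop := ∀ (K : ℕ) (g T D τ : ℝ) (W : Nd K → ℝ → ℝ) (Q : ℝ → Prop),
  1 ≤ g → 0 < τ → τ ≤ T → (∀ w, ContinuousOn (W w) (Icc 0 T)) →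
  (∀ N, (∫ r in (0:ℝ)..T, PD g W N r) ≤ D) → (∀ᵐ s : ℝ, s ∈ Icc 0 T → Q s) →
  ∃ s, 0 < s ∧ s < τ ∧ Q s ∧ Dt (fun w => W w s)

/-- Job TE0: energy equality from time zero (use `P_TEN`).
PROOF. Let `e s = lim_N PE_N(s)` (monotone in `N`, bounded by `E`). By `P_TEN` on `[0,s]`,
`2 ∫_0^s fl_N = PE_N(0) - PE_N(s) - 2k ∫_0^s PD_N + 2 ∫_0^s PF_N ≤ e 0 - PE_N(s) + s (E + EF)` (as
`2 PF ≤ PE V + PE F ≤ E + EF`). For `0 < s ≤ t`, `∫_0^t fl_N = ∫_0^s fl_N + ∫_s^t fl_N` and the second one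
tends to `0`. So `limsup_N 2 ∫_0^t fl_N ≤ e 0 - e s + s (E + EF)`. For fixed `n0`, `e s ≥ PE_(n0)(s)`
`→ PE_(n0)(0)` as `s → 0`, so `liminf_(s → 0) e s ≥ e 0`, and the `limsup` is `≤ 0`. With `EI g V 0 t` the
limit is `0`. (For `t = 0` trivial.) -/
def P_TE0 : Prop := ∀ (K : ℕ) (L g k T EF E : ℝ) (F V : Nd K → ℝ → ℝ) (h : ℕ → ℝ),
  1 ≤ L → 1 ≤ g → 0 < k → 0 < T → Frc L g T EF F h → Sol L g k T F V →
  (∀ N, ∀ t ∈ Icc 0 T, PE L g V N t ≤ E) →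
  (∀ s t : ℝ, 0 < s → s ≤ t → t ≤ T → EE g V s t) → (∀ t ∈ Icc 0 T, EI g V 0 t) →
  ∀ t ∈ Icc 0 T, EE g V 0 t

/-- Job TLH: existence of Leray-Hopf solutions for all data of finite energy (use `P_TEN`, `P_TTR`,
`P_TEB`, `P_TCP`).
PROOF. `U_N` from `P_TTR`; `PE_N(U_N) ≤ E1 = (E0 + T EF) exp T` by `P_TEB`, so `|U_N w| ≤ C w` for
`|w| ≤ N`; `P_TCP` gives `V` and a subsequence. By `P_TEN` for `U_N` (`fl_N(U_N) ≥ 0`), for `0 ≤ s ≤ t`:
`(a)  PE_N(U_N)(t) + 2k ∫_s^t PD_N(U_N) ≤ PE_N(U_N)(s) + 2 ∫_s^t PF_N(U_N)`, in particular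
`∫_0^T PD_N(U_N) ≤ D1` uniformly. Passing to the limit in fixed finite sums: `PE_m(V) ≤ E1`,
`∫_0^T PD_m(V) ≤ D1`. TAILS: `Σ_{m < n ≤ N} Σ_{|w|=n} (g/L)^n U^2 ≤ L^(-m-1) PD_N(U_N)`, so
`∫_0^T |PE_N(U_N) - PE_m(U_N)| ≤ L^(-m-1) D1`, here `L > 1`. So along the subsequence
`PE_N(U_N) → e_V := lim_m PE_m(V)` in `L^1(0,T)`, hence almost everywhere along a further
subsequence; also at `s = 0`, where `PE_N(U_N)(0) = PE_N(a) → e_V(0)`. In the same way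
`∫_s^t PF_N(U_N) → ∫_s^t lim_m PF_m(V)` (Cauchy-Schwarz for the tails). So for almost every `s` and `s = 0`
and all `t ≥ s`, all `m`: `PE_m(V)(t) + 2k ∫_s^t PD_m(V) ≤ e_V(s) + 2 ∫_s^t lim PF_m(V)`. With `P_TEN` for
`V`: `-2 ∫_s^t fl_m(V) = PE_m(V)(t) + 2k ∫_s^t PD_m(V) - PE_m(V)(s) - 2 ∫_s^t PF_m(V)`
`≤ (e_V(s) - PE_m(V)(s)) + 2 ∫_s^t (lim PF - PF_m)`, which tends to `0` as `m → ∞`. This is `EI g V s t`. -/
def P_TLH : Prop := ∀ (K : ℕ) (L g k T EF E0 : ℝ) (F : Nd K → ℝ → ℝ) (h : ℕ → ℝ)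
  (a : Nd K → ℝ), 1 ≤ K → 1 < L → 1 ≤ g → 0 < k → 0 < T → Frc L g T EF F h →
  (∀ N, (sm N fun w => (g / L) ^ w.length * a w ^ 2) ≤ E0) →
  ∃ V : Nd K → ℝ → ℝ, LH L g k T F V ∧ ∀ w, V w 0 = a w

/-- The conditions on the parameters under which the invariant region is proved. -/
def Par (K : ℕ) (L g : ℝ) : Prop := (2 ≤ K ∧ 12 ≤ K * g * L) ∨ (K = 1 ∧ 4 ≤ L)

/-- Job TREG (helper186): the invariant region. -/
def P_TREG : Prop := ∀ (K : ℕ) (L g k T EF E0 : ℝ) (F : Nd K → ℝ → ℝ) (h : ℕ → ℝ)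
  (a : Nd K → ℝ), Par K L g → 1 < L → 1 ≤ g → 0 < k → 0 < T → Frc L g T EF F h → Dt a →
  (∀ N, (sm N fun w => (g / L) ^ w.length * a w ^ 2) ≤ E0) →
  ∃ (M : ℝ) (m : ℕ), ∀ (N : ℕ) (U : Nd K → ℝ → ℝ), TrT L g k T N F a U →
    ∀ w : Nd K, w.length ≤ N → ∀ t ∈ Icc 0 T, |U w t| ≤ M ∧
      (m ≤ w.length → -sg K g k ≤ U w t ∧ U w t ≤ k / 2)

/-- Job TNN: nonnegative data and forces give nonnegative solutions (`Pool.Agent.Q58.DY.t_NN`).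
PROOF. `f = V w` satisfies `f' = p - f r` on `[0,T]` with `p = L^n (pr V w)^2 + F w ≥ 0` and
`r = L^n (g ch V w + k)` continuous. With a primitive `R` of `r` the function `f exp R` has derivative
`p exp R ≥ 0`, so it is monotone on `[0,T]`. -/
def P_TNN : Prop := ∀ (K : ℕ) (L g k T : ℝ) (F V : Nd K → ℝ → ℝ), 0 ≤ L →
  Sol L g k T F V → (∀ w, ∀ t ∈ Icc 0 T, 0 ≤ F w t) → (∀ w, 0 ≤ V w 0) →
  ∀ w, ∀ t ∈ Icc 0 T, 0 ≤ V w t

/-- Job TUNI: stability of nonnegative solutions, one of them bounded (use `P_TEN`; the proof of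
`Pool.Agent.Q96.DY.t_UNI` in `Pool/Agent/Q96/DY/UNI.lean` for the chain).
PROOF. `D = V - W`, `S = V + W`, `ρ = g/(2L)`, `ψ_N = sm N (ρ^n D_w^2)`.
`D_w' = L^n (pD pS - (g/2) (D_w ch S w + S_w ch D w) - k D_w)` (the forces cancel;
`a b - c d = ((a-c)(b+d) + (a+c)(b-d))/2`). In `ψ_N'` the terms `2 ρ^n L^n pD pS D_c` (`|c| = n ≥ 1`) cancel
with the terms `- ρ^(n-1) L^(n-1) g S_u D_u D_c` of the parent `u` (`2 ρ L = g`); what is left is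
`ψ_N' = - Σ_{|w|≤N} ρ^n L^n D_w^2 (g ch S w + 2k) - g ρ^N L^N Σ_{|w|=N} S_w D_w ch D w`, and for a child
`c` of `w`: `- S_w D_w D_c = -(V_w^2 - W_w^2)(V_c - W_c) ≤ V_w^2 W_c + W_w^2 V_c`, `g ρ^N L^N = g 2^(-N) g^N`.
With `0 ≤ V ≤ M`: `V_w^2 W_c ≤ M (V_w^2 + W_c^2)`, `W_w^2 V_c ≤ M W_w^2`. By `P_TEN` for `V` and `W`
(nonnegative solutions have nonnegative flux; Gronwall as in `P_TFE`) or by the hypothesis
`∫_0^T PD ≤ E` for both: `∫_0^T g^N Σ_{|w|=N} (..)^2 ≤ E`. So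
`ψ_N(t) ≤ ψ_N(0) + C 2^(-N)`, `C = 3 g M (K+1) E`. For fixed `N0 ≤ N` `ψ_(N0)(t) ≤ ψ_N(t) ≤ B + C 2^(-N)`; let
`N → ∞`. -/
def P_TUNI : Prop := ∀ (K : ℕ) (L g k T M E B : ℝ) (F V W : Nd K → ℝ → ℝ), 1 ≤ L → 1 ≤ g →
  0 < k → 0 < T → (∀ w, ContinuousOn (F w) (Icc 0 T)) → Sol L g k T F V → Sol L g k T F W →
  (∀ w, ∀ t ∈ Icc 0 T, 0 ≤ V w t) → (∀ w, ∀ t ∈ Icc 0 T, 0 ≤ W w t) →
  (∀ w, ∀ t ∈ Icc 0 T, V w t ≤ M) →
  (∀ N, (∫ t in (0:ℝ)..T, PD g V N t) ≤ E) → (∀ N, (∫ t in (0:ℝ)..T, PD g W N t) ≤ E) →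
  (∀ N, (sm N fun w => (g / (2 * L)) ^ w.length * (V w 0 - W w 0) ^ 2) ≤ B) →
  ∀ N, ∀ t ∈ Icc 0 T, (sm N fun w => (g / (2 * L)) ^ w.length * (V w t - W w t) ^ 2) ≤ B

end Pool.Agent.Q186.DT
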